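import Mathlib

/-!
Weights for the Hilbert transform on functions of mean zero: definitions.
-/

set_option autoImplicit false

open MeasureTheory Filter Topology Set
open scoped ENNReal NNReal Real

namespace Run7.h664

/-- The truncated integral `(1/π) ∫_{|y-x|>δ} f(y)/(x-y) dy`. -/
noncomputable def trunc (f : ℝ → ℂ) (δ x : ℝ) : ℂ :=
  (1 / (π : ℂ)) * ∫ y in {y : ℝ | δ < |y - x|}, f y / ((x : ℂ) - (y : ℂ))

/-- The Hilbert transform `Hf(x) = lim_{δ↓0} (1/π) ∫_{|y-x|>δ} f(y)/(x-y) dy` (principal value). -/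
noncomputable def hilb (f : ℝ → ℂ) (x : ℝ) : ℂ := limUnder (𝓝[>] (0 : ℝ)) (fun δ => trunc f δ x)

/-- A weight: a measurable, locally integrable function `U : ℝ → [0,∞)` which is not a.e. zero. -/
structure IsWeight (U : ℝ → ℝ≥0) : Prop where
  meas : Measurable U
  loc : LocallyIntegrable (fun x => (U x : ℝ)) volume
  ne_zero : ¬ (∀ᵐ x, U x = 0)

/-- The class `A_p`. -/
def IsAp (p : ℝ) (W : ℝ → ℝ≥0) : Prop :=
  IsWeight W ∧ ∃ C : ℝ≥0, ∀ a b : ℝ, a < b →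
    ((∫⁻ x in Set.Icc a b, (W x : ℝ≥0∞)) / ENNReal.ofReal (b - a)) *
      ((∫⁻ x in Set.Icc a b, (W x : ℝ≥0∞) ^ (-(1 / (p - 1)))) / ENNReal.ofReal (b - a)) ^ (p - 1)
      ≤ C

/-- The weight `U` is admissible for `p`: `∫ |Hf|^p U ≤ C ∫ |f|^p U` for every integrable function
`f` with `∫ f = 0`. -/
def Admissible (p : ℝ) (U : ℝ → ℝ≥0) : Prop :=
  ∃ C : ℝ≥0, ∀ f : ℝ → ℂ, Integrable f → ∫ x, f x = 0 →
    ∫⁻ x, ‖hilb f x‖ₑ ^ p * U x ≤ C * ∫⁻ x, ‖f x‖ₑ ^ p * U x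

end Run7.h664
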