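import Pool.Agent.Run7.h664.Defs

set_option autoImplicit false

open MeasureTheory Filter Topology Set
open scoped ENNReal NNReal Real

namespace Run7.h664

/-- The test condition on adjacent intervals, for functions vanishing near `a`. -/
def Test (p : ℝ) (W : ℝ → ℝ≥0) (a : ℝ) (C : ℝ≥0) : Prop :=
  ∀ (c l : ℝ), 0 < l → ∀ g : ℝ → ℝ≥0, Measurable g → (∃ B : ℝ≥0, ∀ x, g x ≤ B) →
    (∀ x, x ∉ Icc c (c + l) → g x = 0) → (∃ ε : ℝ, 0 < ε ∧ ∀ x, |x - a| < ε → g x = 0) →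
    (∫⁻ x in Ioo (c + l) (c + 2 * l), (W x : ℝ≥0∞)) * (∫⁻ x, (g x : ℝ≥0∞)) ^ p ≤
        C * ENNReal.ofReal l ^ p * ∫⁻ x, (g x : ℝ≥0∞) ^ p * W x ∧
    (∫⁻ x in Ioo (c - l) c, (W x : ℝ≥0∞)) * (∫⁻ x, (g x : ℝ≥0∞)) ^ p ≤
        C * ENNReal.ofReal l ^ p * ∫⁻ x, (g x : ℝ≥0∞) ^ p * W x

/-- the dual weight -/
noncomputable def sig (p : ℝ) (W : ℝ → ℝ≥0) (x : ℝ) : ℝ≥0∞ := (W x : ℝ≥0∞) ^ (-(1 / (p - 1)))

lemma sig_meas {p : ℝ} {W : ℝ → ℝ≥0} (hW : Measurable W) : Measurable (sig p W) := by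
  unfold sig
  exact hW.coe_nnreal_ennreal.pow_const _

lemma sig_mul {p : ℝ} (hp : 1 < p) (W : ℝ → ℝ≥0) (x : ℝ) : sig p W x ^ (p - 1) * W x ≤ 1 := by
  have hp1 : p - 1 ≠ 0 := by linarith
  unfold sig
  rw [← ENNReal.rpow_mul]
  have e : -(1 / (p - 1)) * (p - 1) = -1 := by field_simp
  rw [e, ENNReal.rpow_neg_one]
  exact ENNReal.inv_mul_le_one _

lemma le_sig_mul {p : ℝ} (hp : 1 < p) (W : ℝ → ℝ≥0) (x : ℝ) {s : ℝ≥0∞} (hs : s ≤ sig p W x)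
    (hs' : s ≠ ∞) : s ^ p * W x ≤ s := by
  rcases eq_or_ne s 0 with h0 | h0
  · rw [h0, ENNReal.zero_rpow_of_pos (by linarith), zero_mul]
  · have e : s ^ p = s * s ^ (p - 1) := by
      conv_rhs => rw [← ENNReal.rpow_one s]
      rw [← ENNReal.rpow_mul, one_mul, ← ENNReal.rpow_add _ _ h0 hs']
      congr 1; ring
    rw [e, mul_assoc]
    calc s * (s ^ (p - 1) * W x) ≤ s * (sig p W x ^ (p - 1) * W x) := by
          gcongr
      _ ≤ s * 1 := by gcongr; exact sig_mul hp W x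
      _ = s := mul_one s

end Run7.h664
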