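import Pool.Agent.Run7.h664.N1

set_option autoImplicit false

open MeasureTheory Filter Topology Set
open scoped ENNReal NNReal Real

namespace Run7.h664

variable {p : ℝ} {W : ℝ → ℝ≥0} {a : ℝ} {C : ℝ≥0}

/-- indicator functions of an interval minus a neighbourhood of `a` -/
lemma ind_test (hp : 1 < p) (hT : Test p W a C) (c l : ℝ) (hl : 0 < l) :
    (∫⁻ x in Ioo (c + l) (c + 2 * l), (W x : ℝ≥0∞)) ≤ (2 : ℝ≥0∞) ^ p * C *
      ∫⁻ x in Icc c (c + l) \ Metric.ball a (l / 4), (W x : ℝ≥0∞) ∧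
    (∫⁻ x in Ioo (c - l) c, (W x : ℝ≥0∞)) ≤ (2 : ℝ≥0∞) ^ p * C *
      ∫⁻ x in Icc c (c + l) \ Metric.ball a (l / 4), (W x : ℝ≥0∞) := by
  classical
  set S : Set ℝ := Icc c (c + l) \ Metric.ball a (l / 4) with hS
  have hSm : MeasurableSet S := measurableSet_Icc.diff Metric.isOpen_ball.measurableSet
  set g : ℝ → ℝ≥0 := S.indicator (fun _ => 1) with hg
  have hgm : Measurable g := measurable_const.indicator hSm
  have h := hT c l hl g hgm ⟨1, fun x => by
      rw [hg]; by_cases hx : x ∈ S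
      · rw [Set.indicator_of_mem hx]
      · rw [Set.indicator_of_notMem hx]; exact zero_le_one⟩
    (fun x hx => Set.indicator_of_notMem (fun h => hx h.1) _)
    ⟨l / 4, by positivity, fun x hx => Set.indicator_of_notMem (fun h => h.2 (by
      rw [Metric.mem_ball, Real.dist_eq]; exact hx)) _⟩
  have hp0 : 0 < p := by linarith
  have e1 : ∫⁻ x, (g x : ℝ≥0∞) = volume S := by
    have : ∀ x, (g x : ℝ≥0∞) = S.indicator (fun _ => (1 : ℝ≥0∞)) x := by
      intro x
      rw [hg]
      by_cases hx : x ∈ S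
      · rw [Set.indicator_of_mem hx, Set.indicator_of_mem hx]; rfl
      · rw [Set.indicator_of_notMem hx, Set.indicator_of_notMem hx]; rfl
    simp_rw [this]
    rw [lintegral_indicator hSm, setLIntegral_one]
  have e2 : ∫⁻ x, (g x : ℝ≥0∞) ^ p * W x = ∫⁻ x in S, (W x : ℝ≥0∞) := by
    rw [← lintegral_indicator hSm]
    congr 1
    funext x
    rw [hg]
    by_cases hx : x ∈ S
    · rw [Set.indicator_of_mem hx, Set.indicator_of_mem hx]
      simp
    · rw [Set.indicator_of_notMem hx, Set.indicator_of_notMem hx]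
      simp [hp0]
  have hvol : ENNReal.ofReal (l / 2) ≤ volume S := by
    have h1 : volume (Icc c (c + l)) ≤ volume S + volume (Metric.ball a (l / 4)) := by
      refine (measure_mono (fun x hx => ?_)).trans (measure_union_le _ _)
      by_cases hx' : x ∈ Metric.ball a (l / 4)
      · exact Or.inr hx'
      · exact Or.inl ⟨hx, hx'⟩
    rw [Real.volume_Icc, Real.volume_ball] at h1
    have e3 : c + l - c = l / 2 + l / 2 := by ring
    have e4 : 2 * (l / 4) = l / 2 := by ring
    rw [e3, e4, ENNReal.ofReal_add (by positivity) (by positivity)] at h1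
    exact (ENNReal.add_le_add_iff_right ENNReal.ofReal_ne_top).1 h1
  rw [e1, e2] at h
  have hl0 : ENNReal.ofReal l ≠ 0 := by simpa using hl
  have key : ∀ A : ℝ≥0∞, A * volume S ^ p ≤ C * ENNReal.ofReal l ^ p * ∫⁻ x in S, (W x : ℝ≥0∞) →
      A ≤ (2 : ℝ≥0∞) ^ p * C * ∫⁻ x in S, (W x : ℝ≥0∞) := by
    intro A hA
    have h2 : A * ENNReal.ofReal (l / 2) ^ p ≤
        C * ENNReal.ofReal l ^ p * ∫⁻ x in S, (W x : ℝ≥0∞) := by
      refine le_trans ?_ hA
      gcongr
    have e5 : ENNReal.ofReal (l / 2) = ENNReal.ofReal l / 2 := by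
      rw [ENNReal.ofReal_div_of_pos (by norm_num)]
      simp
    rw [e5, ENNReal.div_rpow_of_nonneg _ _ hp0.le, ← mul_div_assoc] at h2
    have h20 : (2 : ℝ≥0∞) ^ p ≠ 0 := by
      rw [Ne, ENNReal.rpow_eq_zero_iff_of_pos hp0]; norm_num
    have h2t : (2 : ℝ≥0∞) ^ p ≠ ∞ := ENNReal.rpow_ne_top_of_nonneg hp0.le (by norm_num)
    have hlp0 : ENNReal.ofReal l ^ p ≠ 0 := by
      rw [Ne, ENNReal.rpow_eq_zero_iff_of_pos hp0]; exact hl0
    have hlpt : ENNReal.ofReal l ^ p ≠ ∞ := ENNReal.rpow_ne_top_of_nonneg hp0.le ENNReal.ofReal_ne_top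
    rw [ENNReal.div_le_iff h20 h2t] at h2
    have h3 : A * ENNReal.ofReal l ^ p ≤
        ((2 : ℝ≥0∞) ^ p * C * ∫⁻ x in S, (W x : ℝ≥0∞)) * ENNReal.ofReal l ^ p := by
      refine h2.trans (le_of_eq ?_)
      ring
    exact (ENNReal.mul_le_mul_iff_left hlp0 hlpt).1 h3
  exact ⟨key _ h.1, key _ h.2⟩

/-- the second step -/
lemma sig_test (hp : 1 < p) (hWm : Measurable W) (hT : Test p W a C) (c l : ℝ) (hl : 0 < l)
    (hfin : (∫⁻ x in Ioo (c + l) (c + 2 * l), (W x : ℝ≥0∞)) ≠ ∞) :
    (∫⁻ x in Ioo (c + l) (c + 2 * l), (W x : ℝ≥0∞)) * (∫⁻ x in Icc c (c + l), sig p W x) ^ (p - 1) ≤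
      C * ENNReal.ofReal l ^ p := by
  classical
  have hp0 : 0 < p := by linarith
  set S : ℕ → Set ℝ := fun n => Icc c (c + l) \ Metric.ball a (1 / ((n : ℝ) + 1)) with hS
  have hSm : ∀ n, MeasurableSet (S n) := fun n =>
    measurableSet_Icc.diff Metric.isOpen_ball.measurableSet
  set G : ℕ → ℝ → ℝ≥0∞ := fun n => (S n).indicator (fun x => min (sig p W x) n) with hG
  have hGm : ∀ n, Measurable (G n) := fun n =>
    ((sig_meas hWm).min measurable_const).indicator (hSm n)
  have hGle : ∀ n x, G n x ≤ n := by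
    intro n x
    rw [hG]
    by_cases hx : x ∈ S n
    · simp only [Set.indicator_of_mem hx]; exact min_le_right _ _
    · simp only [Set.indicator_of_notMem hx]; exact bot_le
  have hGt : ∀ n x, G n x ≠ ∞ := fun n x => ((hGle n x).trans_lt (ENNReal.natCast_lt_top n)).ne
  have hGs : ∀ n x, G n x ≤ sig p W x := by
    intro n x
    rw [hG]
    by_cases hx : x ∈ S n
    · simp only [Set.indicator_of_mem hx]; exact min_le_left _ _
    · simp only [Set.indicator_of_notMem hx]; exact bot_le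
  have hmono : ∀ x, Monotone fun n => G n x := by
    intro x m n hmn
    simp only [hG]
    have hsub : S m ⊆ S n := by
      intro y hy
      refine ⟨hy.1, fun h => hy.2 (Metric.ball_subset_ball ?_ h)⟩
      apply one_div_le_one_div_of_le (by positivity)
      have : (m : ℝ) ≤ n := by exact_mod_cast hmn
      linarith
    by_cases hx : x ∈ S m
    · rw [Set.indicator_of_mem hx, Set.indicator_of_mem (hsub hx)]
      apply min_le_min_left
      exact_mod_cast hmn
    · rw [Set.indicator_of_notMem hx]; exact bot_le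
  set A := ∫⁻ x in Ioo (c + l) (c + 2 * l), (W x : ℝ≥0∞) with hA
  have hn : ∀ n : ℕ, A * (∫⁻ x, G n x) ^ (p - 1) ≤ C * ENNReal.ofReal l ^ p := by
    intro n
    have h := (hT c l hl (fun x => (G n x).toNNReal) (hGm n).ennreal_toNNReal ⟨n, fun x => by
        rw [← ENNReal.coe_le_coe, ENNReal.coe_toNNReal (hGt n x)]
        exact_mod_cast hGle n x⟩
      (fun x hx => by
        have : G n x = 0 := Set.indicator_of_notMem (fun h => hx h.1) _
        simp [this])
      ⟨1 / ((n : ℝ) + 1), by positivity, fun x hx => by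
        have : G n x = 0 := Set.indicator_of_notMem (fun h => h.2 (by
          rw [Metric.mem_ball, Real.dist_eq]; exact hx)) _
        simp [this]⟩).1
    simp only [ENNReal.coe_toNNReal (hGt n _)] at h
    have h1 : ∫⁻ x, G n x ^ p * W x ≤ ∫⁻ x, G n x :=
      lintegral_mono (fun x => le_sig_mul hp W x (hGs n x) (hGt n x))
    set t := ∫⁻ x, G n x with ht
    have htt : t ≠ ∞ := by
      have h2 : t ≤ ∫⁻ x in Icc c (c + l), (n : ℝ≥0∞) := by
        rw [ht, ← lintegral_indicator measurableSet_Icc]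
        apply lintegral_mono
        intro x
        by_cases hx : x ∈ Icc c (c + l)
        · rw [Set.indicator_of_mem hx]; exact hGle n x
        · rw [Set.indicator_of_notMem hx]
          have : G n x = 0 := Set.indicator_of_notMem (fun h => hx h.1) _
          rw [this]
      refine (h2.trans_lt ?_).ne
      rw [setLIntegral_const, Real.volume_Icc]
      exact ENNReal.mul_lt_top (ENNReal.natCast_lt_top n) ENNReal.ofReal_lt_top
    rcases eq_or_ne t 0 with h0 | h0
    · rw [h0, ENNReal.zero_rpow_of_pos (by linarith), mul_zero]; exact bot_le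
    · have e : t ^ p = t ^ (p - 1) * t := by
        conv_rhs => rw [← ENNReal.rpow_one t]
        rw [← ENNReal.rpow_mul, one_mul, ← ENNReal.rpow_add _ _ h0 htt]
        congr 1; ring
      have h3 : (A * t ^ (p - 1)) * t ≤ (C * ENNReal.ofReal l ^ p) * t := by
        calc (A * t ^ (p - 1)) * t = A * t ^ p := by rw [e, mul_assoc]
          _ ≤ C * ENNReal.ofReal l ^ p * ∫⁻ x, G n x ^ p * W x := h
          _ ≤ _ := by gcongr
      exact (ENNReal.mul_le_mul_iff_left h0 htt).1 h3
  have hlim : Tendsto (fun n => ∫⁻ x, G n x) atTop (𝓝 (∫⁻ x in Icc c (c + l), sig p W x)) := by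
    rw [← lintegral_indicator measurableSet_Icc]
    apply lintegral_tendsto_of_tendsto_of_monotone (fun n => (hGm n).aemeasurable)
      (Eventually.of_forall hmono)
    have hae : ∀ᵐ x : ℝ, x ≠ a := by
      rw [ae_iff]
      simp
    filter_upwards [hae] with x hxa
    by_cases hx : x ∈ Icc c (c + l)
    · rw [Set.indicator_of_mem hx]
      have hpos : 0 < |x - a| := abs_pos.2 (sub_ne_zero.2 hxa)
      obtain ⟨N, hN⟩ := exists_nat_one_div_lt hpos
      have hmem : ∀ n, N ≤ n → x ∈ S n := by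
        intro n hn
        refine ⟨hx, fun h => ?_⟩
        rw [Metric.mem_ball, Real.dist_eq] at h
        have : (1 : ℝ) / (n + 1) ≤ 1 / (N + 1) := by
          apply one_div_le_one_div_of_le (by positivity)
          have : (N : ℝ) ≤ n := by exact_mod_cast hn
          linarith
        linarith
      have h1 : Tendsto (fun n : ℕ => min (sig p W x) (n : ℝ≥0∞)) atTop (𝓝 (min (sig p W x) ∞)) :=
        (continuous_const.min continuous_id).continuousAt.tendsto.comp ENNReal.tendsto_nat_nhds_top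
      rw [min_eq_left le_top] at h1
      refine h1.congr' ?_
      filter_upwards [eventually_ge_atTop N] with n hn
      simp only [hG]
      rw [Set.indicator_of_mem (hmem n hn)]
    · rw [Set.indicator_of_notMem hx]
      have : ∀ n, G n x = 0 := fun n => Set.indicator_of_notMem (fun h => hx h.1) _
      simp_rw [this]
      exact tendsto_const_nhds
  have hlim2 : Tendsto (fun n => A * (∫⁻ x, G n x) ^ (p - 1)) atTop
      (𝓝 (A * (∫⁻ x in Icc c (c + l), sig p W x) ^ (p - 1))) :=
    ENNReal.Tendsto.const_mul ((ENNReal.continuous_rpow_const.tendsto _).comp hlim) (Or.inr hfin)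
  exact le_of_tendsto hlim2 (Eventually.of_forall hn)

/-- **The test condition implies `A_p`.** -/
theorem isAp_of_test (hp : 1 < p) (hWm : Measurable W) (hW0 : ¬ (∀ᵐ x, W x = 0))
    (hloc : ∀ b d : ℝ, a ∉ Icc b d → ∫⁻ x in Icc b d, (W x : ℝ≥0∞) < ∞) (hT : Test p W a C) :
    IsAp p W := by
  have hp0 : 0 < p := by linarith
  have h2t : (2 : ℝ≥0∞) ^ p ≠ ∞ := ENNReal.rpow_ne_top_of_nonneg hp0.le (by norm_num)
  -- finiteness
  have hfinS : ∀ c l : ℝ, 0 < l → ∫⁻ x in Icc c (c + l) \ Metric.ball a (l / 4), (W x : ℝ≥0∞) < ∞ := by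
    intro c l hl
    have hsub : Icc c (c + l) \ Metric.ball a (l / 4) ⊆
        Icc c (min (c + l) (a - l / 4)) ∪ Icc (max c (a + l / 4)) (c + l) := by
      intro x hx
      have h1 : ¬ |x - a| < l / 4 := by
        have := hx.2
        rwa [Metric.mem_ball, Real.dist_eq] at this
      rw [abs_lt, not_and_or] at h1
      rcases h1 with h1 | h1
      · left
        exact ⟨hx.1.1, le_min hx.1.2 (by linarith)⟩
      · right
        exact ⟨max_le hx.1.1 (by linarith), hx.1.2⟩
    refine (lintegral_mono_set hsub).trans_lt ?_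
    refine (lintegral_union_le _ _ _).trans_lt ?_
    refine ENNReal.add_lt_top.2 ⟨hloc _ _ ?_, hloc _ _ ?_⟩
    · rintro ⟨_, h⟩
      have := h.trans (min_le_right _ _)
      linarith
    · rintro ⟨h, _⟩
      have := (le_max_right _ _).trans h
      linarith
  have hfin : ∀ b d : ℝ, ∫⁻ x in Icc b d, (W x : ℝ≥0∞) < ∞ := by
    intro b d
    rcases lt_or_ge b d with hbd | hbd
    · have h1 := (ind_test hp hT d (d - b) (by linarith)).2
      have e : d - (d - b) = b := by ring
      rw [e] at h1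
      rw [setLIntegral_congr Ioo_ae_eq_Icc.symm]
      refine h1.trans_lt ?_
      exact ENNReal.mul_lt_top (ENNReal.mul_lt_top h2t.lt_top ENNReal.coe_lt_top)
        (hfinS _ _ (by linarith))
    · have : volume (Icc b d) = 0 := by
        rw [Real.volume_Icc]; simp [hbd]
      rw [Measure.restrict_eq_zero.2 this]
      simp
  refine ⟨⟨hWm, ?_, hW0⟩, (2 : ℝ≥0) ^ p * C * C, ?_⟩
  · rw [MeasureTheory.locallyIntegrable_iff]
    intro K hK
    obtain ⟨R, hR⟩ := hK.isBounded.subset_closedBall 0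
    rw [Real.closedBall_eq_Icc] at hR
    refine IntegrableOn.mono_set ?_ hR
    refine ⟨hWm.coe_nnreal_real.aestronglyMeasurable, ?_⟩
    rw [hasFiniteIntegral_iff_enorm]
    refine lt_of_le_of_lt (le_of_eq ?_) (hfin (0 - R) (0 + R))
    apply lintegral_congr
    intro x
    rw [Real.enorm_eq_ofReal (W x).coe_nonneg, ENNReal.ofReal_coe_nnreal]
  · intro b d hbd
    set l := d - b with hl
    have hl0 : 0 < l := by rw [hl]; linarith
    have ed : b + l = d := by rw [hl]; ring
    have h1 := (ind_test hp hT d l hl0).2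
    have e1 : d - l = b := by rw [hl]; ring
    rw [e1] at h1
    have hJ : ∫⁻ x in Icc d (d + l) \ Metric.ball a (l / 4), (W x : ℝ≥0∞) ≤
        ∫⁻ x in Ioo (b + l) (b + 2 * l), (W x : ℝ≥0∞) := by
      have e2 : b + 2 * l = d + l := by rw [← ed]; ring
      rw [e2, ed, setLIntegral_congr (Ioo_ae_eq_Icc (μ := volume) (a := d) (b := d + l))]
      exact lintegral_mono_set sdiff_subset
    have hJfin : (∫⁻ x in Ioo (b + l) (b + 2 * l), (W x : ℝ≥0∞)) ≠ ∞ :=
      ((lintegral_mono_set Ioo_subset_Icc_self).trans_lt (hfin _ _)).ne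
    have h2 := sig_test hp hWm hT b l hl0 hJfin
    rw [ed] at h2
    set A := ∫⁻ x in Icc b d, (W x : ℝ≥0∞) with hA
    have hA' : A = ∫⁻ x in Ioo b d, (W x : ℝ≥0∞) := by
      rw [hA, setLIntegral_congr Ioo_ae_eq_Icc]
    set J := ∫⁻ x in Ioo (d) (b + 2 * l), (W x : ℝ≥0∞) with hJd
    rw [ed] at hJ
    set s := ∫⁻ x in Icc b d, sig p W x with hs
    have h3 : A * s ^ (p - 1) ≤ (2 : ℝ≥0∞) ^ p * C * C * ENNReal.ofReal l ^ p := by
      calc A * s ^ (p - 1) ≤ ((2 : ℝ≥0∞) ^ p * C * J) * s ^ (p - 1) := by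
            rw [hA']
            gcongr
            refine h1.trans ?_
            gcongr
        _ = (2 : ℝ≥0∞) ^ p * C * (J * s ^ (p - 1)) := by ring
        _ ≤ (2 : ℝ≥0∞) ^ p * C * (C * ENNReal.ofReal l ^ p) := by gcongr
        _ = _ := by ring
    have hlp0 : ENNReal.ofReal l ^ p ≠ 0 := by
      rw [Ne, ENNReal.rpow_eq_zero_iff_of_pos hp0]; simpa using hl0
    have hlpt : ENNReal.ofReal l ^ p ≠ ∞ := ENNReal.rpow_ne_top_of_nonneg hp0.le ENNReal.ofReal_ne_top
    have e4 : A / ENNReal.ofReal l * (s / ENNReal.ofReal l) ^ (p - 1) =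
        A * s ^ (p - 1) / ENNReal.ofReal l ^ p := by
      rw [ENNReal.div_rpow_of_nonneg _ _ (by linarith)]
      have hl1 : ENNReal.ofReal l ≠ 0 := by simpa using hl0
      have e5 : ENNReal.ofReal l ^ p = ENNReal.ofReal l * ENNReal.ofReal l ^ (p - 1) := by
        conv_rhs => rw [← ENNReal.rpow_one (ENNReal.ofReal l)]
        rw [← ENNReal.rpow_mul, one_mul, ← ENNReal.rpow_add _ _ hl1 ENNReal.ofReal_ne_top]
        congr 1; ring
      rw [e5, ENNReal.div_eq_inv_mul, ENNReal.div_eq_inv_mul, ENNReal.div_eq_inv_mul,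
        ENNReal.mul_inv (Or.inl hl1) (Or.inl ENNReal.ofReal_ne_top)]
      ring
    show A / ENNReal.ofReal l * (s / ENNReal.ofReal l) ^ (p - 1) ≤ _
    rw [e4]
    apply ENNReal.div_le_of_le_mul
    refine h3.trans (le_of_eq ?_)
    push_cast
    rw [ENNReal.coe_rpow_of_nonneg _ hp0.le]
    norm_num

end Run7.h664
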