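import Pool.Agent.Run7.h664.N2

set_option autoImplicit false

open MeasureTheory Filter Topology Set
open scoped ENNReal NNReal Real

namespace Run7.h664

/-- the value of the Hilbert transform off the support -/
lemma hilb_off {f : ℝ → ℂ} {x r : ℝ} (hr : 0 < r) (h0 : ∀ y, |y - x| < r → f y = 0) :
    hilb f x = (1 / (π : ℂ)) * ∫ y, f y / ((x : ℂ) - (y : ℂ)) := by
  unfold hilb
  have h1 : ∀ᶠ δ in 𝓝[>] (0 : ℝ), trunc f δ x = (1 / (π : ℂ)) * ∫ y, f y / ((x : ℂ) - (y : ℂ)) := by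
    filter_upwards [Ioo_mem_nhdsGT hr] with δ hδ
    unfold trunc
    congr 1
    apply setIntegral_eq_integral_of_forall_compl_eq_zero
    intro y hy
    have hy' : ¬ δ < |y - x| := hy
    rw [h0 y (by linarith [hδ.2]), zero_div]
  exact (tendsto_const_nhds.congr' (h1.mono fun δ hδ => hδ.symm)).limUnder_eq

/-- real version of the Hilbert transform off the support -/
noncomputable def offH (F : ℝ → ℝ) (x : ℝ) : ℝ := π⁻¹ * ∫ y, F y / (x - y)

lemma hilb_off_real {F : ℝ → ℝ} {x r : ℝ} (hr : 0 < r) (h0 : ∀ y, |y - x| < r → F y = 0) :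
    hilb (fun y => (F y : ℂ)) x = ((offH F x : ℝ) : ℂ) := by
  rw [hilb_off hr (fun y hy => by rw [h0 y hy]; simp)]
  unfold offH
  push_cast
  congr 1
  · rw [one_div]
  · rw [← integral_complex_ofReal]
    congr 1
    funext y
    push_cast
    rfl

lemma test_ineq {p : ℝ} {U : ℝ → ℝ≥0} {C : ℝ≥0}
    (hA : ∀ f : ℝ → ℂ, Integrable f → ∫ x, f x = 0 →
      ∫⁻ x, ‖hilb f x‖ₑ ^ p * U x ≤ C * ∫⁻ x, ‖f x‖ₑ ^ p * U x)
    {F : ℝ → ℝ} (hF : Integrable F) (h0 : ∫ x, F x = 0) {S : Set ℝ} (hS : MeasurableSet S)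
    (hoff : ∀ x ∈ S, ∃ r : ℝ, 0 < r ∧ ∀ y, |y - x| < r → F y = 0) :
    ∫⁻ x in S, ‖offH F x‖ₑ ^ p * U x ≤ C * ∫⁻ x, ‖F x‖ₑ ^ p * U x := by
  have h := hA (fun y => (F y : ℂ)) hF.ofReal (by
    rw [integral_complex_ofReal, h0]; simp)
  have e1 : ∫⁻ x, ‖((F x : ℝ) : ℂ)‖ₑ ^ p * U x = ∫⁻ x, ‖F x‖ₑ ^ p * U x := by
    apply lintegral_congr
    intro x
    congr 2
    rw [← ofReal_norm, ← ofReal_norm, Complex.norm_real]
  rw [e1] at h
  refine le_trans ?_ h
  refine le_trans ?_ (setLIntegral_le_lintegral S _)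
  apply setLIntegral_mono' hS
  intro x hx
  obtain ⟨r, hr, hr0⟩ := hoff x hx
  rw [hilb_off_real hr hr0]
  apply le_of_eq
  congr 2
  rw [← ofReal_norm, ← ofReal_norm, Complex.norm_real]

/-- **Concentration.** If `∫_S U^{-1/(p-1)} = ∞` then mass one can be put on `S` at no cost. -/
lemma conc {p : ℝ} (hp : 1 < p) {U : ℝ → ℝ≥0} (hU : Measurable U) {S : Set ℝ}
    (hS : MeasurableSet S) (hinf : ∫⁻ x in S, sig p U x = ∞) {η : ℝ≥0∞} (hη : 0 < η) :
    ∃ (g : ℝ → ℝ≥0) (B : ℝ≥0), Measurable g ∧ (∀ x, g x ≤ B) ∧ (∀ x, x ∉ S → g x = 0) ∧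
      (∀ x, (B : ℝ) < |x| → g x = 0) ∧ ∫⁻ x, (g x : ℝ≥0∞) = 1 ∧
      ∫⁻ x, (g x : ℝ≥0∞) ^ p * U x ≤ η := by
  classical
  have hp0 : 0 < p := by linarith
  set T : ℕ → Set ℝ := fun n => S ∩ Icc (-(n:ℝ)) n with hT
  have hTm : ∀ n, MeasurableSet (T n) := fun n => hS.inter measurableSet_Icc
  set G : ℕ → ℝ → ℝ≥0∞ := fun n => (T n).indicator (fun x => min (sig p U x) n) with hG
  have hGm : ∀ n, Measurable (G n) := fun n =>
    ((sig_meas hU).min measurable_const).indicator (hTm n)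
  have hGle : ∀ n x, G n x ≤ n := by
    intro n x
    rw [hG]
    by_cases hx : x ∈ T n
    · simp only [Set.indicator_of_mem hx]; exact min_le_right _ _
    · simp only [Set.indicator_of_notMem hx]; exact bot_le
  have hGt : ∀ n x, G n x ≠ ∞ := fun n x => ((hGle n x).trans_lt (ENNReal.natCast_lt_top n)).ne
  have hGs : ∀ n x, G n x ≤ sig p U x := by
    intro n x
    rw [hG]
    by_cases hx : x ∈ T n
    · simp only [Set.indicator_of_mem hx]; exact min_le_left _ _
    · simp only [Set.indicator_of_notMem hx]; exact bot_le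
  have hmono : ∀ x, Monotone fun n => G n x := by
    intro x m n hmn
    simp only [hG]
    have hmn' : (m : ℝ) ≤ n := by exact_mod_cast hmn
    have hsub : T m ⊆ T n := by
      intro y hy
      exact ⟨hy.1, by linarith [hy.2.1], by linarith [hy.2.2]⟩
    by_cases hx : x ∈ T m
    · rw [Set.indicator_of_mem hx, Set.indicator_of_mem (hsub hx)]
      apply min_le_min_left
      exact_mod_cast hmn
    · rw [Set.indicator_of_notMem hx]; exact bot_le
  have hlim : Tendsto (fun n => ∫⁻ x, G n x) atTop (𝓝 (∫⁻ x in S, sig p U x)) := by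
    rw [← lintegral_indicator hS]
    apply lintegral_tendsto_of_tendsto_of_monotone (fun n => (hGm n).aemeasurable)
      (Eventually.of_forall hmono)
    refine Eventually.of_forall fun x => ?_
    by_cases hx : x ∈ S
    · rw [Set.indicator_of_mem hx]
      obtain ⟨N, hN⟩ := exists_nat_ge |x|
      have hmem : ∀ n, N ≤ n → x ∈ T n := by
        intro n hn
        have hn' : (N : ℝ) ≤ n := by exact_mod_cast hn
        exact ⟨hx, abs_le.1 (hN.trans hn')⟩
      have h1 : Tendsto (fun n : ℕ => min (sig p U x) (n : ℝ≥0∞)) atTop (𝓝 (min (sig p U x) ∞)) :=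
        (continuous_const.min continuous_id).continuousAt.tendsto.comp ENNReal.tendsto_nat_nhds_top
      rw [min_eq_left le_top] at h1
      refine h1.congr' ?_
      filter_upwards [eventually_ge_atTop N] with n hn
      simp only [hG]
      rw [Set.indicator_of_mem (hmem n hn)]
    · rw [Set.indicator_of_notMem hx]
      have : ∀ n, G n x = 0 := fun n => Set.indicator_of_notMem (fun h => hx h.1) _
      simp_rw [this]
      exact tendsto_const_nhds
  rw [hinf] at hlim
  -- choose n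
  have hη' : 0 < min η 1 := lt_min hη one_pos
  obtain ⟨M, hM1, hM2⟩ : ∃ M : ℝ≥0, 1 ≤ M ∧ ((M : ℝ≥0∞) ^ (p - 1))⁻¹ ≤ min η 1 := by
    have h1 : Tendsto (fun n : ℕ => (((n : ℝ≥0) : ℝ≥0∞) ^ (p - 1))⁻¹) atTop (𝓝 0) := by
      have h2 : Tendsto (fun n : ℕ => ((n : ℝ≥0) : ℝ≥0∞) ^ (p - 1)) atTop (𝓝 ∞) := by
        have h3 := (ENNReal.continuous_rpow_const (y := p - 1)).tendsto ∞
        rw [ENNReal.top_rpow_of_pos (by linarith)] at h3
        refine h3.comp ?_
        simpa using ENNReal.tendsto_nat_nhds_top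
      have := tendsto_inv_iff.2 h2
      simpa using this
    have h4 := (h1.eventually (gt_mem_nhds hη')).and (eventually_ge_atTop 1)
    obtain ⟨n, hn1, hn2⟩ := h4.exists
    exact ⟨n, by exact_mod_cast hn2, hn1.le⟩
  obtain ⟨n, hn⟩ := (hlim.eventually (lt_mem_nhds (ENNReal.coe_lt_top (r := M)))).exists
  set t := ∫⁻ x, G n x with ht
  have htt : t ≠ ∞ := by
    have h2 : t ≤ ∫⁻ x in Icc (-(n:ℝ)) n, (n : ℝ≥0∞) := by
      rw [ht, ← lintegral_indicator measurableSet_Icc]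
      apply lintegral_mono
      intro x
      by_cases hx : x ∈ Icc (-(n:ℝ)) n
      · rw [Set.indicator_of_mem hx]; exact hGle n x
      · rw [Set.indicator_of_notMem hx]
        have : G n x = 0 := Set.indicator_of_notMem (fun h => hx h.2) _
        rw [this]
    refine (h2.trans_lt ?_).ne
    rw [setLIntegral_const, Real.volume_Icc]
    exact ENNReal.mul_lt_top (ENNReal.natCast_lt_top n) ENNReal.ofReal_lt_top
  have hM1' : (1 : ℝ≥0∞) ≤ M := by exact_mod_cast hM1
  have ht1 : 1 ≤ t := hM1'.trans hn.le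
  have ht0 : t ≠ 0 := (lt_of_lt_of_le one_pos ht1).ne'
  have hgt : ∀ x, t⁻¹ * G n x ≠ ∞ := fun x => ENNReal.mul_ne_top (ENNReal.inv_ne_top.2 ht0) (hGt n x)
  refine ⟨fun x => (t⁻¹ * G n x).toNNReal, n, ((hGm n).const_mul _).ennreal_toNNReal, ?_, ?_, ?_, ?_, ?_⟩
  · intro x
    rw [← ENNReal.coe_le_coe, ENNReal.coe_toNNReal (hgt x)]
    calc t⁻¹ * G n x ≤ 1 * n := by
          gcongr
          · exact ENNReal.inv_le_one.2 ht1
          · exact hGle n x
      _ = _ := by rw [one_mul]; rfl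
  · intro x hx
    have : G n x = 0 := Set.indicator_of_notMem (fun h => hx h.1) _
    simp [this]
  · intro x hx
    have : G n x = 0 := by
      apply Set.indicator_of_notMem
      intro h
      have := abs_le.2 h.2
      have h5 : (n : ℝ) < |x| := by simpa using hx
      linarith
    simp [this]
  · simp only [ENNReal.coe_toNNReal (hgt _)]
    rw [lintegral_const_mul _ (hGm n), ← ht, ENNReal.inv_mul_cancel ht0 htt]
  · simp only [ENNReal.coe_toNNReal (hgt _)]
    have h5 : ∀ x, (t⁻¹ * G n x) ^ p * U x ≤ (t⁻¹) ^ p * G n x := by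
      intro x
      rw [ENNReal.mul_rpow_of_nonneg _ _ hp0.le, mul_assoc]
      gcongr
      exact le_sig_mul hp U x (hGs n x) (hGt n x)
    calc ∫⁻ x, (t⁻¹ * G n x) ^ p * U x ≤ ∫⁻ x, (t⁻¹) ^ p * G n x := lintegral_mono h5
      _ = (t⁻¹) ^ p * t := by rw [lintegral_const_mul _ (hGm n)]
      _ = (t ^ (p - 1))⁻¹ := by
          rw [ENNReal.inv_rpow, ← ENNReal.rpow_neg, ← ENNReal.rpow_neg]
          conv_lhs => rw [← ENNReal.rpow_one t]
          rw [← ENNReal.rpow_mul, one_mul, ← ENNReal.rpow_add _ _ ht0 htt]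
          congr 1; ring
      _ ≤ ((M : ℝ≥0∞) ^ (p - 1))⁻¹ := by
          apply ENNReal.inv_le_inv.2
          exact ENNReal.rpow_le_rpow hn.le (by linarith)
      _ ≤ η := hM2.trans (min_le_left _ _)

end Run7.h664
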