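import Pool.Agent.Run7.h664.N3

set_option autoImplicit false

open MeasureTheory Filter Topology Set
open scoped ENNReal NNReal Real

namespace Run7.h664

lemma int_div {F : ℝ → ℝ} (hF : Integrable F) {x r : ℝ} (hr : 0 < r)
    (h0 : ∀ y, |y - x| < r → F y = 0) : Integrable (fun y => F y / (x - y)) := by
  refine (hF.norm.const_mul r⁻¹).mono' ?_ ?_
  · exact (hF.1.aemeasurable.div (by fun_prop)).aestronglyMeasurable
  · refine Eventually.of_forall fun y => ?_
    by_cases hy : |y - x| < r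
    · rw [h0 y hy]; simp
    · rw [not_lt] at hy
      rw [norm_div, div_eq_mul_inv, mul_comm]
      have h1 : r ≤ ‖x - y‖ := by rw [Real.norm_eq_abs, abs_sub_comm]; exact hy
      gcongr

/-- bound for the Cauchy integral at distance `≥ r` -/
lemma cau_le {F : ℝ → ℝ} (hF : Integrable F) {x r : ℝ} (hr : 0 < r)
    (h0 : ∀ y, |y - x| < r → F y = 0) : |∫ y, F y / (x - y)| ≤ r⁻¹ * ∫ y, |F y| := by
  rw [← integral_const_mul, ← Real.norm_eq_abs]
  apply norm_integral_le_of_norm_le (hF.abs.const_mul _)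
  refine Eventually.of_forall fun y => ?_
  by_cases hy : |y - x| < r
  · rw [h0 y hy]; simp
  · rw [not_lt] at hy
    rw [norm_div, div_eq_mul_inv, mul_comm, ← Real.norm_eq_abs (F y)]
    have h1 : r ≤ ‖x - y‖ := by rw [Real.norm_eq_abs, abs_sub_comm]; exact hy
    gcongr

/-- the pair of adjacent intervals of the same length -/
def Adj (c l : ℝ) (J : Set ℝ) : Prop := J = Ioo (c + l) (c + 2 * l) ∨ J = Ioo (c - l) c

lemma Adj.meas {c l : ℝ} {J : Set ℝ} (h : Adj c l J) : MeasurableSet J := by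
  rcases h with h | h <;> rw [h] <;> exact measurableSet_Ioo

lemma Adj.off {c l x : ℝ} {J : Set ℝ} (h : Adj c l J) (hx : x ∈ J) :
    ∃ r : ℝ, 0 < r ∧ ∀ y, |y - x| < r → y ∉ Icc c (c + l) := by
  rcases h with h | h
  · rw [h] at hx
    refine ⟨x - (c + l), by linarith [hx.1], fun y hy hyI => ?_⟩
    rw [abs_lt] at hy
    linarith [hyI.2]
  · rw [h] at hx
    refine ⟨c - x, by linarith [hx.2], fun y hy hyI => ?_⟩
    rw [abs_lt] at hy
    linarith [hyI.1]

lemma Adj.bound {c l x : ℝ} (hl : 0 < l) {J : Set ℝ} (h : Adj c l J) (hx : x ∈ J) :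
    |x| ≤ |c| + 2 * l := by
  rcases h with h | h
  · rw [h] at hx
    rw [abs_le]
    constructor
    · linarith [hx.1, neg_abs_le c]
    · linarith [hx.2, le_abs_self c]
  · rw [h] at hx
    rw [abs_le]
    constructor
    · linarith [hx.1, neg_abs_le c]
    · linarith [hx.2, le_abs_self c]

lemma Adj.lower {c l x : ℝ} {J : Set ℝ} (h : Adj c l J) (hx : x ∈ J) {g : ℝ → ℝ}
    (hg : Integrable g) (hg0 : ∀ y, 0 ≤ g y) (hgI : ∀ y, y ∉ Icc c (c + l) → g y = 0) :
    (∫ y, g y) / (2 * l) ≤ |∫ y, g y / (x - y)| := by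
  obtain ⟨r, hr, hoff⟩ := h.off hx
  have hint := int_div hg hr (fun y hy => hgI y (hoff y hy))
  rw [← integral_div]
  rcases h with h | h
  · rw [h] at hx
    refine le_trans ?_ (le_abs_self _)
    apply integral_mono (hg.div_const _) hint
    intro y
    by_cases hy : y ∈ Icc c (c + l)
    · have h1 : 0 < x - y := by linarith [hx.1, hy.2]
      have h2 : x - y ≤ 2 * l := by linarith [hx.2, hy.1]
      exact div_le_div_of_nonneg_left (hg0 y) h1 h2
    · simp [hgI y hy]
  · rw [h] at hx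
    refine le_trans ?_ (neg_le_abs _)
    rw [← integral_neg]
    apply integral_mono (hg.div_const _) hint.neg
    intro y
    by_cases hy : y ∈ Icc c (c + l)
    · have h1 : 0 < y - x := by linarith [hx.2, hy.1]
      have h2 : y - x ≤ 2 * l := by linarith [hx.1, hy.2]
      have h3 : -(g y / (x - y)) = g y / (y - x) := by
        rw [← neg_sub y x, div_neg, neg_neg]
      show g y / (2 * l) ≤ -(g y / (x - y))
      rw [h3]
      exact div_le_div_of_nonneg_left (hg0 y) h1 h2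
    · simp [hgI y hy]

lemma fin_aux {p : ℝ} (hp0 : 0 < p) {A D X : ℝ≥0∞} {m l : ℝ} (hm : 0 ≤ m) (hl : 0 < l)
    (h : A * ENNReal.ofReal (π⁻¹ * (m / (4 * l))) ^ p ≤ D * X) :
    A * ENNReal.ofReal m ^ p ≤ D * ENNReal.ofReal (4 * π) ^ p * ENNReal.ofReal l ^ p * X := by
  have hpi := Real.pi_pos
  have e : ENNReal.ofReal m = ENNReal.ofReal (π⁻¹ * (m / (4 * l))) *
      (ENNReal.ofReal (4 * π) * ENNReal.ofReal l) := by
    rw [← ENNReal.ofReal_mul (by positivity), ← ENNReal.ofReal_mul (by positivity)]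
    congr 1
    field_simp
  rw [e, ENNReal.mul_rpow_of_nonneg _ _ hp0.le, ENNReal.mul_rpow_of_nonneg _ _ hp0.le]
  calc A * (ENNReal.ofReal (π⁻¹ * (m / (4 * l))) ^ p *
        (ENNReal.ofReal (4 * π) ^ p * ENNReal.ofReal l ^ p))
      = (A * ENNReal.ofReal (π⁻¹ * (m / (4 * l))) ^ p) *
        (ENNReal.ofReal (4 * π) ^ p * ENNReal.ofReal l ^ p) := by ring
    _ ≤ (D * X) * (ENNReal.ofReal (4 * π) ^ p * ENNReal.ofReal l ^ p) := by gcongr
    _ = _ := by ring

lemma nn_int {g : ℝ → ℝ≥0} (hg : Measurable g) (hfin : ∫⁻ x, (g x : ℝ≥0∞) ≠ ∞) :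
    Integrable (fun x => (g x : ℝ)) := by
  refine ⟨hg.coe_nnreal_real.aestronglyMeasurable, ?_⟩
  rw [hasFiniteIntegral_iff_enorm]
  refine lt_of_le_of_lt (le_of_eq ?_) hfin.lt_top
  apply lintegral_congr
  intro x
  rw [Real.enorm_eq_ofReal (g x).coe_nonneg, ENNReal.ofReal_coe_nnreal]

lemma nn_integral {g : ℝ → ℝ≥0} (hg : Measurable g) (hfin : ∫⁻ x, (g x : ℝ≥0∞) ≠ ∞) :
    ENNReal.ofReal (∫ x, (g x : ℝ)) = ∫⁻ x, (g x : ℝ≥0∞) := by
  rw [ofReal_integral_eq_lintegral_ofReal (nn_int hg hfin)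
    (Eventually.of_forall fun x => (g x).coe_nonneg)]
  simp_rw [ENNReal.ofReal_coe_nnreal]

lemma bdd_fin {g : ℝ → ℝ≥0} {B : ℝ≥0} (hB : ∀ x, g x ≤ B) {c d : ℝ}
    (h0 : ∀ x, x ∉ Icc c d → g x = 0) : ∫⁻ x, (g x : ℝ≥0∞) ≠ ∞ := by
  have h2 : ∫⁻ x, (g x : ℝ≥0∞) ≤ ∫⁻ x in Icc c d, (B : ℝ≥0∞) := by
    rw [← lintegral_indicator measurableSet_Icc]
    apply lintegral_mono
    intro x
    show (g x : ℝ≥0∞) ≤ _
    by_cases hx : x ∈ Icc c d
    · rw [Set.indicator_of_mem hx]; exact_mod_cast hB x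
    · rw [Set.indicator_of_notMem hx, h0 x hx]; simp
  refine (h2.trans_lt ?_).ne
  rw [setLIntegral_const, Real.volume_Icc]
  exact ENNReal.mul_lt_top ENNReal.coe_lt_top ENNReal.ofReal_lt_top

lemma enorm_coe (a : ℝ≥0) : ‖(a : ℝ)‖ₑ = a := by
  rw [Real.enorm_eq_ofReal a.coe_nonneg, ENNReal.ofReal_coe_nnreal]

/-- The weight is in `A_p` if the dual weight is not integrable at infinity. -/
theorem case_inf {p : ℝ} (hp : 1 < p) {U : ℝ → ℝ≥0} (hU : Measurable U) {C : ℝ≥0}
    (hA : ∀ f : ℝ → ℂ, Integrable f → ∫ x, f x = 0 →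
      ∫⁻ x, ‖hilb f x‖ₑ ^ p * U x ≤ C * ∫⁻ x, ‖f x‖ₑ ^ p * U x)
    (hinf : ∀ R : ℝ, ∫⁻ x in {x : ℝ | R < |x|}, sig p U x = ∞) (a : ℝ) :
    Test p U a (C * 2 ^ (p - 1) * (4 * π).toNNReal ^ p) := by
  have hp0 : 0 < p := by linarith
  have hpi := Real.pi_pos
  have main : ∀ (c l : ℝ), 0 < l → ∀ g : ℝ → ℝ≥0, Measurable g → (∃ B : ℝ≥0, ∀ x, g x ≤ B) →
      (∀ x, x ∉ Icc c (c + l) → g x = 0) → ∀ J, Adj c l J →
      (∫⁻ x in J, (U x : ℝ≥0∞)) * (∫⁻ x, (g x : ℝ≥0∞)) ^ p ≤
        (C * 2 ^ (p - 1)) * ENNReal.ofReal (4 * π) ^ p * ENNReal.ofReal l ^ p *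
          ∫⁻ x, (g x : ℝ≥0∞) ^ p * U x := by
    intro c l hl g hg hB hgI J hJ
    obtain ⟨B, hB⟩ := hB
    have hfin := bdd_fin hB hgI
    have hgi := nn_int hg hfin
    set m : ℝ := ∫ x, (g x : ℝ) with hm
    have hm0 : 0 ≤ m := integral_nonneg fun x => (g x).coe_nonneg
    have hmE : ENNReal.ofReal m = ∫⁻ x, (g x : ℝ≥0∞) := nn_integral hg hfin
    rw [← hmE]
    apply fin_aux hp0 hm0 hl
    set X := ∫⁻ x, (g x : ℝ≥0∞) ^ p * U x with hX
    -- it suffices to have it with an error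
    have key : ∀ η : ℝ≥0∞, 0 < η → (∫⁻ x in J, (U x : ℝ≥0∞)) *
        ENNReal.ofReal (π⁻¹ * (m / (4 * l))) ^ p ≤
        C * 2 ^ (p - 1) * (X + ENNReal.ofReal m ^ p * η) := by
      intro η hη
      set R : ℝ := |c| + 6 * l with hR
      have hSm : MeasurableSet {x : ℝ | R < |x|} := measurableSet_lt measurable_const (by fun_prop)
      obtain ⟨h, B', hh, hhB, hhS, hhb, hh1, hhη⟩ := conc hp hU hSm (hinf R) hη
      have hhi := nn_int hh (by rw [hh1]; exact ENNReal.one_ne_top)
      have hhI : ∫ x, (h x : ℝ) = 1 := by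
        have := nn_integral hh (by rw [hh1]; exact ENNReal.one_ne_top)
        rw [hh1, ENNReal.ofReal_eq_one] at this
        exact this
      set F : ℝ → ℝ := fun y => (g y : ℝ) - m * h y with hF
      have hFi : Integrable F := hgi.sub (hhi.const_mul m)
      have hF0 : ∫ x, F x = 0 := by
        rw [hF, integral_sub hgi (hhi.const_mul m), integral_const_mul, hhI, ← hm]; ring
      have hfar : ∀ x ∈ J, ∀ y, |y - x| < 4 * l → h y = 0 := by
        intro x hx y hy
        apply hhS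
        intro hyS
        have h1 : R < |y| := hyS
        have h2 := hJ.bound hl hx
        have h3 : |y| ≤ |y - x| + |x| := by
          calc |y| = |(y - x) + x| := by ring_nf
            _ ≤ _ := abs_add_le _ _
        linarith
      have hoff : ∀ x ∈ J, ∃ r : ℝ, 0 < r ∧ ∀ y, |y - x| < r → F y = 0 := by
        intro x hx
        obtain ⟨r, hr, hro⟩ := hJ.off hx
        refine ⟨min r (4 * l), by positivity, fun y hy => ?_⟩
        rw [hF]
        simp only
        rw [hgI y (hro y (hy.trans_le (min_le_left _ _))),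
          hfar x hx y (hy.trans_le (min_le_right _ _))]
        simp
      have ht := test_ineq hA hFi hF0 hJ.meas hoff
      -- lower bound
      have hlow : ∀ x ∈ J, π⁻¹ * (m / (4 * l)) ≤ |offH F x| := by
        intro x hx
        obtain ⟨r, hr, hro⟩ := hJ.off hx
        have i1 := int_div hgi hr (fun y hy => by rw [hgI y (hro y hy)]; simp)
        have i2 := int_div hhi (r := 4 * l) (by positivity)
          (fun y hy => by rw [hfar x hx y hy]; simp)
        have e1 : ∫ y, F y / (x - y) = (∫ y, (g y : ℝ) / (x - y)) - m * ∫ y, (h y : ℝ) / (x - y) := by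
          rw [← integral_const_mul, ← integral_sub i1 (i2.const_mul m)]
          congr 1
          funext y
          rw [hF]
          simp only
          ring
        have h1 := hJ.lower hx hgi (fun y => (g y).coe_nonneg)
          (fun y hy => by rw [hgI y hy]; simp)
        have h2 := cau_le hhi (x := x) (r := 4 * l) (by positivity)
          (fun y hy => by rw [hfar x hx y hy]; simp)
        have e2 : ∫ y, |(h y : ℝ)| = 1 := by
          rw [← hhI]; congr 1; funext y; exact abs_of_nonneg (h y).coe_nonneg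
        rw [e2, mul_one] at h2
        unfold offH
        rw [abs_mul, abs_of_pos (inv_pos.2 hpi), e1]
        apply mul_le_mul_of_nonneg_left _ (inv_pos.2 hpi).le
        have h3 : |m * ∫ y, (h y : ℝ) / (x - y)| ≤ m * (4 * l)⁻¹ := by
          rw [abs_mul, abs_of_nonneg hm0]
          exact mul_le_mul_of_nonneg_left h2 hm0
        have h4 := abs_sub_abs_le_abs_sub (∫ y, (g y : ℝ) / (x - y)) (m * ∫ y, (h y : ℝ) / (x - y))
        have h5 : m / (4 * l) = m / (2 * l) - m * (4 * l)⁻¹ := by field_simp; ring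
        rw [h5, hm]
        rw [hm] at h3 h4
        linarith
      have hleft : (∫⁻ x in J, (U x : ℝ≥0∞)) * ENNReal.ofReal (π⁻¹ * (m / (4 * l))) ^ p ≤
          ∫⁻ x in J, ‖offH F x‖ₑ ^ p * U x := by
        rw [mul_comm, ← lintegral_const_mul _ hU.coe_nnreal_ennreal]
        apply setLIntegral_mono' hJ.meas
        intro x hx
        gcongr
        rw [Real.enorm_eq_ofReal_abs]
        exact ENNReal.ofReal_le_ofReal (hlow x hx)
      refine hleft.trans (ht.trans ?_)
      rw [mul_assoc]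
      gcongr
      calc ∫⁻ x, ‖F x‖ₑ ^ p * U x ≤ ∫⁻ x, 2 ^ (p - 1) * ((g x : ℝ≥0∞) ^ p * U x +
            ENNReal.ofReal m ^ p * ((h x : ℝ≥0∞) ^ p * U x)) := by
            apply lintegral_mono
            intro x
            have h1 : ‖F x‖ₑ ≤ (g x : ℝ≥0∞) + ENNReal.ofReal m * h x := by
              rw [hF]
              simp only
              refine enorm_sub_le.trans ?_
              rw [enorm_coe, enorm_mul, enorm_coe, Real.enorm_eq_ofReal hm0]
            calc ‖F x‖ₑ ^ p * U x ≤ ((g x : ℝ≥0∞) + ENNReal.ofReal m * h x) ^ p * U x := by gcongr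
              _ ≤ (2 ^ (p - 1) * ((g x : ℝ≥0∞) ^ p + (ENNReal.ofReal m * h x) ^ p)) * U x := by
                  gcongr
                  exact ENNReal.rpow_add_le_mul_rpow_add_rpow _ _ hp.le
              _ = _ := by
                  rw [ENNReal.mul_rpow_of_nonneg _ _ hp0.le]
                  ring
        _ = 2 ^ (p - 1) * (X + ENNReal.ofReal m ^ p * ∫⁻ x, (h x : ℝ≥0∞) ^ p * U x) := by
            have hgm : Measurable fun x => (g x : ℝ≥0∞) ^ p * U x :=
              (hg.coe_nnreal_ennreal.pow_const _).mul hU.coe_nnreal_ennreal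
            have hhm : Measurable fun x => (h x : ℝ≥0∞) ^ p * U x :=
              (hh.coe_nnreal_ennreal.pow_const _).mul hU.coe_nnreal_ennreal
            have hs : Measurable fun x => (g x : ℝ≥0∞) ^ p * U x +
                ENNReal.ofReal m ^ p * ((h x : ℝ≥0∞) ^ p * U x) := hgm.add (hhm.const_mul _)
            rw [lintegral_const_mul _ hs, lintegral_add_left hgm, lintegral_const_mul _ hhm]
        _ ≤ _ := by gcongr
    -- let η → 0
    have hlim : Tendsto (fun n : ℕ => C * 2 ^ (p - 1) * (X + ENNReal.ofReal m ^ p *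
        ((n : ℝ≥0∞) + 1)⁻¹)) atTop (𝓝 (C * 2 ^ (p - 1) * (X + ENNReal.ofReal m ^ p * 0))) := by
      apply ENNReal.Tendsto.const_mul _ (Or.inr ?_)
      · apply Tendsto.const_add
        apply ENNReal.Tendsto.const_mul _ (Or.inr (ENNReal.rpow_ne_top_of_nonneg hp0.le
          ENNReal.ofReal_ne_top))
        have h1 : Tendsto (fun n : ℕ => ((n + 1 : ℕ) : ℝ≥0∞)⁻¹) atTop (𝓝 0) :=
          ENNReal.tendsto_inv_nat_nhds_zero.comp (tendsto_add_atTop_nat 1)
        simpa using h1
      · exact ENNReal.mul_ne_top ENNReal.coe_ne_top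
          (ENNReal.rpow_ne_top_of_nonneg (by linarith) (by norm_num))
    rw [mul_zero, add_zero] at hlim
    exact ge_of_tendsto hlim (Eventually.of_forall fun n => key _ (by
      rw [ENNReal.inv_pos]
      exact (ENNReal.add_lt_top.2 ⟨ENNReal.natCast_lt_top n, ENNReal.one_lt_top⟩).ne))
  intro c l hl g hg hB hgI _
  have e : ((C * 2 ^ (p - 1) * (4 * π).toNNReal ^ p : ℝ≥0) : ℝ≥0∞) =
      (C * 2 ^ (p - 1)) * ENNReal.ofReal (4 * π) ^ p := by
    rw [ENNReal.coe_mul, ENNReal.coe_mul, ENNReal.coe_rpow_of_nonneg _ (by linarith),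
      ENNReal.coe_rpow_of_nonneg _ hp0.le]
    rfl
  rw [e]
  exact ⟨main c l hl g hg hB hgI _ (Or.inl rfl), main c l hl g hg hB hgI _ (Or.inr rfl)⟩

end Run7.h664
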