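import Pool.Agent.Run7.h664.N4

set_option autoImplicit false

open MeasureTheory Filter Topology Set
open scoped ENNReal NNReal Real

namespace Run7.h664

/-- the weight `|x - a|^{-p} U(x)` -/
noncomputable def wdiv (p a : ℝ) (U : ℝ → ℝ≥0) (x : ℝ) : ℝ≥0 := U x / ‖x - a‖₊ ^ p

lemma wdiv_meas {p a : ℝ} {U : ℝ → ℝ≥0} (hU : Measurable U) : Measurable (wdiv p a U) := by
  unfold wdiv
  apply hU.div
  exact (Measurable.nnnorm (measurable_id.sub_const a)).pow_const p

lemma wdiv_mul {p a : ℝ} (U : ℝ → ℝ≥0) {x : ℝ} (hp : 0 < p) (hx : x ≠ a) :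
    ‖x - a‖ₑ ^ p * (wdiv p a U x : ℝ≥0∞) = U x := by
  have h0 : ‖x - a‖₊ ≠ 0 := by
    rw [Ne, nnnorm_eq_zero]; exact sub_ne_zero.2 hx
  have h1 : ‖x - a‖₊ ^ p ≠ 0 := by
    rw [Ne, NNReal.rpow_eq_zero_iff]; tauto
  unfold wdiv
  rw [enorm_eq_nnnorm, ← ENNReal.coe_rpow_of_nonneg _ hp.le, ← ENNReal.coe_mul, mul_div_cancel₀ _ h1]

/-- The weight `|x-a|^{-p} U` satisfies the test condition if the dual weight is not integrable
near `a`. -/
theorem case_pt {p : ℝ} (hp : 1 < p) {U : ℝ → ℝ≥0} (hU : Measurable U) {C : ℝ≥0}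
    (hA : ∀ f : ℝ → ℂ, Integrable f → ∫ x, f x = 0 →
      ∫⁻ x, ‖hilb f x‖ₑ ^ p * U x ≤ C * ∫⁻ x, ‖f x‖ₑ ^ p * U x) {a : ℝ}
    (hinf : ∀ r : ℝ, 0 < r → ∫⁻ x in Metric.ball a r, sig p U x = ∞) :
    Test p (wdiv p a U) a (C * 2 ^ (p - 1) * (4 * π).toNNReal ^ p) := by
  have hp0 : 0 < p := by linarith
  have hpi := Real.pi_pos
  have hWm := wdiv_meas (p := p) (a := a) hU
  have main : ∀ (c l : ℝ), 0 < l → ∀ g : ℝ → ℝ≥0, Measurable g → (∃ B : ℝ≥0, ∀ x, g x ≤ B) →
      (∀ x, x ∉ Icc c (c + l) → g x = 0) → (∃ ε : ℝ, 0 < ε ∧ ∀ x, |x - a| < ε → g x = 0) →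
      ∀ J, Adj c l J →
      (∫⁻ x in J, (wdiv p a U x : ℝ≥0∞)) * (∫⁻ x, (g x : ℝ≥0∞)) ^ p ≤
        (C * 2 ^ (p - 1)) * ENNReal.ofReal (4 * π) ^ p * ENNReal.ofReal l ^ p *
          ∫⁻ x, (g x : ℝ≥0∞) ^ p * wdiv p a U x := by
    intro c l hl g hg hB hgI hga J hJ
    obtain ⟨B, hB⟩ := hB
    obtain ⟨ε, hε, hga⟩ := hga
    have hfin := bdd_fin hB hgI
    have hgi := nn_int hg hfin
    set m : ℝ := ∫ x, (g x : ℝ) with hm
    have hm0 : 0 ≤ m := integral_nonneg fun x => (g x).coe_nonneg
    have hmE : ENNReal.ofReal m = ∫⁻ x, (g x : ℝ≥0∞) := nn_integral hg hfin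
    rw [← hmE]
    apply fin_aux hp0 hm0 hl
    set X := ∫⁻ x, (g x : ℝ≥0∞) ^ p * wdiv p a U x with hX
    rcases hm0.eq_or_lt with hmz | hmpos
    · rw [← hmz]
      simp [hp0]
    -- the function `g / (y - a)`
    set f : ℝ → ℝ := fun y => (g y : ℝ) / (y - a) with hf
    have hfb : ∀ y, |f y| ≤ ε⁻¹ * g y := by
      intro y
      rw [hf]
      simp only
      by_cases hy : |y - a| < ε
      · rw [hga y hy]; simp
      · rw [not_lt] at hy
        rw [abs_div, abs_of_nonneg (g y).coe_nonneg, div_eq_mul_inv, mul_comm]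
        gcongr
    have hfi : Integrable f := by
      refine (hgi.const_mul ε⁻¹).mono' ?_ (Eventually.of_forall fun y => by
        rw [Real.norm_eq_abs]; exact hfb y)
      exact (hg.coe_nnreal_real.div (by fun_prop)).aestronglyMeasurable
    set m' : ℝ := ∫ y, f y with hm'
    -- with an error
    have key : ∀ ρ : ℝ, 0 < ρ → ∀ η : ℝ≥0∞, 0 < η →
        (∫⁻ x in J ∩ {x | ρ < |x - a|}, (wdiv p a U x : ℝ≥0∞)) *
        ENNReal.ofReal (π⁻¹ * (m / (4 * l))) ^ p ≤
        C * 2 ^ (p - 1) * (X + ENNReal.ofReal |m'| ^ p * η) := by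
      intro ρ hρ η hη
      -- the radius
      obtain ⟨r, hr0, hrρ, hrm⟩ : ∃ r : ℝ, 0 < r ∧ 2 * r ≤ ρ ∧
          |m'| * (r * (ρ / 2)⁻¹) ≤ m / (4 * l) := by
        set θ : ℝ := min (ρ / 2) ((m / (4 * l)) * (ρ / 2) / (|m'| + 1)) with hθ
        have h1 : 0 < (m / (4 * l)) * (ρ / 2) / (|m'| + 1) := by positivity
        have h2 : 0 < θ := lt_min (by positivity) h1
        refine ⟨θ, h2, ?_, ?_⟩
        · have := min_le_left (ρ / 2) ((m / (4 * l)) * (ρ / 2) / (|m'| + 1))
          linarith
        · have h3 : θ ≤ (m / (4 * l)) * (ρ / 2) / (|m'| + 1) := min_le_right _ _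
          have h4 : |m'| * (θ * (ρ / 2)⁻¹) ≤
              |m'| * ((m / (4 * l)) * (ρ / 2) / (|m'| + 1) * (ρ / 2)⁻¹) := by gcongr
          refine h4.trans ?_
          have h5 : |m'| * ((m / (4 * l)) * (ρ / 2) / (|m'| + 1) * (ρ / 2)⁻¹) =
              (|m'| / (|m'| + 1)) * (m / (4 * l)) := by
            field_simp
          rw [h5]
          have h6 : |m'| / (|m'| + 1) ≤ 1 := by
            rw [div_le_one (by positivity)]; linarith
          have h7 : 0 ≤ m / (4 * l) := by positivity
          nlinarith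
      have hSm : MeasurableSet (Metric.ball a r) := Metric.isOpen_ball.measurableSet
      obtain ⟨h, B', hh, hhB, hhS, hhb, hh1, hhη⟩ := conc hp hU hSm (hinf r hr0) hη
      have hhi := nn_int hh (by rw [hh1]; exact ENNReal.one_ne_top)
      have hhI : ∫ x, (h x : ℝ) = 1 := by
        have := nn_integral hh (by rw [hh1]; exact ENNReal.one_ne_top)
        rw [hh1, ENNReal.ofReal_eq_one] at this
        exact this
      have hhr : ∀ y, r ≤ |y - a| → h y = 0 := by
        intro y hy
        apply hhS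
        rw [Metric.mem_ball, Real.dist_eq]
        linarith
      set F : ℝ → ℝ := fun y => f y - m' * h y with hF
      have hFi : Integrable F := hfi.sub (hhi.const_mul m')
      have hF0 : ∫ x, F x = 0 := by
        rw [hF, integral_sub hfi (hhi.const_mul m'), integral_const_mul, hhI, ← hm']; ring
      have hfar : ∀ x, ρ < |x - a| → ∀ y, |y - x| < ρ / 2 → h y = 0 := by
        intro x hx y hy
        apply hhr
        have h3 : |x - a| ≤ |y - x| + |y - a| := by
          calc |x - a| = |(y - a) - (y - x)| := by ring_nf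
            _ ≤ |y - a| + |y - x| := abs_sub _ _
            _ = _ := add_comm _ _
        linarith
      have hJρm : MeasurableSet (J ∩ {x | ρ < |x - a|}) :=
        hJ.meas.inter (measurableSet_lt measurable_const (by fun_prop))
      have hoff : ∀ x ∈ J ∩ {x | ρ < |x - a|}, ∃ r : ℝ, 0 < r ∧ ∀ y, |y - x| < r → F y = 0 := by
        intro x hx
        obtain ⟨s, hs, hso⟩ := hJ.off hx.1
        refine ⟨min s (ρ / 2), by positivity, fun y hy => ?_⟩
        rw [hF, hf]
        simp only
        rw [hgI y (hso y (hy.trans_le (min_le_left _ _))),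
          hfar x hx.2 y (hy.trans_le (min_le_right _ _))]
        simp
      have ht := test_ineq hA hFi hF0 hJρm hoff
      -- lower bound
      have hlow : ∀ x ∈ J ∩ {x | ρ < |x - a|}, π⁻¹ * (m / (4 * l)) ≤ |(x - a) * offH F x| := by
        intro x hx
        obtain ⟨s, hs, hso⟩ := hJ.off hx.1
        obtain ⟨s', hs', hso'⟩ := hoff x hx
        have i0 := int_div hFi hs' hso'
        have i1 := int_div hgi hs (fun y hy => by rw [hgI y (hso y hy)]; simp)
        set k : ℝ → ℝ := fun y => (h y : ℝ) * (y - a) with hk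
        have hkb : ∀ y, |k y| ≤ r * h y := by
          intro y
          rw [hk]
          simp only
          rw [abs_mul, abs_of_nonneg (h y).coe_nonneg, mul_comm]
          by_cases hy : r ≤ |y - a|
          · rw [hhr y hy]; simp
          · rw [not_le] at hy
            exact mul_le_mul_of_nonneg_right hy.le (h y).coe_nonneg
        have hki : Integrable k := by
          refine (hhi.const_mul r).mono' ?_ (Eventually.of_forall fun y => by
            rw [Real.norm_eq_abs]; exact hkb y)
          exact (hh.coe_nnreal_real.mul (by fun_prop)).aestronglyMeasurable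
        have hk0 : ∀ y, |y - x| < ρ / 2 → k y = 0 := by
          intro y hy
          rw [hk]
          simp only
          rw [hfar x hx.2 y hy]; simp
        have i2 := int_div hki (r := ρ / 2) (by positivity) hk0
        have e1 : (x - a) * ∫ y, F y / (x - y) =
            (∫ y, (g y : ℝ) / (x - y)) - m' * ∫ y, k y / (x - y) := by
          rw [← integral_const_mul, ← integral_const_mul, ← integral_sub i1 (i2.const_mul m')]
          rw [← sub_zero (∫ y, (x - a) * (F y / (x - y))), ← hF0,
            ← integral_sub (i0.const_mul _) hFi]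
          congr 1
          funext y
          by_cases hxy : x = y
          · have hFy : F y = 0 := hso' y (by rw [hxy]; simpa using hs')
            have hgy : g y = 0 := hgI y (hso y (by rw [hxy]; simpa using hs))
            have hky : k y = 0 := hk0 y (by rw [hxy]; simp; positivity)
            rw [hFy, hgy, hky]; simp
          · have hxy' : x - y ≠ 0 := sub_ne_zero.2 hxy
            have hFy : F y * (y - a) = g y - m' * k y := by
              rw [hF, hf, hk]
              simp only
              by_cases hya : y = a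
              · have : g y = 0 := hga y (by rw [hya]; simpa using hε)
                rw [this, hya]; simp
              · have : y - a ≠ 0 := sub_ne_zero.2 hya
                field_simp
            have : (x - a) * (F y / (x - y)) - F y = (F y * (y - a)) / (x - y) := by
              field_simp; ring
            rw [this, hFy]
            ring
        have h1 := hJ.lower hx.1 hgi (fun y => (g y).coe_nonneg)
          (fun y hy => by rw [hgI y hy]; simp)
        have h2 := cau_le hki (x := x) (r := ρ / 2) (by positivity) hk0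
        have e2 : ∫ y, |k y| ≤ r := by
          calc ∫ y, |k y| ≤ ∫ y, r * (h y : ℝ) :=
                integral_mono hki.abs (hhi.const_mul r) hkb
            _ = r := by rw [integral_const_mul, hhI, mul_one]
        have h2' : |∫ y, k y / (x - y)| ≤ r * (ρ / 2)⁻¹ := by
          refine h2.trans ?_
          rw [mul_comm]
          gcongr
        unfold offH
        rw [mul_left_comm, abs_mul, abs_of_pos (inv_pos.2 hpi), e1]
        apply mul_le_mul_of_nonneg_left _ (inv_pos.2 hpi).le
        have h3 : |m' * ∫ y, k y / (x - y)| ≤ m / (4 * l) := by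
          rw [abs_mul]
          refine le_trans ?_ hrm
          gcongr
        have h4 := abs_sub_abs_le_abs_sub (∫ y, (g y : ℝ) / (x - y)) (m' * ∫ y, k y / (x - y))
        have h5 : m / (4 * l) = m / (2 * l) - m / (4 * l) := by field_simp; ring
        rw [h5]
        rw [hm] at h3 ⊢
        linarith
      have hleft : (∫⁻ x in J ∩ {x | ρ < |x - a|}, (wdiv p a U x : ℝ≥0∞)) *
          ENNReal.ofReal (π⁻¹ * (m / (4 * l))) ^ p ≤
          ∫⁻ x in J ∩ {x | ρ < |x - a|}, ‖offH F x‖ₑ ^ p * U x := by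
        rw [mul_comm, ← lintegral_const_mul _ hWm.coe_nnreal_ennreal]
        apply setLIntegral_mono' hJρm
        intro x hx
        have hxa : x ≠ a := by
          rintro rfl
          have : ρ < |x - x| := hx.2
          simp at this
          linarith
        rw [← wdiv_mul U hp0 hxa, ← mul_assoc, ← ENNReal.mul_rpow_of_nonneg _ _ hp0.le]
        gcongr
        rw [← enorm_mul, Real.enorm_eq_ofReal_abs, mul_comm (offH F x)]
        exact ENNReal.ofReal_le_ofReal (hlow x hx)
      refine hleft.trans (ht.trans ?_)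
      rw [mul_assoc]
      gcongr
      have hfx : ∀ x, ‖f x‖ₑ ^ p * U x = (g x : ℝ≥0∞) ^ p * wdiv p a U x := by
        intro x
        by_cases hxa : x = a
        · have : g x = 0 := hga x (by rw [hxa]; simpa using hε)
          rw [hf]
          simp only
          rw [this]
          simp [hp0]
        · have h1 : ‖f x‖ₑ * ‖x - a‖ₑ = g x := by
            rw [← enorm_mul, hf]
            simp only
            rw [div_mul_cancel₀ _ (sub_ne_zero.2 hxa), enorm_coe]
          rw [← wdiv_mul U hp0 hxa, ← mul_assoc, ← ENNReal.mul_rpow_of_nonneg _ _ hp0.le, h1]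
      calc ∫⁻ x, ‖F x‖ₑ ^ p * U x ≤ ∫⁻ x, 2 ^ (p - 1) * ((g x : ℝ≥0∞) ^ p * wdiv p a U x +
            ENNReal.ofReal |m'| ^ p * ((h x : ℝ≥0∞) ^ p * U x)) := by
            apply lintegral_mono
            intro x
            have h1 : ‖F x‖ₑ ≤ ‖f x‖ₑ + ENNReal.ofReal |m'| * h x := by
              rw [hF]
              simp only
              refine enorm_sub_le.trans ?_
              rw [enorm_mul, enorm_coe, Real.enorm_eq_ofReal_abs m']
            calc ‖F x‖ₑ ^ p * U x ≤ (‖f x‖ₑ + ENNReal.ofReal |m'| * h x) ^ p * U x := by gcongr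
              _ ≤ (2 ^ (p - 1) * (‖f x‖ₑ ^ p + (ENNReal.ofReal |m'| * h x) ^ p)) * U x := by
                  gcongr
                  exact ENNReal.rpow_add_le_mul_rpow_add_rpow _ _ hp.le
              _ = _ := by
                  rw [ENNReal.mul_rpow_of_nonneg _ _ hp0.le]
                  show _ = 2 ^ (p - 1) * ((g x : ℝ≥0∞) ^ p * wdiv p a U x +
                    ENNReal.ofReal |m'| ^ p * ((h x : ℝ≥0∞) ^ p * U x))
                  rw [← hfx]
                  ring
        _ = 2 ^ (p - 1) * (X + ENNReal.ofReal |m'| ^ p * ∫⁻ x, (h x : ℝ≥0∞) ^ p * U x) := by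
            have hgm : Measurable fun x => (g x : ℝ≥0∞) ^ p * wdiv p a U x :=
              (hg.coe_nnreal_ennreal.pow_const _).mul hWm.coe_nnreal_ennreal
            have hhm : Measurable fun x => (h x : ℝ≥0∞) ^ p * U x :=
              (hh.coe_nnreal_ennreal.pow_const _).mul hU.coe_nnreal_ennreal
            have hs : Measurable fun x => (g x : ℝ≥0∞) ^ p * wdiv p a U x +
                ENNReal.ofReal |m'| ^ p * ((h x : ℝ≥0∞) ^ p * U x) := hgm.add (hhm.const_mul _)
            rw [lintegral_const_mul _ hs, lintegral_add_left hgm, lintegral_const_mul _ hhm]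
        _ ≤ _ := by gcongr
    -- let η → 0
    have key2 : ∀ ρ : ℝ, 0 < ρ →
        (∫⁻ x in J ∩ {x | ρ < |x - a|}, (wdiv p a U x : ℝ≥0∞)) *
        ENNReal.ofReal (π⁻¹ * (m / (4 * l))) ^ p ≤ C * 2 ^ (p - 1) * X := by
      intro ρ hρ
      have hlim : Tendsto (fun n : ℕ => C * 2 ^ (p - 1) * (X + ENNReal.ofReal |m'| ^ p *
          ((n : ℝ≥0∞) + 1)⁻¹)) atTop (𝓝 (C * 2 ^ (p - 1) * (X + ENNReal.ofReal |m'| ^ p * 0))) := by
        apply ENNReal.Tendsto.const_mul _ (Or.inr ?_)
        · apply Tendsto.const_add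
          apply ENNReal.Tendsto.const_mul _ (Or.inr (ENNReal.rpow_ne_top_of_nonneg hp0.le
            ENNReal.ofReal_ne_top))
          have h1 : Tendsto (fun n : ℕ => ((n + 1 : ℕ) : ℝ≥0∞)⁻¹) atTop (𝓝 0) :=
            ENNReal.tendsto_inv_nat_nhds_zero.comp (tendsto_add_atTop_nat 1)
          simpa using h1
        · exact ENNReal.mul_ne_top ENNReal.coe_ne_top
            (ENNReal.rpow_ne_top_of_nonneg (by linarith) (by norm_num))
      rw [mul_zero, add_zero] at hlim
      exact ge_of_tendsto hlim (Eventually.of_forall fun n => key ρ hρ _ (by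
        rw [ENNReal.inv_pos]
        exact (ENNReal.add_lt_top.2 ⟨ENNReal.natCast_lt_top n, ENNReal.one_lt_top⟩).ne))
    -- let ρ → 0
    have hU1 : J \ {a} = ⋃ n : ℕ, J ∩ {x | 1 / ((n : ℝ) + 1) < |x - a|} := by
      ext x
      simp only [Set.mem_sdiff, mem_singleton_iff, mem_iUnion, mem_inter_iff, mem_ofPred_eq]
      constructor
      · rintro ⟨h1, h2⟩
        obtain ⟨N, hN⟩ := exists_nat_one_div_lt (abs_pos.2 (sub_ne_zero.2 h2))
        exact ⟨N, h1, hN⟩
      · rintro ⟨n, h1, h2⟩
        refine ⟨h1, ?_⟩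
        rintro rfl
        simp at h2
        have : (0:ℝ) < ((n : ℝ) + 1)⁻¹ := by positivity
        linarith
    have hJa : ∫⁻ x in J, (wdiv p a U x : ℝ≥0∞) = ∫⁻ x in J \ {a}, (wdiv p a U x : ℝ≥0∞) := by
      apply setLIntegral_congr
      exact (sdiff_null_ae_eq_self (by simp)).symm
    rw [hJa, hU1, setLIntegral_iUnion_of_directed]
    · rw [ENNReal.iSup_mul]
      exact iSup_le fun n => key2 _ (by positivity)
    · apply Monotone.directed_le
      intro i j hij x hx
      refine ⟨hx.1, ?_⟩
      show 1 / ((j : ℝ) + 1) < |x - a|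
      refine lt_of_le_of_lt ?_ hx.2
      apply one_div_le_one_div_of_le (by positivity)
      have : (i : ℝ) ≤ j := by exact_mod_cast hij
      linarith
  intro c l hl g hg hB hgI hga
  have e : ((C * 2 ^ (p - 1) * (4 * π).toNNReal ^ p : ℝ≥0) : ℝ≥0∞) =
      (C * 2 ^ (p - 1)) * ENNReal.ofReal (4 * π) ^ p := by
    rw [ENNReal.coe_mul, ENNReal.coe_mul, ENNReal.coe_rpow_of_nonneg _ (by linarith),
      ENNReal.coe_rpow_of_nonneg _ hp0.le]
    rfl
  rw [e]
  exact ⟨main c l hl g hg hB hgI hga _ (Or.inl rfl), main c l hl g hg hB hgI hga _ (Or.inr rfl)⟩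

end Run7.h664
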