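import Pool.Agent.Run7.h664.N5

set_option autoImplicit false

open MeasureTheory Filter Topology Set
open scoped ENNReal NNReal Real

namespace Run7.h664

/-- the weight `(1 + |x|)^{-p} U(x)` -/
noncomputable def wone (p : ℝ) (U : ℝ → ℝ≥0) (x : ℝ) : ℝ≥0 := U x / (1 + ‖x‖₊) ^ p

lemma wone_meas {p : ℝ} {U : ℝ → ℝ≥0} (hU : Measurable U) : Measurable (wone p U) := by
  unfold wone
  apply hU.div
  exact (measurable_const.add measurable_id.nnnorm).pow_const p

/-- `1 / (1 + |x|)` -/
noncomputable def kr (x : ℝ) : ℝ := (1 + |x|)⁻¹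

lemma kr_pos (x : ℝ) : 0 < kr x := by unfold kr; positivity

lemma kr_le_one (x : ℝ) : kr x ≤ 1 := by
  unfold kr
  apply inv_le_one_of_one_le₀
  linarith [abs_nonneg x]

lemma kr_meas : Measurable kr := by unfold kr; fun_prop

lemma wone_eq {p : ℝ} (hp : 0 < p) (U : ℝ → ℝ≥0) (x : ℝ) :
    (wone p U x : ℝ≥0∞) = ENNReal.ofReal (kr x) ^ p * U x := by
  have h1 : (1 + ‖x‖₊) ^ p ≠ 0 := by
    rw [Ne, NNReal.rpow_eq_zero_iff]
    rintro ⟨h, _⟩
    simp at h
  have h2 : ENNReal.ofReal (kr x) = ((1 + ‖x‖₊ : ℝ≥0) : ℝ≥0∞)⁻¹ := by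
    unfold kr
    rw [ENNReal.ofReal_inv_of_pos (by positivity)]
    congr 1
    rw [ENNReal.ofReal_add zero_le_one (abs_nonneg x)]
    push_cast
    congr 1
    · simp
    · rw [← Real.norm_eq_abs, ofReal_norm, enorm_eq_nnnorm]
  unfold wone
  rw [ENNReal.coe_div h1, h2, ENNReal.coe_rpow_of_nonneg _ hp.le, ENNReal.inv_rpow,
    ENNReal.div_eq_inv_mul]

/-- indicator of `[0,1]` or `[2,3]` -/
noncomputable def phi (b : Bool) : ℝ → ℝ := (if b then Icc 0 1 else Icc 2 3).indicator (fun _ => 1)

lemma phi_nonneg (b : Bool) (x : ℝ) : 0 ≤ phi b x := by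
  unfold phi
  exact Set.indicator_nonneg (fun _ _ => zero_le_one) _

lemma phi_supp (b : Bool) {x : ℝ} (hx : x ∉ Icc (0:ℝ) 3) : phi b x = 0 := by
  unfold phi
  apply Set.indicator_of_notMem
  intro h
  apply hx
  cases b
  · simp only [Bool.false_eq_true, if_false] at h
    exact ⟨by linarith [h.1], by linarith [h.2]⟩
  · simp only [if_true] at h
    exact ⟨by linarith [h.1], by linarith [h.2]⟩

lemma phi_int (b : Bool) : Integrable (phi b) := by
  unfold phi
  have h1 : volume (if b then Icc (0:ℝ) 1 else Icc 2 3) ≠ ∞ := by cases b <;> simp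
  have h2 : ‖(1:ℝ)‖ₑ ≠ ∞ := by simp
  rw [integrable_indicator_iff (by cases b <;> simp)]
  exact integrableOn_const h1 h2

lemma phi_integral (b : Bool) : ∫ x, phi b x = 1 := by
  unfold phi
  rw [integral_indicator (by cases b <;> simp)]
  cases b
  · simp only [Bool.false_eq_true, if_false]
    simp
    norm_num
  · simp only [if_true]
    simp

/-- the region where `phi b` is at distance `≥ 1/2` -/
def reg (b : Bool) : Set ℝ := if b then Ioi (3 / 2) else Iio (3 / 2)

lemma reg_meas (b : Bool) : MeasurableSet (reg b) := by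
  unfold reg; cases b <;> simp

lemma phi_far (b : Bool) {x : ℝ} (hx : x ∈ reg b) {y : ℝ} (hy : |y - x| < 1 / 2) : phi b y = 0 := by
  unfold phi reg at *
  apply Set.indicator_of_notMem
  rw [abs_lt] at hy
  cases b
  · simp only [Bool.false_eq_true, if_false] at *
    intro h
    have := h.1
    have h2 : x < 3 / 2 := hx
    linarith [hy.2]
  · simp only [if_true] at *
    intro h
    have := h.2
    have h2 : 3 / 2 < x := hx
    linarith [hy.1]

lemma dist_low {x y : ℝ} (hy : y ∈ Icc (0:ℝ) 3) (hxy : 1 / 2 ≤ |y - x|) :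
    (1 + |x|) / 14 ≤ |x - y| := by
  rw [abs_sub_comm] at hxy
  by_cases h : |x| < 6
  · linarith
  · rw [not_lt] at h
    have h1 : |x| ≤ |x - y| + |y| := by
      calc |x| = |(x - y) + y| := by ring_nf
        _ ≤ _ := abs_add_le _ _
    have h2 : |y| ≤ 3 := by rw [abs_le]; exact ⟨by linarith [hy.1], hy.2⟩
    linarith

lemma phi_cau (b : Bool) {x : ℝ} (hx : x ∈ reg b) :
    |∫ y, phi b y / (x - y)| ≤ 42 * kr x := by
  rw [← Real.norm_eq_abs]
  have h1 : ∀ y, ‖phi b y / (x - y)‖ ≤ 42 * kr x * phi b y := by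
    intro y
    by_cases hy : |y - x| < 1 / 2
    · rw [phi_far b hx hy]; simp
    · rw [not_lt] at hy
      by_cases hy3 : y ∈ Icc (0:ℝ) 3
      · have h2 := dist_low hy3 hy
        rw [norm_div, Real.norm_of_nonneg (phi_nonneg b y), Real.norm_eq_abs, div_eq_mul_inv, mul_comm]
        apply mul_le_mul_of_nonneg_right _ (phi_nonneg b y)
        have h3 : 0 < (1 + |x|) / 14 := by positivity
        have h4 : |x - y|⁻¹ ≤ ((1 + |x|) / 14)⁻¹ := inv_anti₀ h3 h2
        refine h4.trans ?_
        unfold kr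
        rw [inv_div, div_eq_mul_inv]
        have : 0 ≤ (1 + |x|)⁻¹ := by positivity
        nlinarith
      · rw [phi_supp b hy3]; simp
  refine (norm_integral_le_of_norm_le ((phi_int b).const_mul _) (Eventually.of_forall h1)).trans ?_
  rw [integral_const_mul, phi_integral, mul_one]

lemma phi_cau2 (b : Bool) {x : ℝ} (hx : x ∈ reg b) :
    |x * (∫ y, phi b y / (x - y)) - 1| ≤ 42 * kr x := by
  have i1 := int_div (phi_int b) (x := x) (r := 1 / 2) (by norm_num) (fun y hy => phi_far b hx hy)
  have e1 : x * (∫ y, phi b y / (x - y)) - 1 = ∫ y, y * phi b y / (x - y) := by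
    rw [← integral_const_mul, ← phi_integral b, ← integral_sub (i1.const_mul x) (phi_int b)]
    congr 1
    funext y
    by_cases hxy : x = y
    · have : phi b y = 0 := phi_far b hx (by rw [hxy]; simp)
      rw [this]; simp
    · have : x - y ≠ 0 := sub_ne_zero.2 hxy
      field_simp
      ring
  rw [e1, ← Real.norm_eq_abs]
  have h1 : ∀ y, ‖y * phi b y / (x - y)‖ ≤ 42 * kr x * phi b y := by
    intro y
    by_cases hy : |y - x| < 1 / 2
    · rw [phi_far b hx hy]; simp
    · rw [not_lt] at hy
      by_cases hy3 : y ∈ Icc (0:ℝ) 3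
      · have h2 := dist_low hy3 hy
        rw [norm_div, norm_mul, Real.norm_of_nonneg (phi_nonneg b y), Real.norm_eq_abs,
          Real.norm_eq_abs]
        have h3 : 0 < (1 + |x|) / 14 := by positivity
        have h4 : |x - y|⁻¹ ≤ ((1 + |x|) / 14)⁻¹ := inv_anti₀ h3 h2
        have h5 : |y| ≤ 3 := by rw [abs_le]; exact ⟨by linarith [hy3.1], hy3.2⟩
        calc |y| * phi b y / |x - y| = |y| * |x - y|⁻¹ * phi b y := by ring
          _ ≤ 3 * ((1 + |x|) / 14)⁻¹ * phi b y := by
              have := phi_nonneg b y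
              gcongr
          _ = 42 * kr x * phi b y := by unfold kr; rw [inv_div, div_eq_mul_inv]; ring
      · rw [phi_supp b hy3]; simp
  refine (norm_integral_le_of_norm_le ((phi_int b).const_mul _) (Eventually.of_forall h1)).trans ?_
  rw [integral_const_mul, phi_integral, mul_one]

/-- the test function `1_{[0,1]} - 1_{[2,3]}` far away -/
lemma far_alg (t w z : ℝ) (hw : w ≠ 0) (hz : z ≠ 0) :
    -(t / w - t * z⁻¹) = t * (w - z) / (w * z) := by
  field_simp
  ring

lemma far_low {x : ℝ} (hx : x < -1 ∨ 4 < x) :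
    π⁻¹ * (kr x ^ 2 / 9) ≤ |offH (fun y => phi true y - phi false y) x| := by
  have hpi := Real.pi_pos
  set F : ℝ → ℝ := fun y => phi true y - phi false y with hF
  have hFi : Integrable F := (phi_int true).sub (phi_int false)
  have hF0 : ∫ y, F y = 0 := by
    rw [hF, integral_sub (phi_int true) (phi_int false), phi_integral, phi_integral, sub_self]
  have hsupp : ∀ y, |y - x| < 1 / 2 → F y = 0 := by
    intro y hy
    have h3 : y ∉ Icc (0:ℝ) 3 := by
      rintro ⟨h1, h2⟩
      rw [abs_lt] at hy
      rcases hx with hx | hx <;> linarith [hy.1, hy.2]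
    rw [hF]
    simp only
    rw [phi_supp true h3, phi_supp false h3, sub_self]
  have i1 := int_div hFi (by norm_num) hsupp
  have hx32 : x - 3 / 2 ≠ 0 := by rcases hx with hx | hx <;> intro h <;> linarith
  have e1 : -∫ y, F y / (x - y) = ∫ y, F y * (3 / 2 - y) / ((x - y) * (x - 3 / 2)) := by
    have e2 : ∫ y, F y * (x - 3 / 2)⁻¹ = 0 := by rw [integral_mul_const, hF0, zero_mul]
    rw [← sub_zero (∫ y, F y / (x - y)), ← e2, ← integral_sub i1 (hFi.mul_const _), ← integral_neg]
    congr 1
    funext y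
    by_cases hxy : x = y
    · have : F y = 0 := hsupp y (by rw [hxy]; simp)
      rw [this]; simp
    · have h32 : (3 / 2 - y) = (x - y) - (x - 3 / 2) := by ring
      rw [h32]
      exact far_alg _ _ _ (sub_ne_zero.2 hxy) hx32
  have hpt : ∀ y, (kr x ^ 2 / 9) * (1 / 2 * (phi true y + phi false y)) ≤
      F y * (3 / 2 - y) / ((x - y) * (x - 3 / 2)) := by
    intro y
    by_cases hy3 : y ∈ Icc (0:ℝ) 3
    · have hpos : 0 < (x - y) * (x - 3 / 2) := by
        rcases hx with hx | hx
        · exact mul_pos_of_neg_of_neg (by linarith [hy3.1]) (by linarith)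
        · exact mul_pos (by linarith [hy3.2]) (by linarith)
      have hle : (x - y) * (x - 3 / 2) ≤ 9 * (1 + |x|) ^ 2 := by
        have h1 : |x - y| ≤ |x| + 3 := by
          refine (abs_sub _ _).trans ?_
          have : |y| ≤ 3 := by rw [abs_le]; exact ⟨by linarith [hy3.1], hy3.2⟩
          linarith
        have h2 : |x - 3 / 2| ≤ |x| + 3 := by
          refine (abs_sub _ _).trans ?_
          have : |(3 / 2 : ℝ)| ≤ 3 := by rw [abs_of_pos] <;> norm_num
          linarith
        have h3 : (x - y) * (x - 3 / 2) ≤ (|x| + 3) * (|x| + 3) := by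
          rw [← abs_of_pos hpos, abs_mul]
          gcongr
        nlinarith [abs_nonneg x]
      have h4 : (kr x ^ 2 / 9) ≤ ((x - y) * (x - 3 / 2))⁻¹ := by
        have : kr x ^ 2 / 9 = (9 * (1 + |x|) ^ 2)⁻¹ := by
          unfold kr; rw [mul_inv, inv_pow]; ring
        rw [this]
        exact inv_anti₀ hpos hle
      have h5 : 1 / 2 * (phi true y + phi false y) ≤ F y * (3 / 2 - y) := by
        rw [hF]
        unfold phi
        simp only [if_true, Bool.false_eq_true, if_false]
        by_cases h6 : y ∈ Icc (0:ℝ) 1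
        · have h7 : y ∉ Icc (2:ℝ) 3 := fun h => by linarith [h.1, h6.2]
          rw [Set.indicator_of_mem h6, Set.indicator_of_notMem h7]
          linarith [h6.2]
        · rw [Set.indicator_of_notMem h6]
          by_cases h7 : y ∈ Icc (2:ℝ) 3
          · rw [Set.indicator_of_mem h7]
            linarith [h7.1]
          · rw [Set.indicator_of_notMem h7]; simp
      rw [div_eq_mul_inv, mul_comm]
      have h8 : 0 ≤ 1 / 2 * (phi true y + phi false y) := by
        have := phi_nonneg true y
        have := phi_nonneg false y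
        positivity
      have h9 : 0 ≤ kr x ^ 2 / 9 := by positivity
      exact mul_le_mul h5 h4 h9 (h8.trans h5)
    · rw [hF]
      simp only
      rw [phi_supp true hy3, phi_supp false hy3]
      simp
  have i2 : Integrable fun y => F y * (3 / 2 - y) / ((x - y) * (x - 3 / 2)) := by
    have h1 : (fun y => F y * (3 / 2 - y) / ((x - y) * (x - 3 / 2))) =
        fun y => -(F y / (x - y) - F y * (x - 3 / 2)⁻¹) := by
      funext y
      by_cases hxy : x = y
      · have : F y = 0 := hsupp y (by rw [hxy]; simp)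
        rw [this]; simp
      · have h32 : (3 / 2 - y) = (x - y) - (x - 3 / 2) := by ring
        rw [h32]
        exact (far_alg _ _ _ (sub_ne_zero.2 hxy) hx32).symm
    rw [h1]
    exact (i1.sub (hFi.mul_const _)).neg
  have i3 : Integrable fun y => (kr x ^ 2 / 9) * (1 / 2 * (phi true y + phi false y)) :=
    (((phi_int true).add (phi_int false)).const_mul _).const_mul _
  have h2 := integral_mono i3 i2 hpt
  rw [integral_const_mul, integral_const_mul, integral_add (phi_int true) (phi_int false),
    phi_integral, phi_integral, ← e1] at h2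
  unfold offH
  rw [abs_mul, abs_of_pos (inv_pos.2 hpi)]
  apply mul_le_mul_of_nonneg_left _ (inv_pos.2 hpi).le
  refine le_trans ?_ (neg_le_abs _)
  linarith

end Run7.h664
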