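import Pool.Agent.Run7.h664.N6

set_option autoImplicit false

open MeasureTheory Filter Topology Set
open scoped ENNReal NNReal Real

namespace Run7.h664

lemma phi_enorm_rpow {p : ℝ} (hp : 0 < p) (b : Bool) (U : ℝ → ℝ≥0)
    (hloc : ∫⁻ x in Icc (0:ℝ) 3, (U x : ℝ≥0∞) < ∞) :
    ∫⁻ x, ‖phi b x‖ₑ ^ p * U x < ∞ := by
  refine lt_of_le_of_lt ?_ hloc
  rw [← lintegral_indicator measurableSet_Icc]
  apply lintegral_mono
  intro x
  show ‖phi b x‖ₑ ^ p * (U x : ℝ≥0∞) ≤ _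
  by_cases hx : x ∈ Icc (0:ℝ) 3
  · rw [Set.indicator_of_mem hx]
    have h1 : ‖phi b x‖ₑ ≤ 1 := by
      rw [Real.enorm_eq_ofReal (phi_nonneg b x), ENNReal.ofReal_le_one]
      unfold phi
      exact Set.indicator_le' (fun _ _ => le_rfl) (fun _ _ => zero_le_one) x
    calc ‖phi b x‖ₑ ^ p * (U x : ℝ≥0∞) ≤ 1 ^ p * U x := by gcongr
      _ = U x := by rw [ENNReal.one_rpow, one_mul]
  · rw [Set.indicator_of_notMem hx, phi_supp b hx]
    simp [hp]

/-- integrability at infinity -/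
lemma tail_fin {p : ℝ} (hp : 1 < p) {U : ℝ → ℝ≥0} (hU : Measurable U) {C : ℝ≥0}
    (hA : ∀ f : ℝ → ℂ, Integrable f → ∫ x, f x = 0 →
      ∫⁻ x, ‖hilb f x‖ₑ ^ p * U x ≤ C * ∫⁻ x, ‖f x‖ₑ ^ p * U x)
    (hloc : ∀ a b : ℝ, ∫⁻ x in Icc a b, (U x : ℝ≥0∞) < ∞) :
    ∫⁻ x, ENNReal.ofReal (kr x) ^ (2 * p) * U x < ∞ := by
  have hp0 : 0 < p := by linarith
  have hpi := Real.pi_pos
  set S : Set ℝ := Iio (-1) ∪ Ioi 4 with hS
  have hSm : MeasurableSet S := measurableSet_Iio.union measurableSet_Ioi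
  set F : ℝ → ℝ := fun y => phi true y - phi false y with hF
  have hFi : Integrable F := (phi_int true).sub (phi_int false)
  have hF0 : ∫ y, F y = 0 := by
    rw [hF, integral_sub (phi_int true) (phi_int false), phi_integral, phi_integral, sub_self]
  have hoff : ∀ x ∈ S, ∃ r : ℝ, 0 < r ∧ ∀ y, |y - x| < r → F y = 0 := by
    intro x hx
    refine ⟨1 / 2, by norm_num, fun y hy => ?_⟩
    have h3 : y ∉ Icc (0:ℝ) 3 := by
      rintro ⟨h1, h2⟩
      rw [abs_lt] at hy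
      rcases hx with hx | hx
      · have : x < -1 := hx
        linarith [hy.1, hy.2]
      · have : 4 < x := hx
        linarith [hy.1, hy.2]
    rw [hF]
    simp only
    rw [phi_supp true h3, phi_supp false h3, sub_self]
  have ht := test_ineq hA hFi hF0 hSm hoff
  have hR : ∫⁻ x, ‖F x‖ₑ ^ p * U x < ∞ := by
    have hh : ∀ x, ‖F x‖ₑ ^ p * U x ≤
        2 ^ (p - 1) * (‖phi true x‖ₑ ^ p * U x + ‖phi false x‖ₑ ^ p * U x) := by
      intro x
      calc ‖F x‖ₑ ^ p * U x ≤ (‖phi true x‖ₑ + ‖phi false x‖ₑ) ^ p * U x := by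
            gcongr; exact enorm_sub_le
        _ ≤ (2 ^ (p - 1) * (‖phi true x‖ₑ ^ p + ‖phi false x‖ₑ ^ p)) * U x := by
            gcongr
            exact ENNReal.rpow_add_le_mul_rpow_add_rpow _ _ hp.le
        _ = _ := by ring
    refine (lintegral_mono hh).trans_lt ?_
    have hm : ∀ b, Measurable fun x => ‖phi b x‖ₑ ^ p * (U x : ℝ≥0∞) := by
      intro b
      apply Measurable.mul _ hU.coe_nnreal_ennreal
      apply Measurable.pow_const
      apply Measurable.enorm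
      unfold phi
      exact measurable_const.indicator (by cases b <;> simp)
    have hs : Measurable fun x => ‖phi true x‖ₑ ^ p * (U x : ℝ≥0∞) + ‖phi false x‖ₑ ^ p * U x :=
      (hm true).add (hm false)
    rw [lintegral_const_mul _ hs, lintegral_add_left (hm true)]
    apply ENNReal.mul_lt_top (ENNReal.rpow_lt_top_of_nonneg (by linarith) (by norm_num))
    exact ENNReal.add_lt_top.2 ⟨phi_enorm_rpow hp0 _ U (hloc _ _), phi_enorm_rpow hp0 _ U (hloc _ _)⟩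
  have h1 : ∫⁻ x in S, ‖offH F x‖ₑ ^ p * U x < ∞ :=
    ht.trans_lt (ENNReal.mul_lt_top ENNReal.coe_lt_top hR)
  -- compare
  have hkm : Measurable fun x => ENNReal.ofReal (kr x) ^ (2 * p) * (U x : ℝ≥0∞) :=
    (kr_meas.ennreal_ofReal.pow_const _).mul hU.coe_nnreal_ennreal
  have h2 : ENNReal.ofReal (π⁻¹ * (1 / 9)) ^ p *
      ∫⁻ x in S, ENNReal.ofReal (kr x) ^ (2 * p) * U x < ∞ := by
    rw [← lintegral_const_mul _ hkm]
    refine lt_of_le_of_lt ?_ h1
    apply setLIntegral_mono' hSm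
    intro x hx
    rw [← mul_assoc]
    gcongr
    have e : ENNReal.ofReal (kr x) ^ (2 * p) = (ENNReal.ofReal (kr x ^ 2)) ^ p := by
      rw [ENNReal.ofReal_pow (kr_pos x).le, ← ENNReal.rpow_natCast, ← ENNReal.rpow_mul]
      norm_num
    rw [e, ← ENNReal.mul_rpow_of_nonneg _ _ hp0.le, ← ENNReal.ofReal_mul (by positivity),
      Real.enorm_eq_ofReal_abs]
    apply ENNReal.rpow_le_rpow _ hp0.le
    apply ENNReal.ofReal_le_ofReal
    have h3 := far_low (x := x) hx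
    refine le_trans (le_of_eq ?_) h3
    ring
  have h3 : ∫⁻ x in S, ENNReal.ofReal (kr x) ^ (2 * p) * U x < ∞ := by
    by_contra h
    rw [not_lt, top_le_iff] at h
    rw [h, ENNReal.mul_top] at h2
    · exact lt_irrefl _ h2
    · rw [Ne, ENNReal.rpow_eq_zero_iff_of_pos hp0, ENNReal.ofReal_eq_zero, not_le]
      positivity
  have h4 : ∫⁻ x in Sᶜ, ENNReal.ofReal (kr x) ^ (2 * p) * U x < ∞ := by
    refine lt_of_le_of_lt ?_ (hloc (-1) 4)
    have hsub : Sᶜ ⊆ Icc (-1:ℝ) 4 := by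
      intro x hx
      rw [hS, Set.mem_compl_iff, Set.mem_union, not_or] at hx
      exact ⟨not_lt.1 hx.1, not_lt.1 hx.2⟩
    refine (lintegral_mono_set hsub).trans ?_
    apply lintegral_mono
    intro x
    show ENNReal.ofReal (kr x) ^ (2 * p) * (U x : ℝ≥0∞) ≤ U x
    calc ENNReal.ofReal (kr x) ^ (2 * p) * (U x : ℝ≥0∞) ≤ 1 ^ (2 * p) * U x := by
          gcongr
          exact ENNReal.ofReal_le_one.2 (kr_le_one x)
      _ = U x := by rw [ENNReal.one_rpow, one_mul]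
  rw [← lintegral_add_compl _ hSm]
  exact ENNReal.add_lt_top.2 ⟨h3, h4⟩

/-- Hoelder -/
lemma holder_aux {p : ℝ} (hp : 1 < p) {U : ℝ → ℝ≥0} (hU : Measurable U)
    (hσ : ∫⁻ x, sig p U x ≠ ∞) {g : ℝ → ℝ≥0} (hg : Measurable g) :
    (∫⁻ x, (g x : ℝ≥0∞) * ENNReal.ofReal (kr x)) ^ p ≤
      (∫⁻ x, (g x : ℝ≥0∞) ^ p * wone p U x) * (∫⁻ x, sig p U x) ^ (p - 1) := by
  have hp0 : 0 < p := by linarith
  have hpq := Real.HolderConjugate.conjExponent hp
  set q := Real.conjExponent p with hq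
  have hUpos : ∀ᵐ x, U x ≠ 0 := by
    filter_upwards [ae_lt_top (sig_meas hU) hσ] with x hx h0
    unfold sig at hx
    rw [h0, ENNReal.coe_zero, ENNReal.zero_rpow_of_neg (by
      rw [neg_lt_zero]; exact one_div_pos.2 (by linarith))] at hx
    exact lt_irrefl _ hx
  set a : ℝ → ℝ≥0∞ := fun x => (g x : ℝ≥0∞) * ENNReal.ofReal (kr x) * (U x : ℝ≥0∞) ^ (1 / p) with ha
  set b : ℝ → ℝ≥0∞ := fun x => (U x : ℝ≥0∞) ^ (-(1 / p)) with hb
  have ham : Measurable a :=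
    (hg.coe_nnreal_ennreal.mul kr_meas.ennreal_ofReal).mul (hU.coe_nnreal_ennreal.pow_const _)
  have hbm : Measurable b := hU.coe_nnreal_ennreal.pow_const _
  have h1 := ENNReal.lintegral_mul_le_Lp_mul_Lq volume hpq ham.aemeasurable hbm.aemeasurable
  have e1 : ∫⁻ x, (a * b) x = ∫⁻ x, (g x : ℝ≥0∞) * ENNReal.ofReal (kr x) := by
    apply lintegral_congr_ae
    filter_upwards [hUpos] with x hx
    rw [Pi.mul_apply, ha, hb]
    simp only
    have hx' : (U x : ℝ≥0∞) ≠ 0 := by exact_mod_cast hx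
    rw [mul_assoc, ← ENNReal.rpow_add _ _ hx' ENNReal.coe_ne_top, add_neg_cancel,
      ENNReal.rpow_zero, mul_one]
  have e2 : ∀ x, a x ^ p = (g x : ℝ≥0∞) ^ p * wone p U x := by
    intro x
    rw [ha]
    simp only
    rw [ENNReal.mul_rpow_of_nonneg _ _ hp0.le, ENNReal.mul_rpow_of_nonneg _ _ hp0.le,
      ← ENNReal.rpow_mul, one_div_mul_cancel hp0.ne', ENNReal.rpow_one, wone_eq hp0, mul_assoc]
  have e3 : ∀ x, b x ^ q = sig p U x := by
    intro x
    rw [hb]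
    unfold sig
    simp only
    rw [← ENNReal.rpow_mul]
    congr 1
    rw [hq, Real.conjExponent]
    have : p - 1 ≠ 0 := by linarith
    field_simp
  rw [e1] at h1
  simp_rw [e2, e3] at h1
  have h2 := ENNReal.rpow_le_rpow h1 hp0.le
  rw [ENNReal.mul_rpow_of_nonneg _ _ hp0.le, ← ENNReal.rpow_mul, ← ENNReal.rpow_mul,
    one_div_mul_cancel hp0.ne', ENNReal.rpow_one] at h2
  have e4 : 1 / q * p = p - 1 := by
    rw [hq, Real.conjExponent]
    have : p - 1 ≠ 0 := by linarith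
    field_simp
  rw [e4] at h2
  exact h2

lemma three_rpow {p : ℝ} (hp : 1 < p) (a b c : ℝ≥0∞) :
    (a + b + c) ^ p ≤ 4 ^ p * (a ^ p + b ^ p + c ^ p) := by
  have hp0 : 0 ≤ p := by linarith
  have h1 : (1:ℝ≥0∞) ≤ 2 ^ (p - 1) := ENNReal.one_le_rpow (by norm_num) (by linarith)
  have h2 : (2:ℝ≥0∞) ^ (p - 1) * 2 ^ (p - 1) ≤ 4 ^ p := by
    have e4 : (4:ℝ≥0∞) = 2 * 2 := by norm_num
    rw [← ENNReal.mul_rpow_of_nonneg _ _ (by linarith), e4]
    exact ENNReal.rpow_le_rpow_of_exponent_le (by norm_num) (by linarith)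
  calc (a + b + c) ^ p ≤ 2 ^ (p - 1) * ((a + b) ^ p + c ^ p) :=
        ENNReal.rpow_add_le_mul_rpow_add_rpow _ _ hp.le
    _ ≤ 2 ^ (p - 1) * (2 ^ (p - 1) * (a ^ p + b ^ p) + 2 ^ (p - 1) * c ^ p) := by
        gcongr
        · exact ENNReal.rpow_add_le_mul_rpow_add_rpow _ _ hp.le
        · calc c ^ p = 1 * c ^ p := (one_mul _).symm
            _ ≤ _ := by gcongr
    _ = (2 ^ (p - 1) * 2 ^ (p - 1)) * (a ^ p + b ^ p + c ^ p) := by ring
    _ ≤ _ := by gcongr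

end Run7.h664
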