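import Pool.Agent.Run7.h664.N7

set_option autoImplicit false

open MeasureTheory Filter Topology Set
open scoped ENNReal NNReal Real

namespace Run7.h664

lemma x_kr (x : ℝ) : |x| * kr x ≤ 1 := by
  unfold kr
  rw [← div_eq_mul_inv, div_le_one (by positivity)]
  linarith

lemma phi_meas (b : Bool) : Measurable (phi b) := by
  unfold phi
  exact measurable_const.indicator (by cases b <;> simp)

lemma offH_meas {F : ℝ → ℝ} (hF : Measurable F) : Measurable (offH F) := by
  unfold offH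
  apply Measurable.const_mul
  have h : StronglyMeasurable (Function.uncurry fun x y : ℝ => F y / (x - y)) := by
    apply Measurable.stronglyMeasurable
    have : Function.uncurry (fun x y : ℝ => F y / (x - y)) = fun z : ℝ × ℝ => F z.2 / (z.1 - z.2) := rfl
    rw [this]
    exact (hF.comp measurable_snd).div (measurable_fst.sub measurable_snd)
  exact h.integral_prod_right.measurable

lemma quad_le (y : ℝ) : |y| * (1 + y ^ 2)⁻¹ ≤ 2 * kr y ∧ (1 + y ^ 2)⁻¹ ≤ 2 * kr y := by
  unfold kr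
  have h1 : |y| ^ 2 = y ^ 2 := sq_abs y
  have h0 := abs_nonneg y
  constructor
  · rw [← div_eq_mul_inv, ← div_eq_mul_inv, div_le_div_iff₀ (by positivity) (by positivity)]
    nlinarith [sq_nonneg (|y| - 1)]
  · rw [← div_eq_mul_inv, inv_eq_one_div, div_le_div_iff₀ (by positivity) (by positivity)]
    nlinarith [sq_nonneg (|y| - 1)]

section

variable {p : ℝ} {U : ℝ → ℝ≥0} {C : ℝ≥0}

/-- one of the two pieces -/
lemma piece (hp : 1 < p) (hU : Measurable U)
    (hA : ∀ f : ℝ → ℂ, Integrable f → ∫ x, f x = 0 →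
      ∫⁻ x, ‖hilb f x‖ₑ ^ p * U x ≤ C * ∫⁻ x, ‖f x‖ₑ ^ p * U x)
    {c l : ℝ} {J : Set ℝ} (hJ : Adj c l J) {g : ℝ → ℝ≥0} (hg : Measurable g)
    (hgi : Integrable (fun x => (g x : ℝ))) (hgI : ∀ x, x ∉ Icc c (c + l) → g x = 0) {M : ℝ}
    (hM : M = ∫ y, (g y : ℝ) * kr y) (b : Bool) {f : ℝ → ℝ} (hfm : Measurable f)
    (hf : ∀ y, |f y| ≤ 2 * ((g y : ℝ) * kr y)) :
    Integrable f ∧ |∫ y, f y| ≤ 2 * M ∧
    Integrable (fun y => f y - (∫ z, f z) * phi b y) ∧
    (∀ x ∈ J ∩ reg b, ∃ r : ℝ, 0 < r ∧ ∀ y, |y - x| < r →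
      f y - (∫ z, f z) * phi b y = 0) ∧
    ∫⁻ x in J ∩ reg b, ‖offH (fun y => f y - (∫ z, f z) * phi b y) x‖ₑ ^ p * U x ≤
      C * (2 ^ (p - 1) * (2 ^ p * (∫⁻ x, (g x : ℝ≥0∞) ^ p * wone p U x) +
        ENNReal.ofReal (2 * M) ^ p * ∫⁻ x, ‖phi b x‖ₑ ^ p * U x)) := by
  have hp0 : 0 < p := by linarith
  have hgk : Integrable (fun y => (g y : ℝ) * kr y) := by
    refine hgi.mono' (hg.coe_nnreal_real.mul kr_meas).aestronglyMeasurable
      (Eventually.of_forall fun y => ?_)
    rw [Real.norm_of_nonneg (mul_nonneg (g y).coe_nonneg (kr_pos y).le)]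
    exact mul_le_of_le_one_right (g y).coe_nonneg (kr_le_one y)
  have hfi : Integrable f := (hgk.const_mul 2).mono' hfm.aestronglyMeasurable
    (Eventually.of_forall fun y => by rw [Real.norm_eq_abs]; exact hf y)
  have hm : |∫ y, f y| ≤ 2 * M := by
    rw [hM, ← integral_const_mul, ← Real.norm_eq_abs]
    exact norm_integral_le_of_norm_le (hgk.const_mul 2) (Eventually.of_forall fun y => by
      rw [Real.norm_eq_abs]; exact hf y)
  set m := ∫ y, f y with hmd
  set F : ℝ → ℝ := fun y => f y - m * phi b y with hF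
  have hFi : Integrable F := hfi.sub ((phi_int b).const_mul m)
  have hF0 : ∫ x, F x = 0 := by
    rw [hF, integral_sub hfi ((phi_int b).const_mul m), integral_const_mul, phi_integral, ← hmd]
    ring
  have hoff : ∀ x ∈ J ∩ reg b, ∃ r : ℝ, 0 < r ∧ ∀ y, |y - x| < r → F y = 0 := by
    intro x hx
    obtain ⟨s, hs, hso⟩ := hJ.off hx.1
    refine ⟨min s (1 / 2), by positivity, fun y hy => ?_⟩
    have h1 : f y = 0 := by
      have h2 := hf y
      rw [hgI y (hso y (hy.trans_le (min_le_left _ _)))] at h2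
      simp only [NNReal.coe_zero, zero_mul, mul_zero] at h2
      exact abs_eq_zero.1 (le_antisymm h2 (abs_nonneg _))
    rw [hF]
    simp only
    rw [h1, phi_far b hx.2 (hy.trans_le (min_le_right _ _))]
    simp
  refine ⟨hfi, hm, hFi, hoff, ?_⟩
  refine (test_ineq hA hFi hF0 (hJ.meas.inter (reg_meas b)) hoff).trans ?_
  gcongr
  have hfx : ∀ x, ‖f x‖ₑ ^ p * U x ≤ 2 ^ p * ((g x : ℝ≥0∞) ^ p * wone p U x) := by
    intro x
    have h1 : ‖f x‖ₑ ≤ 2 * ((g x : ℝ≥0∞) * ENNReal.ofReal (kr x)) := by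
      rw [Real.enorm_eq_ofReal_abs]
      refine (ENNReal.ofReal_le_ofReal (hf x)).trans (le_of_eq ?_)
      rw [ENNReal.ofReal_mul (by norm_num), ENNReal.ofReal_mul (g x).coe_nonneg,
        ENNReal.ofReal_coe_nnreal]
      norm_num
    calc ‖f x‖ₑ ^ p * U x ≤ (2 * ((g x : ℝ≥0∞) * ENNReal.ofReal (kr x))) ^ p * U x := by gcongr
      _ = _ := by
        rw [ENNReal.mul_rpow_of_nonneg _ _ hp0.le, ENNReal.mul_rpow_of_nonneg _ _ hp0.le,
          wone_eq hp0]
        ring
  have hgm : Measurable fun x => (g x : ℝ≥0∞) ^ p * (wone p U x : ℝ≥0∞) :=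
    (hg.coe_nnreal_ennreal.pow_const _).mul (wone_meas hU).coe_nnreal_ennreal
  have hpm : Measurable fun x => ‖phi b x‖ₑ ^ p * (U x : ℝ≥0∞) := by
    apply Measurable.mul _ hU.coe_nnreal_ennreal
    apply Measurable.pow_const
    apply Measurable.enorm
    unfold phi
    exact measurable_const.indicator (by cases b <;> simp)
  calc ∫⁻ x, ‖F x‖ₑ ^ p * U x ≤ ∫⁻ x, 2 ^ (p - 1) * (2 ^ p * ((g x : ℝ≥0∞) ^ p * wone p U x) +
        ENNReal.ofReal (2 * M) ^ p * (‖phi b x‖ₑ ^ p * U x)) := by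
        apply lintegral_mono
        intro x
        have h1 : ‖F x‖ₑ ≤ ‖f x‖ₑ + ENNReal.ofReal (2 * M) * ‖phi b x‖ₑ := by
          rw [hF]
          simp only
          refine enorm_sub_le.trans ?_
          rw [enorm_mul]
          gcongr
          rw [Real.enorm_eq_ofReal_abs]
          exact ENNReal.ofReal_le_ofReal hm
        calc ‖F x‖ₑ ^ p * U x ≤ (‖f x‖ₑ + ENNReal.ofReal (2 * M) * ‖phi b x‖ₑ) ^ p * U x := by
              gcongr
          _ ≤ (2 ^ (p - 1) * (‖f x‖ₑ ^ p + (ENNReal.ofReal (2 * M) * ‖phi b x‖ₑ) ^ p)) * U x := by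
              gcongr
              exact ENNReal.rpow_add_le_mul_rpow_add_rpow _ _ hp.le
          _ = 2 ^ (p - 1) * (‖f x‖ₑ ^ p * U x +
              ENNReal.ofReal (2 * M) ^ p * (‖phi b x‖ₑ ^ p * U x)) := by
              rw [ENNReal.mul_rpow_of_nonneg _ _ hp0.le]
              ring
          _ ≤ 2 ^ (p - 1) * (2 ^ p * ((g x : ℝ≥0∞) ^ p * wone p U x) +
              ENNReal.ofReal (2 * M) ^ p * (‖phi b x‖ₑ ^ p * U x)) := by
              exact mul_le_mul' le_rfl (add_le_add (hfx x) le_rfl)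
    _ = _ := by
        have hs : Measurable fun x => 2 ^ p * ((g x : ℝ≥0∞) ^ p * (wone p U x : ℝ≥0∞)) +
            ENNReal.ofReal (2 * M) ^ p * (‖phi b x‖ₑ ^ p * U x) :=
          (hgm.const_mul _).add (hpm.const_mul _)
        rw [lintegral_const_mul _ hs, lintegral_add_left (hgm.const_mul _),
          lintegral_const_mul _ hgm, lintegral_const_mul _ hpm]

/-- The weight `(1+|x|)^{-p} U` satisfies the test condition if the dual weight is integrable. -/
theorem case_fin (hp : 1 < p) (hU : Measurable U)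
    (hA : ∀ f : ℝ → ℂ, Integrable f → ∫ x, f x = 0 →
      ∫⁻ x, ‖hilb f x‖ₑ ^ p * U x ≤ C * ∫⁻ x, ‖f x‖ₑ ^ p * U x)
    (hloc : ∀ a b : ℝ, ∫⁻ x in Icc a b, (U x : ℝ≥0∞) < ∞)
    (hσ : ∫⁻ x, sig p U x ≠ ∞) : ∃ C' : ℝ≥0, ∀ a : ℝ, Test p (wone p U) a C' := by
  have hp0 : 0 < p := by linarith
  have hpi := Real.pi_pos
  set L := ∫⁻ x, ENNReal.ofReal (kr x) ^ (2 * p) * U x with hL
  have hLt : L < ∞ := tail_fin hp hU hA hloc
  set u := ∫⁻ x, ‖phi true x‖ₑ ^ p * U x + ‖phi false x‖ₑ ^ p * U x with hu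
  have hpm : ∀ b, Measurable fun x => ‖phi b x‖ₑ ^ p * (U x : ℝ≥0∞) := by
    intro b
    apply Measurable.mul _ hU.coe_nnreal_ennreal
    apply Measurable.pow_const
    apply Measurable.enorm
    unfold phi
    exact measurable_const.indicator (by cases b <;> simp)
  have hut : u < ∞ := by
    rw [hu, lintegral_add_left (hpm true)]
    exact ENNReal.add_lt_top.2 ⟨phi_enorm_rpow hp0 _ U (hloc _ _), phi_enorm_rpow hp0 _ U (hloc _ _)⟩
  have hub : ∀ b, ∫⁻ x, ‖phi b x‖ₑ ^ p * U x ≤ u := by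
    intro b
    apply lintegral_mono
    intro x
    cases b
    · exact le_add_self
    · exact le_self_add
  set sg := (∫⁻ x, sig p U x) ^ (p - 1) with hsg
  have hsgt : sg < ∞ := ENNReal.rpow_lt_top_of_nonneg (by linarith) hσ
  have hWm := wone_meas (p := p) hU
  set D : ℝ≥0∞ := 4 ^ p * (2 * (C * (2 ^ (p - 1) * (2 ^ p + 2 ^ p * sg * u))) +
    ENNReal.ofReal (168 * π⁻¹) ^ p * sg * L) with hD
  have hDt : D < ∞ := by
    have h2 : (2:ℝ≥0∞) ^ p < ∞ := ENNReal.rpow_lt_top_of_nonneg hp0.le (by norm_num)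
    have h2' : (2:ℝ≥0∞) ^ (p - 1) < ∞ := ENNReal.rpow_lt_top_of_nonneg (by linarith) (by norm_num)
    have h4 : (4:ℝ≥0∞) ^ p < ∞ := ENNReal.rpow_lt_top_of_nonneg hp0.le (by norm_num)
    have h5 : ENNReal.ofReal (168 * π⁻¹) ^ p < ∞ :=
      ENNReal.rpow_lt_top_of_nonneg hp0.le ENNReal.ofReal_ne_top
    apply ENNReal.mul_lt_top h4
    refine ENNReal.add_lt_top.2 ⟨?_, ?_⟩
    · apply ENNReal.mul_lt_top (by norm_num)
      apply ENNReal.mul_lt_top ENNReal.coe_lt_top
      apply ENNReal.mul_lt_top h2'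
      exact ENNReal.add_lt_top.2 ⟨h2, ENNReal.mul_lt_top (ENNReal.mul_lt_top h2 hsgt) hut⟩
    · exact ENNReal.mul_lt_top (ENNReal.mul_lt_top h5 hsgt) hLt
  have main : ∀ (c l : ℝ), 0 < l → ∀ g : ℝ → ℝ≥0, Measurable g → (∃ B : ℝ≥0, ∀ x, g x ≤ B) →
      (∀ x, x ∉ Icc c (c + l) → g x = 0) → ∀ J, Adj c l J →
      (∫⁻ x in J, (wone p U x : ℝ≥0∞)) * (∫⁻ x, (g x : ℝ≥0∞)) ^ p ≤
        (2 * D) * ENNReal.ofReal (4 * π) ^ p * ENNReal.ofReal l ^ p *
          ∫⁻ x, (g x : ℝ≥0∞) ^ p * wone p U x := by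
    intro c l hl g hg hB hgI J hJ
    obtain ⟨B, hB⟩ := hB
    have hfin := bdd_fin hB hgI
    have hgi := nn_int hg hfin
    set m : ℝ := ∫ x, (g x : ℝ) with hm
    have hm0 : 0 ≤ m := integral_nonneg fun x => (g x).coe_nonneg
    have hmE : ENNReal.ofReal m = ∫⁻ x, (g x : ℝ≥0∞) := nn_integral hg hfin
    rw [← hmE]
    apply fin_aux hp0 hm0 hl
    set X := ∫⁻ x, (g x : ℝ≥0∞) ^ p * wone p U x with hX
    set M : ℝ := ∫ y, (g y : ℝ) * kr y with hM
    have hM0 : 0 ≤ M := integral_nonneg fun x => mul_nonneg (g x).coe_nonneg (kr_pos x).le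
    have hgk : Integrable (fun y => (g y : ℝ) * kr y) := by
      refine hgi.mono' (hg.coe_nnreal_real.mul kr_meas).aestronglyMeasurable
        (Eventually.of_forall fun y => ?_)
      rw [Real.norm_of_nonneg (mul_nonneg (g y).coe_nonneg (kr_pos y).le)]
      exact mul_le_of_le_one_right (g y).coe_nonneg (kr_le_one y)
    have hME : ENNReal.ofReal M = ∫⁻ x, (g x : ℝ≥0∞) * ENNReal.ofReal (kr x) := by
      rw [hM, ofReal_integral_eq_lintegral_ofReal hgk
        (Eventually.of_forall fun x => mul_nonneg (g x).coe_nonneg (kr_pos x).le)]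
      apply lintegral_congr
      intro x
      rw [ENNReal.ofReal_mul (g x).coe_nonneg, ENNReal.ofReal_coe_nnreal]
    have hMX : ENNReal.ofReal M ^ p ≤ X * sg := by
      rw [hME]; exact holder_aux hp hU hσ hg
    -- the two functions
    set f1 : ℝ → ℝ := fun y => (g y : ℝ) * (y * (1 + y ^ 2)⁻¹) with hf1
    set f2 : ℝ → ℝ := fun y => (g y : ℝ) * (1 + y ^ 2)⁻¹ with hf2
    have hf1m : Measurable f1 := by
      rw [hf1]
      exact hg.coe_nnreal_real.mul (by fun_prop)
    have hf2m : Measurable f2 := by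
      rw [hf2]
      exact hg.coe_nnreal_real.mul (by fun_prop)
    have hf1b : ∀ y, |f1 y| ≤ 2 * ((g y : ℝ) * kr y) := by
      intro y
      rw [hf1]
      simp only
      rw [abs_mul, abs_mul, abs_of_nonneg (g y).coe_nonneg, abs_of_pos (show 0 < (1 + y ^ 2)⁻¹ by
        positivity)]
      have := (quad_le y).1
      have h0 := (g y).coe_nonneg
      nlinarith
    have hf2b : ∀ y, |f2 y| ≤ 2 * ((g y : ℝ) * kr y) := by
      intro y
      rw [hf2]
      simp only
      rw [abs_mul, abs_of_nonneg (g y).coe_nonneg, abs_of_pos (show 0 < (1 + y ^ 2)⁻¹ by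
        positivity)]
      have := (quad_le y).2
      have h0 := (g y).coe_nonneg
      nlinarith
    have key : ∀ b : Bool, (∫⁻ x in J ∩ reg b, (wone p U x : ℝ≥0∞)) *
        ENNReal.ofReal (π⁻¹ * (m / (4 * l))) ^ p ≤ D * X := by
      intro b
      have hJb : MeasurableSet (J ∩ reg b) := hJ.meas.inter (reg_meas b)
      obtain ⟨i1, hm1, iF1, hoff1, hP1⟩ := piece hp hU hA hJ hg hgi hgI hM b hf1m hf1b
      obtain ⟨i2, hm2, iF2, hoff2, hP2⟩ := piece hp hU hA hJ hg hgi hgI hM b hf2m hf2b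
      set m1 := ∫ y, f1 y with hm1d
      set m2 := ∫ y, f2 y with hm2d
      set F1 : ℝ → ℝ := fun y => f1 y - m1 * phi b y with hF1
      set F2 : ℝ → ℝ := fun y => f2 y - m2 * phi b y with hF2
      have hE : ∀ t : ℝ≥0∞, t ≤ C * (2 ^ (p - 1) * (2 ^ p * X +
          ENNReal.ofReal (2 * M) ^ p * ∫⁻ x, ‖phi b x‖ₑ ^ p * U x)) →
          t ≤ C * (2 ^ (p - 1) * (2 ^ p + 2 ^ p * sg * u)) * X := by
        intro t ht
        refine ht.trans ?_
        calc C * (2 ^ (p - 1) * (2 ^ p * X +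
            ENNReal.ofReal (2 * M) ^ p * ∫⁻ x, ‖phi b x‖ₑ ^ p * U x))
            ≤ C * (2 ^ (p - 1) * (2 ^ p * X + (2 ^ p * (X * sg)) * u)) := by
              gcongr
              · rw [ENNReal.ofReal_mul (by norm_num), ENNReal.mul_rpow_of_nonneg _ _ hp0.le]
                gcongr
                simp
              · exact hub b
          _ = _ := by ring
      have hP1' := hE _ hP1
      have hP2' := hE _ hP2
      -- pointwise
      have hpt : ∀ x ∈ J ∩ reg b, π⁻¹ * (m / (4 * l)) ≤ |x| * |offH F1 x| + |offH F2 x| +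
          168 * π⁻¹ * M * kr x := by
        intro x hx
        obtain ⟨s, hs, hso⟩ := hJ.off hx.1
        obtain ⟨r1, hr1, hro1⟩ := hoff1 x hx
        obtain ⟨r2, hr2, hro2⟩ := hoff2 x hx
        have j1 := int_div iF1 hr1 hro1
        have j2 := int_div iF2 hr2 hro2
        have jg := int_div hgi hs (fun y hy => by rw [hgI y (hso y hy)]; simp)
        have jp := int_div (phi_int b) (x := x) (r := 1 / 2) (by norm_num)
          (fun y hy => phi_far b hx.2 hy)
        have e1 : ∫ y, (g y : ℝ) / (x - y) = x * (∫ y, F1 y / (x - y)) + (∫ y, F2 y / (x - y)) +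
            m1 * (x * (∫ y, phi b y / (x - y)) - 1) + m2 * ∫ y, phi b y / (x - y) := by
          have e2 : ∫ y, (g y : ℝ) / (x - y) = ∫ y, (x * (F1 y / (x - y)) + F2 y / (x - y) +
              (m1 * x + m2) * (phi b y / (x - y)) - f1 y) := by
            congr 1
            funext y
            by_cases hxy : x = y
            · have hgy : g y = 0 := hgI y (hso y (by rw [hxy]; simpa using hs))
              have hy1 : f1 y = 0 := by rw [hf1]; simp [hgy]
              rw [hxy]
              simp [hgy, hy1]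
            · have hxy' : x - y ≠ 0 := sub_ne_zero.2 hxy
              have hq : (1 + y ^ 2) ≠ 0 := by positivity
              rw [hF1, hF2, hf1, hf2]
              simp only
              field_simp
              ring
          rw [e2]
          have k1 : Integrable fun y => x * (F1 y / (x - y)) := j1.const_mul x
          have k2 : Integrable fun y => x * (F1 y / (x - y)) + F2 y / (x - y) := k1.add j2
          have k3 : Integrable fun y => (m1 * x + m2) * (phi b y / (x - y)) := jp.const_mul _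
          have k4 : Integrable fun y => x * (F1 y / (x - y)) + F2 y / (x - y) +
              (m1 * x + m2) * (phi b y / (x - y)) := k2.add k3
          rw [integral_sub k4 i1, integral_add k2 k3, integral_add k1 j2, integral_const_mul,
            integral_const_mul, ← hm1d]
          ring
        have h1 := hJ.lower hx.1 hgi (fun y => (g y).coe_nonneg)
          (fun y hy => by rw [hgI y hy]; simp)
        have h2 := phi_cau b hx.2
        have h3 := phi_cau2 b hx.2
        have hk := (kr_pos x).le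
        rw [e1] at h1
        have h4 : |x * (∫ y, F1 y / (x - y)) + (∫ y, F2 y / (x - y)) +
            m1 * (x * (∫ y, phi b y / (x - y)) - 1) + m2 * ∫ y, phi b y / (x - y)| ≤
            |x| * |∫ y, F1 y / (x - y)| + |∫ y, F2 y / (x - y)| + 168 * M * kr x := by
          have t1 := abs_add_le (x * (∫ y, F1 y / (x - y)) + (∫ y, F2 y / (x - y)) +
            m1 * (x * (∫ y, phi b y / (x - y)) - 1)) (m2 * ∫ y, phi b y / (x - y))
          have t2 := abs_add_le (x * (∫ y, F1 y / (x - y)) + (∫ y, F2 y / (x - y)))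
            (m1 * (x * (∫ y, phi b y / (x - y)) - 1))
          have t3 := abs_add_le (x * (∫ y, F1 y / (x - y))) (∫ y, F2 y / (x - y))
          have t4 : |m2 * ∫ y, phi b y / (x - y)| ≤ (2 * M) * (42 * kr x) := by
            rw [abs_mul]; exact mul_le_mul hm2 h2 (abs_nonneg _) (by positivity)
          have t5 : |m1 * (x * (∫ y, phi b y / (x - y)) - 1)| ≤ (2 * M) * (42 * kr x) := by
            rw [abs_mul]; exact mul_le_mul hm1 h3 (abs_nonneg _) (by positivity)
          rw [abs_mul] at t3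
          linarith
        have h5 : m / (4 * l) ≤ |x| * |∫ y, F1 y / (x - y)| + |∫ y, F2 y / (x - y)| +
            168 * M * kr x := by
          have : m / (4 * l) ≤ m / (2 * l) :=
            div_le_div_of_nonneg_left hm0 (by positivity) (by linarith)
          exact this.trans (h1.trans h4)
        unfold offH
        rw [abs_mul, abs_mul, abs_of_pos (inv_pos.2 hpi)]
        calc π⁻¹ * (m / (4 * l)) ≤ π⁻¹ * (|x| * |∫ y, F1 y / (x - y)| + |∫ y, F2 y / (x - y)| +
              168 * M * kr x) := mul_le_mul_of_nonneg_left h5 (inv_pos.2 hpi).le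
          _ = _ := by ring
      have hptE : ∀ x ∈ J ∩ reg b, (wone p U x : ℝ≥0∞) *
          ENNReal.ofReal (π⁻¹ * (m / (4 * l))) ^ p ≤ 4 ^ p * (‖offH F1 x‖ₑ ^ p * U x +
          ‖offH F2 x‖ₑ ^ p * U x + ENNReal.ofReal (168 * π⁻¹ * M) ^ p *
            (ENNReal.ofReal (kr x) ^ (2 * p) * U x)) := by
        intro x hx
        have hk := kr_pos x
        have h1 : ENNReal.ofReal (π⁻¹ * (m / (4 * l))) ≤ ENNReal.ofReal |x| * ‖offH F1 x‖ₑ +
            ‖offH F2 x‖ₑ + ENNReal.ofReal (168 * π⁻¹ * M) * ENNReal.ofReal (kr x) := by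
          rw [Real.enorm_eq_ofReal_abs, Real.enorm_eq_ofReal_abs, ← ENNReal.ofReal_mul (abs_nonneg _),
            ← ENNReal.ofReal_mul (by positivity), ← ENNReal.ofReal_add (by positivity) (by positivity),
            ← ENNReal.ofReal_add (by positivity) (by positivity)]
          exact ENNReal.ofReal_le_ofReal (hpt x hx)
        have h2 : ENNReal.ofReal (kr x) ^ p * ENNReal.ofReal |x| ^ p ≤ 1 := by
          rw [← ENNReal.mul_rpow_of_nonneg _ _ hp0.le, ← ENNReal.ofReal_mul hk.le]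
          apply ENNReal.rpow_le_one _ hp0.le
          rw [ENNReal.ofReal_le_one, mul_comm]
          exact x_kr x
        have h3 : ENNReal.ofReal (kr x) ^ p ≤ 1 :=
          ENNReal.rpow_le_one (ENNReal.ofReal_le_one.2 (kr_le_one x)) hp0.le
        have h4 : ENNReal.ofReal (kr x) ^ p * ENNReal.ofReal (kr x) ^ p =
            ENNReal.ofReal (kr x) ^ (2 * p) := by
          rw [← ENNReal.rpow_add _ _ (by simpa using hk) ENNReal.ofReal_ne_top]
          congr 1; ring
        rw [wone_eq hp0]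
        calc ENNReal.ofReal (kr x) ^ p * U x * ENNReal.ofReal (π⁻¹ * (m / (4 * l))) ^ p
            ≤ ENNReal.ofReal (kr x) ^ p * U x * (4 ^ p * ((ENNReal.ofReal |x| * ‖offH F1 x‖ₑ) ^ p +
              ‖offH F2 x‖ₑ ^ p + (ENNReal.ofReal (168 * π⁻¹ * M) * ENNReal.ofReal (kr x)) ^ p)) := by
              gcongr
              refine le_trans ?_ (three_rpow hp _ _ _)
              gcongr
          _ = 4 ^ p * ((ENNReal.ofReal (kr x) ^ p * ENNReal.ofReal |x| ^ p) * (‖offH F1 x‖ₑ ^ p * U x)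
              + ENNReal.ofReal (kr x) ^ p * (‖offH F2 x‖ₑ ^ p * U x) +
              ENNReal.ofReal (168 * π⁻¹ * M) ^ p *
              ((ENNReal.ofReal (kr x) ^ p * ENNReal.ofReal (kr x) ^ p) * U x)) := by
              rw [ENNReal.mul_rpow_of_nonneg _ _ hp0.le, ENNReal.mul_rpow_of_nonneg _ _ hp0.le]
              ring
          _ ≤ 4 ^ p * (1 * (‖offH F1 x‖ₑ ^ p * U x)
              + 1 * (‖offH F2 x‖ₑ ^ p * U x) +
              ENNReal.ofReal (168 * π⁻¹ * M) ^ p * (ENNReal.ofReal (kr x) ^ (2 * p) * U x)) := by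
              rw [h4]
              gcongr
          _ = _ := by rw [one_mul, one_mul]
      -- integrate
      have hkm : Measurable fun x => ENNReal.ofReal (kr x) ^ (2 * p) * (U x : ℝ≥0∞) :=
        (kr_meas.ennreal_ofReal.pow_const _).mul hU.coe_nnreal_ennreal
      have h6 : (∫⁻ x in J ∩ reg b, (wone p U x : ℝ≥0∞)) *
          ENNReal.ofReal (π⁻¹ * (m / (4 * l))) ^ p ≤
          ∫⁻ x in J ∩ reg b, 4 ^ p * (ENNReal.ofReal (168 * π⁻¹ * M) ^ p *
            (ENNReal.ofReal (kr x) ^ (2 * p) * U x) + (‖offH F1 x‖ₑ ^ p * U x +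
          ‖offH F2 x‖ₑ ^ p * U x)) := by
        rw [← lintegral_mul_const _ hWm.coe_nnreal_ennreal]
        apply setLIntegral_mono' hJb
        intro x hx
        refine (hptE x hx).trans (le_of_eq ?_)
        ring
      refine h6.trans ?_
      have h4t : (4:ℝ≥0∞) ^ p ≠ ∞ := ENNReal.rpow_ne_top_of_nonneg hp0.le (by norm_num)
      rw [lintegral_const_mul' _ _ h4t, lintegral_add_left (hkm.const_mul _),
        lintegral_const_mul _ hkm]
      have h7 : ∫⁻ x in J ∩ reg b, (‖offH F1 x‖ₑ ^ p * U x + ‖offH F2 x‖ₑ ^ p * U x) ≤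
          2 * (C * (2 ^ (p - 1) * (2 ^ p + 2 ^ p * sg * u)) * X) := by
        have hF1m : Measurable F1 := by
          rw [hF1]
          exact hf1m.sub ((phi_meas b).const_mul m1)
        have hmm : Measurable fun x => ‖offH F1 x‖ₑ ^ p * (U x : ℝ≥0∞) :=
          ((offH_meas hF1m).enorm.pow_const _).mul hU.coe_nnreal_ennreal
        rw [lintegral_add_left hmm]
        calc _ ≤ _ := add_le_add hP1' hP2'
          _ = _ := by ring
      have h8 : ENNReal.ofReal (168 * π⁻¹ * M) ^ p *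
          ∫⁻ x in J ∩ reg b, ENNReal.ofReal (kr x) ^ (2 * p) * U x ≤
          ENNReal.ofReal (168 * π⁻¹) ^ p * (X * sg) * L := by
        rw [ENNReal.ofReal_mul (by positivity), ENNReal.mul_rpow_of_nonneg _ _ hp0.le]
        gcongr
        exact setLIntegral_le_lintegral _ _
      calc 4 ^ p * (ENNReal.ofReal (168 * π⁻¹ * M) ^ p *
            (∫⁻ x in J ∩ reg b, ENNReal.ofReal (kr x) ^ (2 * p) * U x) +
            ∫⁻ x in J ∩ reg b, (‖offH F1 x‖ₑ ^ p * U x + ‖offH F2 x‖ₑ ^ p * U x))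
          ≤ 4 ^ p * (ENNReal.ofReal (168 * π⁻¹) ^ p * (X * sg) * L +
            2 * (C * (2 ^ (p - 1) * (2 ^ p + 2 ^ p * sg * u)) * X)) := by gcongr
        _ = D * X := by rw [hD]; ring
    -- both pieces
    have hcov : ∫⁻ x in J, (wone p U x : ℝ≥0∞) ≤ (∫⁻ x in J ∩ reg true, (wone p U x : ℝ≥0∞)) +
        ∫⁻ x in J ∩ reg false, (wone p U x : ℝ≥0∞) := by
      have h1 : ∫⁻ x in J, (wone p U x : ℝ≥0∞) = ∫⁻ x in J \ {3 / 2}, (wone p U x : ℝ≥0∞) := by
        apply setLIntegral_congr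
        exact (sdiff_null_ae_eq_self (by simp)).symm
      rw [h1]
      refine (lintegral_mono_set ?_).trans (lintegral_union_le _ _ _)
      intro x hx
      have h2 : x ≠ 3 / 2 := fun h => hx.2 (by rw [h]; rfl)
      rcases lt_or_gt_of_ne h2 with h | h
      · right
        exact ⟨hx.1, by unfold reg; exact h⟩
      · left
        exact ⟨hx.1, by unfold reg; exact h⟩
    calc (∫⁻ x in J, (wone p U x : ℝ≥0∞)) * ENNReal.ofReal (π⁻¹ * (m / (4 * l))) ^ p
        ≤ ((∫⁻ x in J ∩ reg true, (wone p U x : ℝ≥0∞)) +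
          ∫⁻ x in J ∩ reg false, (wone p U x : ℝ≥0∞)) *
          ENNReal.ofReal (π⁻¹ * (m / (4 * l))) ^ p := by gcongr
      _ ≤ D * X + D * X := by
          rw [add_mul]
          exact add_le_add (key true) (key false)
      _ = 2 * D * X := by ring
  have hfinal : (2 * D) * ENNReal.ofReal (4 * π) ^ p < ∞ :=
    ENNReal.mul_lt_top (ENNReal.mul_lt_top (by norm_num) hDt)
      (ENNReal.rpow_lt_top_of_nonneg hp0.le ENNReal.ofReal_ne_top)
  refine ⟨((2 * D) * ENNReal.ofReal (4 * π) ^ p).toNNReal, fun a c l hl g hg hB hgI _ => ?_⟩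
  rw [ENNReal.coe_toNNReal hfinal.ne]
  exact ⟨main c l hl g hg hB hgI _ (Or.inl rfl), main c l hl g hg hB hgI _ (Or.inr rfl)⟩

end

end Run7.h664
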