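import Pool.Agent.Run7.h664.N8

/-!
Necessity: an admissible weight `U` satisfies `U ∈ A_p`, or `|x-a|^{-p} U ∈ A_p` for some `a`, or
`(1+|x|)^{-p} U ∈ A_p`.
-/

set_option autoImplicit false

open MeasureTheory Filter Topology Set
open scoped ENNReal NNReal Real

namespace Run7.h664

lemma IsWeight.fin_Icc {U : ℝ → ℝ≥0} (hU : IsWeight U) (a b : ℝ) :
    ∫⁻ x in Icc a b, (U x : ℝ≥0∞) < ∞ := by
  have h := hU.loc.integrableOn_isCompact (isCompact_Icc (a := a) (b := b))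
  have h2 := h.2
  unfold HasFiniteIntegral at h2
  refine lt_of_eq_of_lt ?_ h2
  apply lintegral_congr
  intro x
  rw [enorm_coe]

lemma wdiv_zero {p a : ℝ} (hp : 0 < p) {U : ℝ → ℝ≥0} (h : ∀ᵐ x, wdiv p a U x = 0) :
    ∀ᵐ x, U x = 0 := by
  have ha : ∀ᵐ x : ℝ, x ≠ a := by simp [ae_iff]
  filter_upwards [h, ha] with x hx hxa
  have := wdiv_mul U hp hxa
  rw [hx] at this
  simpa using this.symm

lemma wone_zero {p : ℝ} (hp : 0 < p) {U : ℝ → ℝ≥0} (h : ∀ᵐ x, wone p U x = 0) :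
    ∀ᵐ x, U x = 0 := by
  filter_upwards [h] with x hx
  have h1 : (1 + ‖x‖₊) ^ p ≠ 0 := by
    rw [Ne, NNReal.rpow_eq_zero_iff]
    rintro ⟨h, _⟩
    simp at h
  unfold wone at hx
  rcases div_eq_zero_iff.1 hx with h2 | h2
  · exact h2
  · exact absurd h2 h1

lemma wone_le {p : ℝ} (hp : 0 < p) (U : ℝ → ℝ≥0) (x : ℝ) : (wone p U x : ℝ≥0∞) ≤ U x := by
  rw [wone_eq hp]
  calc ENNReal.ofReal (kr x) ^ p * (U x : ℝ≥0∞) ≤ 1 * U x := by
        gcongr
        exact ENNReal.rpow_le_one (ENNReal.ofReal_le_one.2 (kr_le_one x)) hp.le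
    _ = U x := one_mul _

lemma wdiv_fin {p a : ℝ} (hp : 0 < p) {U : ℝ → ℝ≥0} {b d : ℝ} (ha : a ∉ Icc b d)
    (h : ∫⁻ x in Icc b d, (U x : ℝ≥0∞) < ∞) : ∫⁻ x in Icc b d, (wdiv p a U x : ℝ≥0∞) < ∞ := by
  obtain ⟨δ, hδ, hd⟩ : ∃ δ : ℝ, 0 < δ ∧ ∀ x ∈ Icc b d, δ ≤ |x - a| := by
    rw [mem_Icc, not_and_or, not_le, not_le] at ha
    rcases ha with ha | ha
    · refine ⟨b - a, by linarith, fun x hx => ?_⟩
      exact le_trans (by linarith [hx.1]) (le_abs_self _)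
    · refine ⟨a - d, by linarith, fun x hx => ?_⟩
      exact le_trans (by linarith [hx.2]) (neg_le_abs _)
  have h0 : (ENNReal.ofReal δ ^ p) ≠ 0 := by
    rw [Ne, ENNReal.rpow_eq_zero_iff]
    rintro (⟨h, _⟩ | ⟨h, _⟩)
    · rw [ENNReal.ofReal_eq_zero] at h; linarith
    · exact ENNReal.ofReal_ne_top h
  have hle : ∀ x ∈ Icc b d, (wdiv p a U x : ℝ≥0∞) ≤ (ENNReal.ofReal δ ^ p)⁻¹ * U x := by
    intro x hx
    have hxa : x ≠ a := by
      intro h
      have := hd x hx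
      rw [h] at this
      simp at this
      linarith
    rw [← wdiv_mul U hp hxa, ← mul_assoc]
    calc (wdiv p a U x : ℝ≥0∞) = 1 * wdiv p a U x := (one_mul _).symm
      _ = (ENNReal.ofReal δ ^ p)⁻¹ * ENNReal.ofReal δ ^ p * wdiv p a U x := by
          rw [ENNReal.inv_mul_cancel h0 (ENNReal.rpow_ne_top_of_nonneg hp.le ENNReal.ofReal_ne_top)]
      _ ≤ (ENNReal.ofReal δ ^ p)⁻¹ * ‖x - a‖ₑ ^ p * wdiv p a U x := by
          gcongr
          rw [Real.enorm_eq_ofReal_abs]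
          exact ENNReal.ofReal_le_ofReal (hd x hx)
  calc ∫⁻ x in Icc b d, (wdiv p a U x : ℝ≥0∞)
      ≤ ∫⁻ x in Icc b d, (ENNReal.ofReal δ ^ p)⁻¹ * U x :=
        setLIntegral_mono' measurableSet_Icc hle
    _ = (ENNReal.ofReal δ ^ p)⁻¹ * ∫⁻ x in Icc b d, (U x : ℝ≥0∞) := by
        rw [lintegral_const_mul' _ _ (ENNReal.inv_ne_top.2 h0)]
    _ < ∞ := ENNReal.mul_lt_top (ENNReal.inv_ne_top.2 h0).lt_top h

/-- Necessity. -/
theorem necessity {p : ℝ} (hp : 1 < p) {U : ℝ → ℝ≥0} (hU : IsWeight U) (hA : Admissible p U) :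
    IsAp p U ∨ (∃ a : ℝ, IsAp p (wdiv p a U)) ∨ IsAp p (wone p U) := by
  have hp0 : 0 < p := by linarith
  obtain ⟨C, hC⟩ := hA
  by_cases h1 : ∃ a : ℝ, ∀ r : ℝ, 0 < r → ∫⁻ x in Metric.ball a r, sig p U x = ∞
  · obtain ⟨a, ha⟩ := h1
    right; left
    exact ⟨a, isAp_of_test hp (wdiv_meas hU.meas) (fun h => hU.ne_zero (wdiv_zero hp0 h))
      (fun b d hbd => wdiv_fin hp0 hbd (hU.fin_Icc b d)) (case_pt hp hU.meas hC ha)⟩
  push Not at h1
  have hfin : ∀ R : ℝ, ∫⁻ x in Icc (-R) R, sig p U x < ∞ := by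
    intro R
    set ν : Measure ℝ := volume.withDensity (sig p U) with hν
    have h2 : ν (Icc (-R) R) < ∞ := by
      apply isCompact_Icc.measure_lt_top_of_nhdsWithin
      intro x _
      obtain ⟨r, hr, hfr⟩ := h1 x
      refine ⟨Metric.ball x r, mem_nhdsWithin_of_mem_nhds (Metric.ball_mem_nhds x hr), ?_⟩
      rw [hν, withDensity_apply _ measurableSet_ball]
      exact lt_top_iff_ne_top.2 hfr
    rwa [hν, withDensity_apply _ measurableSet_Icc] at h2
  by_cases h2 : ∫⁻ x, sig p U x = ∞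
  · left
    have hinf : ∀ R : ℝ, ∫⁻ x in {x : ℝ | R < |x|}, sig p U x = ∞ := by
      intro R
      by_contra h3
      have h4 : ∫⁻ x, sig p U x ≤ (∫⁻ x in Icc (-R) R, sig p U x) +
          ∫⁻ x in {x : ℝ | R < |x|}, sig p U x := by
        rw [← setLIntegral_univ]
        refine (lintegral_mono_set ?_).trans (lintegral_union_le _ _ _)
        intro x _
        rcases le_or_gt |x| R with h | h
        · left; exact abs_le.1 h
        · right; exact h
      rw [h2, top_le_iff, ENNReal.add_eq_top] at h4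
      rcases h4 with h4 | h4
      · exact (hfin R).ne h4
      · exact h3 h4
    exact isAp_of_test (a := 0) hp hU.meas hU.ne_zero (fun b d _ => hU.fin_Icc b d)
      (case_inf hp hU.meas hC hinf 0)
  · right; right
    obtain ⟨C', hC'⟩ := case_fin hp hU.meas hC hU.fin_Icc h2
    exact isAp_of_test (a := 0) hp (wone_meas hU.meas) (fun h => hU.ne_zero (wone_zero hp0 h))
      (fun b d _ => (lintegral_mono fun x => wone_le hp0 U x).trans_lt (hU.fin_Icc b d)) (hC' 0)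

end Run7.h664
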