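import Pool.Agent.Run7.h664.S7
import Pool.Agent.Run7.h664.DefsK

/-!
Real and complex valued functions.
-/

set_option autoImplicit false

open MeasureTheory Filter Topology Set
open scoped ENNReal NNReal Real

namespace Run7.h664

section

variable (𝕜 : Type*) [RCLike 𝕜]

/-- the complex number with the same real and imaginary part -/
noncomputable def cc : 𝕜 →ₗᵢ[ℝ] ℂ where
  toFun z := ⟨RCLike.re z, RCLike.im z⟩
  map_add' z w := by
    apply Complex.ext <;> simp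
  map_smul' c z := by
    apply Complex.ext <;> simp [RCLike.smul_re, RCLike.smul_im]
  norm_map' z := by
    show ‖(⟨RCLike.re z, RCLike.im z⟩ : ℂ)‖ = ‖z‖
    have h1 : ‖(⟨RCLike.re z, RCLike.im z⟩ : ℂ)‖ ^ 2 = ‖z‖ ^ 2 := by
      rw [Complex.sq_norm, Complex.normSq_apply, RCLike.norm_sq_eq_def]
    exact (pow_left_inj₀ (norm_nonneg _) (norm_nonneg _) two_ne_zero).1 h1

variable {𝕜}

lemma cc_ofReal (r : ℝ) : cc 𝕜 (r : 𝕜) = (r : ℂ) := by
  apply Complex.ext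
  · exact RCLike.ofReal_re r
  · exact RCLike.ofReal_im r

lemma ofReal_mul_smul (r : ℝ) (z : 𝕜) : (r : 𝕜) * z = r • z := by
  rw [RCLike.real_smul_eq_coe_mul]

lemma cc_trunc (f : ℝ → 𝕜) (δ x : ℝ) :
    cc 𝕜 (Weights.trunc f δ x) = trunc (fun y => cc 𝕜 (f y)) δ x := by
  unfold Weights.trunc trunc
  rw [ofReal_mul_smul, map_smul, ← LinearIsometry.integral_comp_comm, Complex.real_smul]
  congr 1
  · push_cast; rfl
  · congr 1
    funext y
    rw [div_eq_mul_inv, mul_comm, ← RCLike.ofReal_inv, ofReal_mul_smul, map_smul, Complex.real_smul,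
      div_eq_mul_inv, mul_comm]
    push_cast
    rfl

lemma cc_hilb {f : ℝ → 𝕜} {x : ℝ} (h : ∃ v, PV (fun y => cc 𝕜 (f y)) x v) :
    ‖Weights.hilbert f x‖ₑ = ‖hilb (fun y => cc 𝕜 (f y)) x‖ₑ := by
  obtain ⟨v, hv⟩ := h
  have hv' : Tendsto (fun δ => cc 𝕜 (Weights.trunc f δ x)) (𝓝[>] (0:ℝ)) (𝓝 v) := by
    simp_rw [cc_trunc]
    exact hv
  have hemb : Topology.IsClosedEmbedding (cc 𝕜) := (cc 𝕜).isometry.isClosedEmbedding
  have hmem : v ∈ range (cc 𝕜) := by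
    apply hemb.isClosed_range.mem_of_tendsto hv'
    exact Eventually.of_forall fun δ => mem_range_self _
  obtain ⟨w, rfl⟩ := hmem
  have hw : Tendsto (fun δ => Weights.trunc f δ x) (𝓝[>] (0:ℝ)) (𝓝 w) :=
    hemb.isEmbedding.tendsto_nhds_iff.2 hv'
  rw [hv.eq]
  unfold Weights.hilbert
  rw [hw.limUnder_eq, ← ofReal_norm, ← ofReal_norm, (cc 𝕜).norm_map]

lemma cc_enorm (z : 𝕜) : ‖cc 𝕜 z‖ₑ = ‖z‖ₑ := by
  rw [← ofReal_norm, ← ofReal_norm, (cc 𝕜).norm_map]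

lemma cc_int {f : ℝ → 𝕜} (hf : Integrable f) : Integrable fun y => cc 𝕜 (f y) :=
  (cc 𝕜).toContinuousLinearMap.integrable_comp hf

lemma cc_lint {p : ℝ} {U : ℝ → ℝ≥0} {f : ℝ → 𝕜} (hf : Integrable f) :
    ∫⁻ x, ‖Weights.hilbert f x‖ₑ ^ p * U x = ∫⁻ x, ‖hilb (fun y => cc 𝕜 (f y)) x‖ₑ ^ p * U x := by
  apply lintegral_congr_ae
  filter_upwards [pv_ae (cc_int hf)] with x hx
  rw [cc_hilb hx]

lemma adm_of {p : ℝ} {U : ℝ → ℝ≥0} (h : Admissible p U) : Weights.Admissible 𝕜 p U := by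
  obtain ⟨C, hC⟩ := h
  refine ⟨C, fun f hf h0 => ?_⟩
  have h1 := hC (fun y => cc 𝕜 (f y)) (cc_int hf) (by
    rw [LinearIsometry.integral_comp_comm, h0, map_zero])
  rw [cc_lint hf]
  simp_rw [cc_enorm] at h1
  exact h1

lemma adm_to {p : ℝ} (hp : 1 < p) {U : ℝ → ℝ≥0} (hU : Measurable U)
    (h : Weights.Admissible 𝕜 p U) : Admissible p U := by
  have hp0 : 0 < p := by linarith
  obtain ⟨C, hC⟩ := h
  have hR : ∀ F : ℝ → ℝ, Integrable F → ∫ x, F x = 0 →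
      ∫⁻ x, ‖hilb (fun y => (F y : ℂ)) x‖ₑ ^ p * U x ≤ C * ∫⁻ x, ‖F x‖ₑ ^ p * U x := by
    intro F hF h0
    have hi : Integrable fun y => ((F y : ℝ) : 𝕜) := hF.ofReal
    have h1 := hC (fun y => ((F y : ℝ) : 𝕜)) hi (by
      rw [integral_ofReal, h0, RCLike.ofReal_zero])
    rw [cc_lint hi] at h1
    simp_rw [cc_ofReal] at h1
    refine h1.trans (le_of_eq ?_)
    congr 1
    apply lintegral_congr
    intro x
    rw [← ofReal_norm, RCLike.norm_ofReal, ← Real.norm_eq_abs, ofReal_norm]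
  refine ⟨2 ^ (p - 1) * (2 * C), fun f hf h0 => ?_⟩
  have hre : Integrable fun y => (f y).re := hf.re
  have him : Integrable fun y => (f y).im := hf.im
  have h1 := hR (fun y => (f y).re) hre (by
    have := integral_re hf
    simp only [RCLike.re_eq_complex_re] at this
    rw [this, h0, Complex.zero_re])
  have h2 := hR (fun y => (f y).im) him (by
    have := integral_im hf
    simp only [RCLike.im_eq_complex_im] at this
    rw [this, h0, Complex.zero_im])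
  have hreC : Integrable fun y => (((f y).re : ℝ) : ℂ) := hre.ofReal
  have himC0 : Integrable fun y => (((f y).im : ℝ) : ℂ) := him.ofReal
  have himC : Integrable fun y => Complex.I * (((f y).im : ℝ) : ℂ) := himC0.const_mul _
  have hfe : f = fun y => (((f y).re : ℝ) : ℂ) + Complex.I * (((f y).im : ℝ) : ℂ) := by
    funext y
    rw [mul_comm, Complex.re_add_im]
  have hpt : ∀ᵐ x, ‖hilb f x‖ₑ ≤ ‖hilb (fun y => (((f y).re : ℝ) : ℂ)) x‖ₑ +
      ‖hilb (fun y => (((f y).im : ℝ) : ℂ)) x‖ₑ := by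
    filter_upwards [pv_ae hreC, pv_ae himC0] with x hx1 hx2
    obtain ⟨u, hu⟩ := hx1
    obtain ⟨v, hv⟩ := hx2
    have hv2 := PV.smul Complex.I hv
    have h3 := PV.add hreC himC hu hv2
    have h4 : PV f x (u + Complex.I * v) := by
      rw [hfe]
      exact h3
    rw [h4.eq, hu.eq, hv.eq]
    refine (enorm_add_le _ _).trans (add_le_add le_rfl ?_)
    rw [enorm_mul, ← ofReal_norm, Complex.norm_I, ENNReal.ofReal_one, one_mul]
  have hm : AEMeasurable (fun x => ‖hilb (fun y => (((f y).re : ℝ) : ℂ)) x‖ₑ ^ p *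
      (U x : ℝ≥0∞)) volume :=
    ((hilb_aesm hreC.1 (pv_ae hreC)).enorm.pow_const p).mul hU.coe_nnreal_ennreal.aemeasurable
  have h2t : (2 : ℝ≥0∞) ^ (p - 1) ≠ ∞ := ENNReal.rpow_ne_top_of_nonneg (by linarith) (by norm_num)
  have b1 : ∫⁻ x, ‖(f x).re‖ₑ ^ p * U x ≤ ∫⁻ x, ‖f x‖ₑ ^ p * U x := by
    apply lintegral_mono
    intro x
    refine mul_le_mul' (ENNReal.rpow_le_rpow ?_ hp0.le) le_rfl
    rw [← ofReal_norm, ← ofReal_norm]
    exact ENNReal.ofReal_le_ofReal (Complex.abs_re_le_norm _)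
  have b2 : ∫⁻ x, ‖(f x).im‖ₑ ^ p * U x ≤ ∫⁻ x, ‖f x‖ₑ ^ p * U x := by
    apply lintegral_mono
    intro x
    refine mul_le_mul' (ENNReal.rpow_le_rpow ?_ hp0.le) le_rfl
    rw [← ofReal_norm, ← ofReal_norm]
    exact ENNReal.ofReal_le_ofReal (Complex.abs_im_le_norm _)
  calc ∫⁻ x, ‖hilb f x‖ₑ ^ p * U x
      ≤ ∫⁻ x, 2 ^ (p - 1) * (‖hilb (fun y => (((f y).re : ℝ) : ℂ)) x‖ₑ ^ p * U x +
          ‖hilb (fun y => (((f y).im : ℝ) : ℂ)) x‖ₑ ^ p * U x) := by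
        apply lintegral_mono_ae
        filter_upwards [hpt] with x hx
        calc ‖hilb f x‖ₑ ^ p * (U x : ℝ≥0∞)
            ≤ (‖hilb (fun y => (((f y).re : ℝ) : ℂ)) x‖ₑ +
              ‖hilb (fun y => (((f y).im : ℝ) : ℂ)) x‖ₑ) ^ p * U x :=
              mul_le_mul' (ENNReal.rpow_le_rpow hx hp0.le) le_rfl
          _ ≤ (2 ^ (p - 1) * (‖hilb (fun y => (((f y).re : ℝ) : ℂ)) x‖ₑ ^ p +
              ‖hilb (fun y => (((f y).im : ℝ) : ℂ)) x‖ₑ ^ p)) * U x :=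
              mul_le_mul' (ENNReal.rpow_add_le_mul_rpow_add_rpow _ _ hp.le) le_rfl
          _ = _ := by ring
    _ = 2 ^ (p - 1) * ((∫⁻ x, ‖hilb (fun y => (((f y).re : ℝ) : ℂ)) x‖ₑ ^ p * U x) +
          ∫⁻ x, ‖hilb (fun y => (((f y).im : ℝ) : ℂ)) x‖ₑ ^ p * U x) := by
        rw [lintegral_const_mul' _ _ h2t, lintegral_add_left' hm]
    _ ≤ 2 ^ (p - 1) * (C * (∫⁻ x, ‖f x‖ₑ ^ p * U x) + C * ∫⁻ x, ‖f x‖ₑ ^ p * U x) :=
        mul_le_mul' le_rfl (add_le_add (h1.trans (mul_le_mul' le_rfl b1))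
          (h2.trans (mul_le_mul' le_rfl b2)))
    _ = ((2 ^ (p - 1) * (2 * C) : ℝ≥0) : ℝ≥0∞) * ∫⁻ x, ‖f x‖ₑ ^ p * U x := by
        rw [ENNReal.coe_mul, ENNReal.coe_mul, ENNReal.coe_rpow_of_nonneg _ (by linarith)]
        push_cast
        ring

lemma isWeight_iff (U : ℝ → ℝ≥0) : Weights.IsWeight U ↔ IsWeight U :=
  ⟨fun h => ⟨h.meas, h.loc, h.ne_zero⟩, fun h => ⟨h.meas, h.loc, h.ne_zero⟩⟩

lemma memAp_iff (p : ℝ) (W : ℝ → ℝ≥0) : Weights.MemAp p W ↔ IsAp p W := by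
  unfold Weights.MemAp IsAp
  rw [isWeight_iff]

variable (𝕜) in
/-- The characterisation, for functions with values in `ℝ` or `ℂ`. -/
theorem mainK {p : ℝ} (hp : 1 < p) {U : ℝ → ℝ≥0} (hU : Weights.IsWeight U) :
    Weights.Admissible 𝕜 p U ↔ Weights.MemAp p U ∨
      (∃ a : ℝ, Weights.MemAp p (fun x => U x / ‖x - a‖₊ ^ p)) ∨
      Weights.MemAp p (fun x => U x / (1 + ‖x‖₊) ^ p) := by
  have hU' := (isWeight_iff U).1 hU
  simp only [memAp_iff]
  constructor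
  · intro h
    exact (main hp hU').1 (adm_to hp hU.meas h)
  · intro h
    exact adm_of ((main hp hU').2 h)

end

end Run7.h664
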