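import Pool.Agent.Run7.h664.N9

/-!
Basic facts on truncated integrals and principal values.
-/

set_option autoImplicit false

open MeasureTheory Filter Topology Set
open scoped ENNReal NNReal Real

namespace Run7.h664

lemma trunc_congr {f g : ℝ → ℂ} (h : f =ᵐ[volume] g) : trunc f = trunc g := by
  funext δ x
  unfold trunc
  congr 1
  apply integral_congr_ae
  filter_upwards [ae_restrict_of_ae h] with y hy
  rw [hy]

lemma hilb_congr {f g : ℝ → ℂ} (h : f =ᵐ[volume] g) : hilb f = hilb g := by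
  funext x
  unfold hilb
  rw [trunc_congr h]

/-- the principal value exists and equals `v` -/
def PV (f : ℝ → ℂ) (x : ℝ) (v : ℂ) : Prop := Tendsto (fun δ => trunc f δ x) (𝓝[>] (0:ℝ)) (𝓝 v)

lemma PV.eq {f : ℝ → ℂ} {x : ℝ} {v : ℂ} (h : PV f x v) : hilb f x = v := h.limUnder_eq

lemma PV.self {f : ℝ → ℂ} {x : ℝ} {v : ℂ} (h : PV f x v) : PV f x (hilb f x) := by
  rw [h.eq]; exact h

lemma far_meas (δ x : ℝ) : MeasurableSet {y : ℝ | δ < |y - x|} :=
  (isOpen_lt continuous_const (by fun_prop)).measurableSet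

lemma ker_le {δ x y : ℝ} (hδ : 0 < δ) (hy : δ < |y - x|) : ‖((x : ℂ) - (y : ℂ))⁻¹‖ ≤ δ⁻¹ := by
  rw [norm_inv, ← Complex.ofReal_sub, Complex.norm_real, Real.norm_eq_abs, abs_sub_comm]
  exact inv_anti₀ hδ hy.le

lemma ker_int {f : ℝ → ℂ} (hf : Integrable f) {δ : ℝ} (hδ : 0 < δ) (x : ℝ) :
    IntegrableOn (fun y => f y / ((x : ℂ) - (y : ℂ))) {y | δ < |y - x|} := by
  have hm : Measurable fun y : ℝ => ((x : ℂ) - (y : ℂ))⁻¹ := by fun_prop
  refine Integrable.mono' ((hf.norm.const_mul δ⁻¹).integrableOn)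
    ((hf.1.mul hm.aestronglyMeasurable).restrict) ?_
  refine (ae_restrict_iff' (far_meas δ x)).2 (Eventually.of_forall fun y hy => ?_)
  rw [div_eq_mul_inv, norm_mul, mul_comm]
  exact mul_le_mul_of_nonneg_right (ker_le hδ hy) (norm_nonneg _)

lemma trunc_add {f g : ℝ → ℂ} (hf : Integrable f) (hg : Integrable g) {δ : ℝ} (hδ : 0 < δ) (x : ℝ) :
    trunc (fun y => f y + g y) δ x = trunc f δ x + trunc g δ x := by
  unfold trunc
  rw [← mul_add, ← integral_add (ker_int hf hδ x) (ker_int hg hδ x)]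
  congr 2
  funext y
  ring

lemma trunc_sub {f g : ℝ → ℂ} (hf : Integrable f) (hg : Integrable g) {δ : ℝ} (hδ : 0 < δ) (x : ℝ) :
    trunc (fun y => f y - g y) δ x = trunc f δ x - trunc g δ x := by
  unfold trunc
  rw [← mul_sub, ← integral_sub (ker_int hf hδ x) (ker_int hg hδ x)]
  congr 2
  funext y
  ring

lemma trunc_smul (c : ℂ) (f : ℝ → ℂ) (δ : ℝ) (x : ℝ) :
    trunc (fun y => c * f y) δ x = c * trunc f δ x := by
  unfold trunc
  rw [← mul_assoc, mul_comm c, mul_assoc]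
  congr 1
  rw [← integral_const_mul]
  congr 1
  funext y
  ring

lemma PV.add {f g : ℝ → ℂ} (hf : Integrable f) (hg : Integrable g) {x : ℝ} {u v : ℂ}
    (h1 : PV f x u) (h2 : PV g x v) : PV (fun y => f y + g y) x (u + v) := by
  refine (Tendsto.add h1 h2).congr' ?_
  filter_upwards [self_mem_nhdsWithin] with δ hδ
  exact (trunc_add hf hg hδ x).symm

lemma PV.sub {f g : ℝ → ℂ} (hf : Integrable f) (hg : Integrable g) {x : ℝ} {u v : ℂ}
    (h1 : PV f x u) (h2 : PV g x v) : PV (fun y => f y - g y) x (u - v) := by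
  refine (Tendsto.sub h1 h2).congr' ?_
  filter_upwards [self_mem_nhdsWithin] with δ hδ
  exact (trunc_sub hf hg hδ x).symm

lemma PV.smul {f : ℝ → ℂ} (c : ℂ) {x : ℝ} {u : ℂ} (h1 : PV f x u) :
    PV (fun y => c * f y) x (c * u) := by
  refine (Tendsto.const_mul c h1).congr' ?_
  filter_upwards [self_mem_nhdsWithin] with δ hδ
  exact (trunc_smul c f δ x).symm

lemma norm_one_div_pi : ‖(1 / (π : ℂ))‖ = π⁻¹ := by
  rw [norm_div, norm_one, Complex.norm_real, Real.norm_of_nonneg Real.pi_pos.le, one_div]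

lemma trunc_enorm {f : ℝ → ℂ} {δ : ℝ} (hδ : 0 < δ) (x : ℝ) :
    ‖trunc f δ x‖ₑ ≤ ENNReal.ofReal (π⁻¹ * δ⁻¹) * ∫⁻ y, ‖f y‖ₑ := by
  unfold trunc
  rw [enorm_mul, ENNReal.ofReal_mul (inv_nonneg.2 Real.pi_pos.le), mul_assoc]
  have h1 : ‖(1 / (π : ℂ))‖ₑ = ENNReal.ofReal π⁻¹ := by
    rw [← ofReal_norm, norm_one_div_pi]
  rw [h1]
  gcongr
  refine (enorm_integral_le_lintegral_enorm _).trans ?_
  rw [← lintegral_const_mul' _ _ ENNReal.ofReal_ne_top]
  calc ∫⁻ y in {y | δ < |y - x|}, ‖f y / ((x : ℂ) - (y : ℂ))‖ₑ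
      ≤ ∫⁻ y in {y | δ < |y - x|}, ENNReal.ofReal δ⁻¹ * ‖f y‖ₑ := by
        apply setLIntegral_mono' (far_meas δ x)
        intro y hy
        rw [div_eq_mul_inv, enorm_mul, mul_comm]
        gcongr
        rw [← ofReal_norm]
        exact ENNReal.ofReal_le_ofReal (ker_le hδ hy)
    _ ≤ _ := setLIntegral_le_lintegral _ _

lemma trunc_meas {f : ℝ → ℂ} (hf : AEStronglyMeasurable f volume) (δ : ℝ) :
    Measurable (trunc f δ) := by
  obtain ⟨g, hg, hfg⟩ := hf
  rw [trunc_congr hfg]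
  unfold trunc
  apply Measurable.const_mul
  have h : StronglyMeasurable (Function.uncurry fun x y : ℝ =>
      ({y : ℝ | δ < |y - x|}).indicator (fun y => g y / ((x : ℂ) - (y : ℂ))) y) := by
    apply Measurable.stronglyMeasurable
    have : Function.uncurry (fun x y : ℝ =>
        ({y : ℝ | δ < |y - x|}).indicator (fun y => g y / ((x : ℂ) - (y : ℂ))) y) =
        ({z : ℝ × ℝ | δ < |z.2 - z.1|}).indicator (fun z => g z.2 / ((z.1 : ℂ) - (z.2 : ℂ))) := by
      funext z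
      obtain ⟨x, y⟩ := z
      simp only [Function.uncurry_apply_pair, indicator, mem_ofPred_eq]
    rw [this]
    apply Measurable.indicator
    · have hgm := hg.measurable
      fun_prop
    · exact (isOpen_lt continuous_const (by fun_prop)).measurableSet
  have h2 : Measurable fun x : ℝ => ∫ y : ℝ,
      ({y : ℝ | δ < |y - x|}).indicator (fun y => g y / ((x : ℂ) - (y : ℂ))) y :=
    h.integral_prod_right.measurable
  have h3 : (fun x : ℝ => ∫ y in {y : ℝ | δ < |y - x|}, g y / ((x : ℂ) - (y : ℂ))) =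
      fun x : ℝ => ∫ y : ℝ,
      ({y : ℝ | δ < |y - x|}).indicator (fun y => g y / ((x : ℂ) - (y : ℂ))) y := by
    funext x
    rw [integral_indicator (far_meas δ x)]
  rw [h3]
  exact h2

end Run7.h664
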