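import Pool.Agent.Run7.h664.S1
import Pool.Agent.Helper49.Sq.Pv
import Pool.Agent.Helper458.Dav.P_trunc_ae

/-!
Principal values of integrable Lipschitz functions, and the `L²` bound.
-/

set_option autoImplicit false

open MeasureTheory Filter Topology Set
open scoped ENNReal NNReal Real

namespace Run7.h664

lemma pv_lip {f : ℝ → ℂ} {K : ℝ≥0} (hf : LipschitzWith K f) (hi : Integrable f) (x : ℝ) :
    ∃ v, PV f x v := by
  have h1 := Pool.Agent.Helper49.Sq.Pv.tendsto_trunc hf (a := x - 1) (b := x + 1) (s := x)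
    (by linarith) (by linarith)
  set E := Pool.Agent.Helper49.Sq.Pv.EE f (x - 1) (x + 1) x with hE
  set F := ∫ y in (Ioc (x - 1) (x + 1))ᶜ ∩ {y : ℝ | 1 / 2 < |y - x|}, f y / ((x : ℂ) - (y : ℂ))
    with hF
  refine ⟨(1 / (π : ℂ)) * (-E + F), ?_⟩
  have h2 : Tendsto (fun δ => (1 / (π : ℂ)) *
      (-(∫ σ in Ioc (x - 1) (x + 1) ∩ {σ : ℝ | δ < |σ - x|}, f σ / ((σ - x : ℝ) : ℂ)) + F))
      (𝓝[>] 0) (𝓝 ((1 / (π : ℂ)) * (-E + F))) := ((h1.neg).add_const F).const_mul _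
  refine h2.congr' ?_
  have h3 : ∀ᶠ δ : ℝ in 𝓝[>] 0, δ < 1 / 2 := mem_nhdsWithin_of_mem_nhds (Iio_mem_nhds (by norm_num))
  filter_upwards [h3, self_mem_nhdsWithin] with δ hδ hδ0
  have hδ0' : 0 < δ := hδ0
  unfold trunc
  congr 1
  have hs : {y : ℝ | δ < |y - x|} = (Ioc (x - 1) (x + 1) ∩ {y : ℝ | δ < |y - x|}) ∪
      ((Ioc (x - 1) (x + 1))ᶜ ∩ {y : ℝ | 1 / 2 < |y - x|}) := by
    ext y
    simp only [mem_union, mem_inter_iff, mem_compl_iff, mem_ofPred_eq]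
    constructor
    · intro hy
      by_cases hy2 : y ∈ Ioc (x - 1) (x + 1)
      · exact Or.inl ⟨hy2, hy⟩
      · refine Or.inr ⟨hy2, ?_⟩
        rw [mem_Ioc, not_and_or, not_lt, not_le] at hy2
        rcases hy2 with h | h
        · have := neg_le_abs (y - x); linarith
        · have := le_abs_self (y - x); linarith
    · rintro (h | h)
      · exact h.2
      · exact hδ.trans h.2
  have hd : Disjoint (Ioc (x - 1) (x + 1) ∩ {y : ℝ | δ < |y - x|})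
      ((Ioc (x - 1) (x + 1))ᶜ ∩ {y : ℝ | 1 / 2 < |y - x|}) := by
    rw [Set.disjoint_left]
    intro y hy hy'
    exact hy'.1 hy.1
  have e1 : ∫ y in {y : ℝ | δ < |y - x|}, f y / ((x : ℂ) - (y : ℂ)) =
      (∫ y in Ioc (x - 1) (x + 1) ∩ {y : ℝ | δ < |y - x|}, f y / ((x : ℂ) - (y : ℂ))) + F := by
    conv_lhs => rw [hs]
    exact setIntegral_union hd (measurableSet_Ioc.compl.inter (far_meas _ x))
      ((ker_int hi hδ0' x).mono_set inter_subset_right)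
      ((ker_int hi (show (0:ℝ) < 1 / 2 by norm_num) x).mono_set inter_subset_right)
  rw [e1, ← integral_neg]
  congr 2
  funext y
  push_cast
  rw [← neg_sub (x : ℂ) (y : ℂ), div_neg, neg_neg]

lemma truncH_eq (f : ℝ → ℂ) (δ x : ℝ) : Pool.Dav.truncH f δ x = trunc f δ x := by
  unfold Pool.Dav.truncH trunc
  simp_rw [abs_sub_comm x]

lemma ofReal_norm_sq (z : ℂ) : ENNReal.ofReal (‖z‖ ^ 2) = ‖z‖ₑ ^ 2 := by
  rw [ENNReal.ofReal_pow (norm_nonneg z), ofReal_norm]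

open Pool.Agent.Helper49.Sq.Keps in
lemma QQ_eq (f : ℝ → ℂ) (ε x : ℝ) : Pool.Dav.QQ f ε x =
    -(((π⁻¹ : ℝ) : ℂ) * ∫ y, (k ε (y - x) : ℂ) * f y) := by
  unfold Pool.Dav.QQ k
  rw [← integral_const_mul, ← integral_neg]
  congr 1
  funext y
  rw [show (y - x) ^ 2 = (x - y) ^ 2 by ring]
  push_cast
  ring

open Pool.Agent.Helper49.Sq.Keps in
lemma k_le {ε : ℝ} (hε : 0 < ε) (y : ℝ) : |k ε y| ≤ 1 / ε := by
  unfold k
  rw [abs_div, abs_of_pos (show 0 < y ^ 2 + ε ^ 2 by positivity), div_le_div_iff₀ (by positivity) hε]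
  nlinarith [sq_abs y, abs_nonneg y, sq_nonneg (|y| - ε)]

open Pool.Agent.Helper49.Sq.Keps in
lemma k_int {f : ℝ → ℂ} (hi : Integrable f) {ε : ℝ} (hε : 0 < ε) (x : ℝ) :
    Integrable fun y => (k ε (y - x) : ℂ) * f y := by
  have hkm : Measurable fun y => (k ε (y - x) : ℂ) := by
    have := (k_cont hε).measurable
    fun_prop
  refine Integrable.mono' (hi.norm.const_mul (1 / ε)) (hkm.aestronglyMeasurable.mul hi.1)
    (Eventually.of_forall fun y => ?_)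
  rw [norm_mul, Complex.norm_real, Real.norm_eq_abs]
  exact mul_le_mul_of_nonneg_right (k_le hε _) (norm_nonneg _)

open Pool.Agent.Helper49.Sq.Keps in
lemma kconv_meas {f : ℝ → ℂ} (hf : Measurable f) {ε : ℝ} (hε : 0 < ε) (s : Set ℝ) :
    Measurable fun x => ∫ y in s, (k ε (y - x) : ℂ) * f y := by
  apply StronglyMeasurable.measurable
  apply StronglyMeasurable.integral_prod_right (f := fun x y => (k ε (y - x) : ℂ) * f y)
  apply Measurable.stronglyMeasurable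
  have h8 := (k_cont hε).measurable
  simp only [Function.uncurry_def]
  fun_prop

open Pool.Agent.Helper49.Sq.Keps in
lemma kconv_l2 {f : ℝ → ℂ} (hf : Measurable f) (hi : Integrable f) {M : ℝ} (hM : ∀ x, ‖f x‖ ≤ M)
    {ε : ℝ} (hε : 0 < ε) :
    ∫⁻ x, ‖∫ y, (k ε (y - x) : ℂ) * f y‖ₑ ^ 2 ≤ ENNReal.ofReal (π ^ 2) * ∫⁻ x, ‖f x‖ₑ ^ 2 := by
  have hlim : ∀ x, Tendsto (fun n : ℕ => ∫ y in Ioc (-(n:ℝ)) n, (k ε (y - x) : ℂ) * f y) atTop
      (𝓝 (∫ y, (k ε (y - x) : ℂ) * f y)) := by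
    intro x
    have h1 := tendsto_setIntegral_of_monotone (μ := volume) (s := fun n : ℕ => Ioc (-(n:ℝ)) n)
      (f := fun y => (k ε (y - x) : ℂ) * f y) (fun n => measurableSet_Ioc)
      (fun m n hmn => by
        have h : (m:ℝ) ≤ n := by exact_mod_cast hmn
        exact Ioc_subset_Ioc (by linarith) h)
      (k_int hi hε x).integrableOn
    have h2 : (⋃ n : ℕ, Ioc (-(n:ℝ)) n) = univ := by
      apply eq_univ_of_forall
      intro y
      obtain ⟨n, hn⟩ := exists_nat_gt |y|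
      rw [mem_iUnion]
      have := abs_lt.1 hn
      exact ⟨n, this.1, this.2.le⟩
    rw [h2, setIntegral_univ] at h1
    exact h1
  have hb : ∀ n : ℕ, ∫⁻ x, ‖∫ y in Ioc (-(n:ℝ)) n, (k ε (y - x) : ℂ) * f y‖ₑ ^ 2 ≤
      ENNReal.ofReal (π ^ 2) * ∫⁻ x, ‖f x‖ₑ ^ 2 := by
    intro n
    have h1 := Pool.Agent.Helper49.Sq.Pv.keps_bound_complex hε (-(n:ℝ)) n f hf M hM
    simp_rw [ofReal_norm_sq] at h1
    refine h1.trans ?_
    rw [ENNReal.ofReal_mul (by positivity)]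
    gcongr
    have hint : Integrable (fun y => ‖f y‖ ^ 2) (volume.restrict (Ioc (-(n:ℝ)) n)) := by
      apply Integrable.of_bound (C := M ^ 2)
      · refine Eventually.of_forall fun y => ?_
        rw [norm_pow, norm_norm]
        have := hM y
        gcongr
      · exact (hf.norm.pow_const 2).aestronglyMeasurable
    rw [ofReal_integral_eq_lintegral_ofReal hint (Eventually.of_forall fun y => by positivity)]
    simp_rw [ofReal_norm_sq]
    exact setLIntegral_le_lintegral _ _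
  calc ∫⁻ x, ‖∫ y, (k ε (y - x) : ℂ) * f y‖ₑ ^ 2
      = ∫⁻ x, liminf (fun n : ℕ => ‖∫ y in Ioc (-(n:ℝ)) n, (k ε (y - x) : ℂ) * f y‖ₑ ^ 2) atTop := by
        apply lintegral_congr
        intro x
        exact ((((ENNReal.continuous_pow 2).tendsto _).comp (hlim x).enorm).liminf_eq).symm
    _ ≤ liminf (fun n : ℕ => ∫⁻ x, ‖∫ y in Ioc (-(n:ℝ)) n, (k ε (y - x) : ℂ) * f y‖ₑ ^ 2) atTop :=
        lintegral_liminf_le fun n => ((kconv_meas hf hε _).enorm.pow_const 2)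
    _ ≤ liminf (fun _ : ℕ => ENNReal.ofReal (π ^ 2) * ∫⁻ x, ‖f x‖ₑ ^ 2) atTop :=
        liminf_le_liminf (Eventually.of_forall hb)
    _ = _ := liminf_const _

lemma QQ_l2 {f : ℝ → ℂ} (hf : Measurable f) (hi : Integrable f) {M : ℝ} (hM : ∀ x, ‖f x‖ ≤ M)
    {ε : ℝ} (hε : 0 < ε) :
    ∫⁻ x, ‖Pool.Dav.QQ f ε x‖ₑ ^ 2 ≤ ∫⁻ x, ‖f x‖ₑ ^ 2 := by
  have h1 := kconv_l2 hf hi hM hε
  have hpi : ‖((π⁻¹ : ℝ) : ℂ)‖ₑ = ENNReal.ofReal π⁻¹ := by
    rw [← ofReal_norm, Complex.norm_real, Real.norm_of_nonneg (inv_nonneg.2 Real.pi_pos.le)]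
  calc ∫⁻ x, ‖Pool.Dav.QQ f ε x‖ₑ ^ 2
      = ∫⁻ x, ENNReal.ofReal π⁻¹ ^ 2 *
          ‖∫ y, (Pool.Agent.Helper49.Sq.Keps.k ε (y - x) : ℂ) * f y‖ₑ ^ 2 := by
        apply lintegral_congr
        intro x
        rw [QQ_eq, enorm_neg, enorm_mul, mul_pow, hpi]
    _ = ENNReal.ofReal π⁻¹ ^ 2 *
          ∫⁻ x, ‖∫ y, (Pool.Agent.Helper49.Sq.Keps.k ε (y - x) : ℂ) * f y‖ₑ ^ 2 := by
        rw [lintegral_const_mul' _ _ (ENNReal.pow_ne_top ENNReal.ofReal_ne_top)]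
    _ ≤ ENNReal.ofReal π⁻¹ ^ 2 * (ENNReal.ofReal (π ^ 2) * ∫⁻ x, ‖f x‖ₑ ^ 2) := by gcongr
    _ = ∫⁻ x, ‖f x‖ₑ ^ 2 := by
        rw [← mul_assoc, ← ENNReal.ofReal_pow (inv_nonneg.2 Real.pi_pos.le),
          ← ENNReal.ofReal_mul (by positivity), inv_pow, inv_mul_cancel₀ (by positivity),
          ENNReal.ofReal_one, one_mul]

lemma QQ_meas {f : ℝ → ℂ} (hf : Measurable f) {ε : ℝ} (hε : 0 < ε) :
    Measurable (Pool.Dav.QQ f ε) := by
  have : Pool.Dav.QQ f ε = fun x => -(((π⁻¹ : ℝ) : ℂ) * ∫ y in univ,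
      (Pool.Agent.Helper49.Sq.Keps.k ε (y - x) : ℂ) * f y) := by
    funext x
    rw [QQ_eq, setIntegral_univ]
  rw [this]
  exact ((kconv_meas hf hε univ).const_mul _).neg

/-- The `L²` bound for the Hilbert transform. -/
lemma hilb_l2 {f : ℝ → ℂ} (hf : Measurable f) (hi : Integrable f) {M : ℝ} (hM : ∀ x, ‖f x‖ ≤ M)
    (hpv : ∀ᵐ x, ∃ v, PV f x v) : ∫⁻ x, ‖hilb f x‖ₑ ^ 2 ≤ ∫⁻ x, ‖f x‖ₑ ^ 2 := by
  set e : ℕ → ℝ := fun n => 1 / ((n:ℝ) + 1) with he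
  have he0 : ∀ n, 0 < e n := fun n => by simp only [he]; positivity
  have het : Tendsto e atTop (𝓝[>] 0) :=
    tendsto_nhdsWithin_iff.2 ⟨tendsto_one_div_add_atTop_nhds_zero_nat,
      Eventually.of_forall fun n => he0 n⟩
  have hlim : ∀ᵐ x, Tendsto (fun n => Pool.Dav.QQ f (e n) x) atTop (𝓝 (hilb f x)) := by
    filter_upwards [hpv, Pool.Dav.trunc_ae f hi] with x hx hx2
    obtain ⟨v, hv⟩ := hx
    have h1 : Tendsto (fun δ => trunc f δ x) (𝓝[>] (0:ℝ)) (𝓝 (hilb f x)) := hv.self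
    have h2 := (hx2.comp het).add (h1.comp het)
    rw [zero_add] at h2
    refine h2.congr fun n => ?_
    simp only [Function.comp_apply, truncH_eq, sub_add_cancel]
  calc ∫⁻ x, ‖hilb f x‖ₑ ^ 2
      = ∫⁻ x, liminf (fun n : ℕ => ‖Pool.Dav.QQ f (e n) x‖ₑ ^ 2) atTop := by
        apply lintegral_congr_ae
        filter_upwards [hlim] with x hx
        exact ((((ENNReal.continuous_pow 2).tendsto _).comp hx.enorm).liminf_eq).symm
    _ ≤ liminf (fun n : ℕ => ∫⁻ x, ‖Pool.Dav.QQ f (e n) x‖ₑ ^ 2) atTop :=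
        lintegral_liminf_le fun n => ((QQ_meas hf (he0 n)).enorm.pow_const 2)
    _ ≤ liminf (fun _ : ℕ => ∫⁻ x, ‖f x‖ₑ ^ 2) atTop :=
        liminf_le_liminf (Eventually.of_forall fun n => QQ_l2 hf hi hM (he0 n))
    _ = _ := liminf_const _

end Run7.h664
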