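import Pool.Agent.Run7.h664.S2
import Pool.Agent.TH266.RI.J592
import Pool.Agent.TH304.RI.J593

/-!
The Hilbert transform as a Calderon-Zygmund operator on `Fin 1 → ℝ`.
-/

set_option autoImplicit false

open MeasureTheory Filter Topology Set
open scoped ENNReal NNReal Real SchwartzMap ContDiff

namespace Run7.h664

lemma hilb_aesm {f : ℝ → ℂ} (hf : AEStronglyMeasurable f volume) (hpv : ∀ᵐ x, ∃ v, PV f x v) :
    AEStronglyMeasurable (hilb f) volume := by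
  set e : ℕ → ℝ := fun n => 1 / ((n:ℝ) + 1) with he
  have he0 : ∀ n, 0 < e n := fun n => by simp only [he]; positivity
  have het : Tendsto e atTop (𝓝[>] 0) :=
    tendsto_nhdsWithin_iff.2 ⟨tendsto_one_div_add_atTop_nhds_zero_nat,
      Eventually.of_forall fun n => he0 n⟩
  refine aestronglyMeasurable_of_tendsto_ae atTop (f := fun n => trunc f (e n))
    (fun n => (trunc_meas hf (e n)).aestronglyMeasurable) ?_
  filter_upwards [hpv] with x hx
  obtain ⟨v, hv⟩ := hx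
  exact hv.self.comp het

lemma schwartz_lip (g : 𝓢(ℝ, ℂ)) : ∃ K : ℝ≥0, LipschitzWith K g := by
  have hd : Differentiable ℝ g := g.differentiable
  set g' := SchwartzMap.derivCLM ℝ ℂ g with hg'
  obtain ⟨C, hC⟩ := g'.decay 0 0
  refine ⟨C.toNNReal, lipschitzWith_of_nnnorm_deriv_le hd fun x => ?_⟩
  have h := hC.2 x
  rw [pow_zero, one_mul, norm_iteratedFDeriv_zero, hg', SchwartzMap.derivCLM_apply] at h
  rw [← NNReal.coe_le_coe, coe_nnnorm]
  exact h.trans (Real.le_coe_toNNReal C)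

lemma schwartz_bdd (g : 𝓢(ℝ, ℂ)) : ∃ M : ℝ, ∀ x, ‖g x‖ ≤ M := by
  obtain ⟨C, hC⟩ := g.decay 0 0
  refine ⟨C, fun x => ?_⟩
  have h := hC.2 x
  rwa [pow_zero, one_mul, norm_iteratedFDeriv_zero] at h

lemma schwartz_pv (g : 𝓢(ℝ, ℂ)) (x : ℝ) : ∃ v, PV g x v := by
  obtain ⟨K, hK⟩ := schwartz_lip g
  exact pv_lip hK g.integrable x

lemma sq_eLp (f : ℝ → ℂ) : eLpNorm f 2 volume ^ (2:ℕ) = ∫⁻ x, ‖f x‖ₑ ^ 2 := by
  have h := eLpNorm_nnreal_pow_eq_lintegral (μ := (volume : Measure ℝ)) (f := f) (p := 2) (by norm_num)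
  have e : ((2 : ℝ≥0) : ℝ) = ((2 : ℕ) : ℝ) := by norm_num
  rw [e, ENNReal.rpow_natCast] at h
  simp_rw [ENNReal.rpow_natCast] at h
  exact h

lemma eLp_two_le {f g : ℝ → ℂ} (h : ∫⁻ x, ‖f x‖ₑ ^ 2 ≤ ∫⁻ x, ‖g x‖ₑ ^ 2) :
    eLpNorm f 2 volume ≤ eLpNorm g 2 volume := by
  rw [← sq_eLp, ← sq_eLp] at h
  rw [← ENNReal.rpow_natCast, ← ENNReal.rpow_natCast] at h
  exact (ENNReal.rpow_le_rpow_iff (by norm_num)).1 h

lemma schwartz_l2 (g : 𝓢(ℝ, ℂ)) : eLpNorm (hilb g) 2 volume ≤ eLpNorm g 2 volume := by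
  obtain ⟨M, hM⟩ := schwartz_bdd g
  exact eLp_two_le (hilb_l2 g.continuous.measurable g.integrable hM
    (Eventually.of_forall (schwartz_pv g)))

lemma schwartz_mem (g : 𝓢(ℝ, ℂ)) : MemLp (hilb g) 2 volume :=
  ⟨hilb_aesm g.continuous.aestronglyMeasurable (Eventually.of_forall (schwartz_pv g)),
    (schwartz_l2 g).trans_lt (g.memLp 2 volume).2⟩

/-- the Hilbert transform on Schwartz functions -/
noncomputable def HS : 𝓢(ℝ, ℂ) →ₗ[ℂ] Lp ℂ 2 (volume : Measure ℝ) where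
  toFun g := (schwartz_mem g).toLp (hilb g)
  map_add' f g := by
    rw [← MemLp.toLp_add]
    apply MemLp.toLp_congr
    refine Eventually.of_forall fun x => ?_
    obtain ⟨u, hu⟩ := schwartz_pv f x
    obtain ⟨v, hv⟩ := schwartz_pv g x
    have h := PV.add f.integrable g.integrable hu hv
    rw [Pi.add_apply, hu.eq, hv.eq]
    exact h.eq
  map_smul' c g := by
    rw [RingHom.id_apply, ← MemLp.toLp_const_smul]
    apply MemLp.toLp_congr
    refine Eventually.of_forall fun x => ?_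
    obtain ⟨u, hu⟩ := schwartz_pv g x
    have h := hu.smul c
    rw [Pi.smul_apply, hu.eq, smul_eq_mul]
    exact h.eq

lemma HS_apply (g : 𝓢(ℝ, ℂ)) : HS g = (schwartz_mem g).toLp (hilb g) := rfl

lemma HS_norm (g : 𝓢(ℝ, ℂ)) :
    ‖HS g‖ ≤ 1 * ‖(SchwartzMap.toLpCLM ℂ ℂ 2 (volume : Measure ℝ)).toLinearMap g‖ := by
  rw [one_mul, HS_apply]
  show _ ≤ ‖g.toLp 2 volume‖
  rw [Lp.norm_toLp, SchwartzMap.norm_toLp]
  exact ENNReal.toReal_mono (g.memLp 2 volume).2.ne (schwartz_l2 g)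

/-- the Hilbert transform on `L²(ℝ)` -/
noncomputable def T0 : Lp ℂ 2 (volume : Measure ℝ) →L[ℂ] Lp ℂ 2 (volume : Measure ℝ) :=
  HS.extendOfNorm (SchwartzMap.toLpCLM ℂ ℂ 2 (volume : Measure ℝ)).toLinearMap

lemma dense_schwartz : DenseRange (SchwartzMap.toLpCLM ℂ ℂ 2 (volume : Measure ℝ)).toLinearMap :=
  SchwartzMap.denseRange_toLpCLM (F := ℂ) (E := ℝ) (p := 2) (by norm_num)

lemma T0_apply (g : 𝓢(ℝ, ℂ)) : T0 (g.toLp 2 volume) = (schwartz_mem g).toLp (hilb g) :=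
  LinearMap.extendOfNorm_eq dense_schwartz ⟨1, HS_norm⟩ g

/-- the equivalence of `Fin 1 → ℝ` and `ℝ` -/
noncomputable def ee : (Fin 1 → ℝ) ≃ᵐ ℝ := MeasurableEquiv.funUnique (Fin 1) ℝ

lemma ee_apply (X : Fin 1 → ℝ) : ee X = X 0 := rfl

lemma ee_symm_apply (t : ℝ) : ee.symm t = fun _ => t := rfl

lemma ee_mp : MeasurePreserving ee (volume : Measure (Fin 1 → ℝ)) (volume : Measure ℝ) :=
  volume_preserving_funUnique (Fin 1) ℝ

lemma ee_mp' : MeasurePreserving ee.symm (volume : Measure ℝ) (volume : Measure (Fin 1 → ℝ)) :=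
  ee_mp.symm ee

/-- the Hilbert transform on `L²(Fin 1 → ℝ)` -/
noncomputable def T1 : Lp ℂ 2 (volume : Measure (Fin 1 → ℝ)) →L[ℂ]
    Lp ℂ 2 (volume : Measure (Fin 1 → ℝ)) :=
  (Lp.compMeasurePreservingₗᵢ ℂ ee ee_mp).toContinuousLinearMap ∘L T0 ∘L
    (Lp.compMeasurePreservingₗᵢ ℂ ee.symm ee_mp').toContinuousLinearMap

/-- the kernel -/
noncomputable def K1 (X Y : Fin 1 → ℝ) : ℂ := (1 / (π : ℂ)) * ((X 0 : ℂ) - (Y 0 : ℂ))⁻¹

lemma T1_apply {F : (Fin 1 → ℝ) → ℂ} (hF : MemLp F 2 volume) (g : 𝓢(ℝ, ℂ))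
    (hg : ∀ X, F X = g (X 0)) : T1 (hF.toLp F) =ᵐ[volume] fun X => hilb g (X 0) := by
  have h1 : (Lp.compMeasurePreservingₗᵢ ℂ ee.symm ee_mp').toContinuousLinearMap (hF.toLp F) =
      g.toLp 2 volume := by
    have e1 : (Lp.compMeasurePreservingₗᵢ ℂ ee.symm ee_mp').toContinuousLinearMap (hF.toLp F) =
      (hF.comp_measurePreserving ee_mp').toLp (F ∘ ee.symm) := rfl
    rw [e1]
    unfold SchwartzMap.toLp
    apply MemLp.toLp_congr
    refine Eventually.of_forall fun x => ?_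
    show F (ee.symm x) = g x
    rw [hg]
    rfl
  have h2 : T1 (hF.toLp F) = ((schwartz_mem g).comp_measurePreserving ee_mp).toLp (hilb g ∘ ee) := by
    unfold T1
    rw [ContinuousLinearMap.comp_apply, ContinuousLinearMap.comp_apply, h1, T0_apply]
    rfl
  rw [h2]
  exact MemLp.coeFn_toLp _

open Pool.Agent.H433R3.Sep in
lemma el_one (X : Fin 1 → ℝ) : el X = |X 0| := by
  unfold el
  rw [Fin.sum_univ_one, Real.sqrt_sq_eq_abs]

open Pool.Agent.H433R3.Sep in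
lemma T1_cz : Pool.Agent.TH279.RI.IsCZ T1 K1 where
  rep := by
    intro F hF hsm hc
    set g₀ : ℝ → ℂ := fun t => F (fun _ => t) with hg₀
    have hg₀s : ContDiff ℝ ∞ g₀ := hsm.comp (contDiff_pi.2 fun _ => contDiff_id)
    have hg₀c : HasCompactSupport g₀ := by
      have hcl : IsClosedEmbedding (fun t : ℝ => (fun _ : Fin 1 => t)) := by
        have : (fun t : ℝ => (fun _ : Fin 1 => t)) = (Homeomorph.funUnique (Fin 1) ℝ).symm := rfl
        rw [this]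
        exact (Homeomorph.funUnique (Fin 1) ℝ).symm.isClosedEmbedding
      exact hc.comp_isClosedEmbedding hcl
    set g : 𝓢(ℝ, ℂ) := hg₀c.toSchwartzMap hg₀s with hg
    have hgF : ∀ X, F X = g (X 0) := by
      intro X
      show F X = F (fun _ => X 0)
      congr 1
      funext i
      rw [Subsingleton.elim i 0]
    filter_upwards [T1_apply hF g hgF] with X hX hXs
    rw [hX]
    have hne : (tsupport F)ᶜ ∈ 𝓝 X := (isClosed_tsupport F).isOpen_compl.mem_nhds hXs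
    obtain ⟨r, hr, hrs⟩ := Metric.mem_nhds_iff.1 hne
    have h0 : ∀ y, |y - X 0| < r → g y = 0 := by
      intro y hy
      have hy2 : (fun _ : Fin 1 => y) ∈ Metric.ball X r := by
        rw [Metric.mem_ball, dist_pi_lt_iff hr]
        intro i
        rw [Subsingleton.elim i 0, Real.dist_eq]
        exact hy
      have := hrs hy2
      show F (fun _ => y) = 0
      by_contra h
      exact this (subset_tsupport F h)
    rw [hilb_off hr h0, ← integral_const_mul]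
    have h3 := ee_mp.integral_comp' (g := fun y : ℝ => (1 / (π : ℂ)) * (g y / ((X 0 : ℂ) - (y : ℂ))))
    rw [← h3]
    congr 1
    funext Y
    rw [hgF Y]
    unfold K1
    rw [ee_apply]
    ring
  size := by
    refine ⟨π⁻¹, fun X Y _ => ?_⟩
    unfold K1
    rw [el_one, norm_mul, norm_one_div_pi, norm_inv, ← Complex.ofReal_sub, Complex.norm_real,
      Real.norm_eq_abs, pow_one, div_eq_mul_inv]
    rfl
  reg := by
    refine ⟨4 * π⁻¹, 1, one_pos, fun X Z Y h => ?_⟩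
    rw [el_one, el_one] at h
    rw [el_one, el_one]
    have e1 : (X - Z) 0 = X 0 - Z 0 := rfl
    have e2 : (X - Y) 0 = X 0 - Y 0 := rfl
    rw [e1, e2] at h
    rw [e1, e2]
    have hb : 0 < |X 0 - Y 0| := lt_of_le_of_lt (by positivity) h
    have hxy : X 0 - Y 0 ≠ 0 := abs_pos.1 hb
    have hzy' : |X 0 - Y 0| / 2 ≤ |Z 0 - Y 0| := by
      have t1 := abs_sub_abs_le_abs_sub (X 0 - Y 0) (X 0 - Z 0)
      have e3 : X 0 - Y 0 - (X 0 - Z 0) = Z 0 - Y 0 := by ring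
      rw [e3] at t1
      linarith
    have hc : 0 < |Z 0 - Y 0| := lt_of_lt_of_le (by positivity) hzy'
    have hzy : Z 0 - Y 0 ≠ 0 := abs_pos.1 hc
    have key : ‖K1 X Y - K1 Z Y‖ ≤ 2 * π⁻¹ * |X 0 - Z 0| / |X 0 - Y 0| ^ 2 := by
      have e3 : K1 X Y - K1 Z Y =
          (1 / (π : ℂ)) * (((Z 0 - X 0) / ((X 0 - Y 0) * (Z 0 - Y 0)) : ℝ) : ℂ) := by
        unfold K1
        rw [← mul_sub]
        congr 1
        have h1 : (X 0 : ℂ) - Y 0 ≠ 0 := by rw [← Complex.ofReal_sub]; exact_mod_cast hxy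
        have h2 : (Z 0 : ℂ) - Y 0 ≠ 0 := by rw [← Complex.ofReal_sub]; exact_mod_cast hzy
        push_cast
        field_simp
        ring
      rw [e3, norm_mul, norm_one_div_pi, Complex.norm_real, Real.norm_eq_abs, abs_div, abs_mul,
        abs_sub_comm (Z 0) (X 0)]
      rw [← mul_div_assoc, div_le_div_iff₀ (by positivity) (by positivity)]
      have h0 : 0 ≤ π⁻¹ * |X 0 - Z 0| := by positivity
      nlinarith [mul_le_mul_of_nonneg_left hzy' (mul_nonneg h0 hb.le)]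
    have key2 : ‖K1 Y X - K1 Y Z‖ = ‖K1 X Y - K1 Z Y‖ := by
      rw [← norm_neg]
      congr 1
      unfold K1
      rw [← neg_sub (X 0 : ℂ) (Y 0 : ℂ), ← neg_sub (Z 0 : ℂ) (Y 0 : ℂ), inv_neg, inv_neg]
      ring
    rw [key2]
    have e4 : |X 0 - Y 0| ^ (((1 : ℕ) : ℝ) + 1) = |X 0 - Y 0| ^ 2 := by
      rw [show (((1 : ℕ) : ℝ) + 1) = ((2 : ℕ) : ℝ) by norm_num, Real.rpow_natCast]
    rw [e4, Real.rpow_one]
    calc ‖K1 X Y - K1 Z Y‖ + ‖K1 X Y - K1 Z Y‖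
        ≤ 2 * π⁻¹ * |X 0 - Z 0| / |X 0 - Y 0| ^ 2 + 2 * π⁻¹ * |X 0 - Z 0| / |X 0 - Y 0| ^ 2 :=
          add_le_add key key
      _ = _ := by ring

lemma T1_czo : Pool.Agent.H433R3.Sep.IsCZO T1 K1 :=
  Pool.Agent.TH266.RI.IsCZ.isCZO one_pos T1_cz

end Run7.h664
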