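import Pool.Agent.Run7.h664.S3

/-!
Weak type (1,1) of maximal truncations, almost everywhere existence of principal values.
-/

set_option autoImplicit false

open MeasureTheory Filter Topology Set
open scoped ENNReal NNReal Real SchwartzMap ContDiff

namespace Run7.h664

/-- maximal truncation -/
noncomputable def MT (f : ℝ → ℂ) (x : ℝ) : ℝ≥0∞ := ⨆ (δ : ℝ) (_ : 0 < δ), ‖trunc f δ x‖ₑ

lemma le_MT (f : ℝ → ℂ) (x : ℝ) {δ : ℝ} (hδ : 0 < δ) : ‖trunc f δ x‖ₑ ≤ MT f x :=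
  le_iSup₂ (f := fun (δ : ℝ) (_ : 0 < δ) => ‖trunc f δ x‖ₑ) δ hδ

lemma MT_congr {f g : ℝ → ℂ} (h : f =ᵐ[volume] g) : MT f = MT g := by
  unfold MT
  rw [trunc_congr h]

open Pool.Agent.H433R3.Sep Pool.Agent.TH279.RI in
lemma TS_eq (f : ℝ → ℂ) (X : Fin 1 → ℝ) : TS K1 (fun Y => f (Y 0)) X = MT f (X 0) := by
  unfold TS MT
  congr 1
  funext δ
  congr 1
  funext hδ
  congr 1
  have h3 := ee_mp.setIntegral_preimage_emb ee.measurableEmbedding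
    (fun y : ℝ => (1 / (π : ℂ)) * (f y / ((X 0 : ℂ) - (y : ℂ)))) {y : ℝ | δ < |y - X 0|}
  unfold trunc
  rw [← integral_const_mul, ← h3]
  have hs : {Y : Fin 1 → ℝ | δ < el (X - Y)} = ee ⁻¹' {y : ℝ | δ < |y - X 0|} := by
    ext Y
    simp only [mem_preimage, mem_ofPred_eq]
    rw [el_one, Pi.sub_apply, ee_apply, abs_sub_comm]
  rw [hs]
  congr 1
  funext Y
  unfold K1
  rw [ee_apply]
  ring

lemma weak_bdd : ∃ W : ℝ≥0, ∀ f : ℝ → ℂ, Measurable f → (∃ B : ℝ≥0, ∀ x, ‖f x‖ ≤ B) →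
    (∃ R : ℝ, ∀ x, R < |x| → f x = 0) → ∀ lam : ℝ≥0, 0 < lam →
    (lam : ℝ≥0∞) * volume {x | (lam : ℝ≥0∞) < MT f x} ≤ W * ∫⁻ x, ‖f x‖ₑ := by
  obtain ⟨W, hW⟩ := Pool.Agent.TH304.RI.J593.weakStar one_pos T1_czo
  refine ⟨W, fun f hf hB hR lam hlam => ?_⟩
  obtain ⟨B, hB⟩ := hB
  obtain ⟨R, hR⟩ := hR
  have h := hW (fun Y => f (Y 0)) (hf.comp (measurable_pi_apply 0)) B (fun Y => hB _) 0 R
    (fun Y hY => by
      apply hR
      rw [Metric.mem_closedBall, dist_zero_right, not_le] at hY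
      have : ‖Y‖ = |Y 0| := by
        rw [Pi.norm_def, Finset.univ_unique, Finset.sup_singleton, coe_nnnorm, Real.norm_eq_abs]
        rfl
      rwa [this] at hY) lam hlam
  simp_rw [TS_eq] at h
  have e1 : volume {X : Fin 1 → ℝ | (lam : ℝ≥0∞) < MT f (X 0)} =
      volume {x : ℝ | (lam : ℝ≥0∞) < MT f x} :=
    ee_mp.measure_preimage_equiv {x : ℝ | (lam : ℝ≥0∞) < MT f x}
  have e2 : ∫⁻ Y : Fin 1 → ℝ, ‖f (Y 0)‖ₑ = ∫⁻ x, ‖f x‖ₑ :=
    ee_mp.lintegral_comp_emb ee.measurableEmbedding (fun x => ‖f x‖ₑ)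
  rwa [e1, e2] at h

/-- truncation in size and space -/
noncomputable def cut (f : ℝ → ℂ) (n : ℕ) : ℝ → ℂ := {x : ℝ | |x| ≤ (n:ℝ) ∧ ‖f x‖ ≤ (n:ℝ)}.indicator f

lemma cut_set {f : ℝ → ℂ} (hf : Measurable f) (n : ℕ) :
    MeasurableSet {x : ℝ | |x| ≤ (n:ℝ) ∧ ‖f x‖ ≤ (n:ℝ)} := by
  have h1 : MeasurableSet {x : ℝ | |x| ≤ (n:ℝ)} :=
    measurableSet_le continuous_abs.measurable measurable_const
  have h2 : MeasurableSet {x : ℝ | ‖f x‖ ≤ (n:ℝ)} := measurableSet_le hf.norm measurable_const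
  exact h1.inter h2

lemma cut_meas {f : ℝ → ℂ} (hf : Measurable f) (n : ℕ) : Measurable (cut f n) :=
  hf.indicator (cut_set hf n)

lemma cut_bdd (f : ℝ → ℂ) (n : ℕ) (x : ℝ) : ‖cut f n x‖ ≤ ((n : ℝ≥0) : ℝ) := by
  unfold cut
  by_cases hx : x ∈ {x : ℝ | |x| ≤ (n:ℝ) ∧ ‖f x‖ ≤ (n:ℝ)}
  · rw [indicator_of_mem hx]
    exact hx.2
  · rw [indicator_of_notMem hx, norm_zero]
    positivity

lemma cut_supp (f : ℝ → ℂ) (n : ℕ) (x : ℝ) (hx : (n:ℝ) < |x|) : cut f n x = 0 := by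
  unfold cut
  apply indicator_of_notMem
  intro h
  exact absurd h.1 (not_le.2 hx)

lemma cut_le (f : ℝ → ℂ) (n : ℕ) (x : ℝ) : ‖cut f n x‖ₑ ≤ ‖f x‖ₑ := by
  unfold cut
  by_cases hx : x ∈ {x : ℝ | |x| ≤ (n:ℝ) ∧ ‖f x‖ ≤ (n:ℝ)}
  · rw [indicator_of_mem hx]
  · rw [indicator_of_notMem hx, enorm_zero]
    exact bot_le

lemma cut_sub_le (f : ℝ → ℂ) (n : ℕ) (x : ℝ) : ‖f x - cut f n x‖ₑ ≤ ‖f x‖ₑ := by
  unfold cut
  by_cases hx : x ∈ {x : ℝ | |x| ≤ (n:ℝ) ∧ ‖f x‖ ≤ (n:ℝ)}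
  · rw [indicator_of_mem hx, sub_self, enorm_zero]
    exact bot_le
  · rw [indicator_of_notMem hx, sub_zero]

lemma cut_ev (f : ℝ → ℂ) (x : ℝ) : ∀ᶠ n in atTop, cut f n x = f x := by
  obtain ⟨N, hN⟩ := exists_nat_ge (max |x| ‖f x‖)
  filter_upwards [eventually_ge_atTop N] with n hn
  have hn' : (N:ℝ) ≤ n := by exact_mod_cast hn
  unfold cut
  apply indicator_of_mem
  exact ⟨((le_max_left _ _).trans hN).trans hn', ((le_max_right _ _).trans hN).trans hn'⟩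

lemma cut_tendsto {f : ℝ → ℂ} (hf : Measurable f) (hi : Integrable f) :
    Tendsto (fun n => ∫⁻ x, ‖f x - cut f n x‖ₑ) atTop (𝓝 0) := by
  have h1 := tendsto_lintegral_of_dominated_convergence' (μ := (volume : Measure ℝ))
    (F := fun n x => ‖f x - cut f n x‖ₑ) (f := fun _ => 0) (fun x => ‖f x‖ₑ)
    (fun n => ((hf.sub (cut_meas hf n)).enorm).aemeasurable)
    (fun n => Eventually.of_forall (cut_sub_le f n)) hi.2.ne
    (Eventually.of_forall (fun x => by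
      apply tendsto_const_nhds.congr'
      filter_upwards [cut_ev f x] with n hn
      rw [hn, sub_self, enorm_zero]))
  rwa [lintegral_zero] at h1

lemma cut_int {f : ℝ → ℂ} (hf : Measurable f) (hi : Integrable f) (n : ℕ) :
    Integrable (cut f n) := hi.indicator (cut_set hf n)

/-- convergence in `L¹` implies convergence of the truncated integrals -/
lemma trunc_tendsto {f : ℝ → ℂ} (hi : Integrable f) {g : ℕ → ℝ → ℂ} (hg : ∀ n, Integrable (g n))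
    (h : Tendsto (fun n => ∫⁻ x, ‖f x - g n x‖ₑ) atTop (𝓝 0)) {δ : ℝ} (hδ : 0 < δ) (x : ℝ) :
    Tendsto (fun n => trunc (g n) δ x) atTop (𝓝 (trunc f δ x)) := by
  rw [tendsto_iff_edist_tendsto_0]
  have h1 : Tendsto (fun n => ENNReal.ofReal (π⁻¹ * δ⁻¹) * ∫⁻ y, ‖f y - g n y‖ₑ) atTop (𝓝 0) := by
    have := ENNReal.Tendsto.const_mul (a := ENNReal.ofReal (π⁻¹ * δ⁻¹)) h
      (Or.inr ENNReal.ofReal_ne_top)
    rwa [mul_zero] at this
  refine tendsto_of_tendsto_of_tendsto_of_le_of_le tendsto_const_nhds h1 (fun n => bot_le)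
    (fun n => ?_)
  rw [edist_comm, edist_eq_enorm_sub, ← trunc_sub hi (hg n) hδ x]
  exact trunc_enorm hδ x

lemma MT_liminf {f : ℝ → ℂ} (hi : Integrable f) {g : ℕ → ℝ → ℂ} (hg : ∀ n, Integrable (g n))
    (h : Tendsto (fun n => ∫⁻ x, ‖f x - g n x‖ₑ) atTop (𝓝 0)) (x : ℝ) :
    MT f x ≤ liminf (fun n => MT (g n) x) atTop := by
  unfold MT
  refine iSup₂_le fun δ hδ => ?_
  have h1 := (trunc_tendsto hi hg h hδ x).enorm
  rw [← h1.liminf_eq]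
  exact liminf_le_liminf (Eventually.of_forall fun n => le_MT (g n) x hδ)

lemma measure_liminf_le {g : ℕ → ℝ → ℝ≥0∞} {f : ℝ → ℝ≥0∞}
    (h : ∀ x, f x ≤ liminf (fun n => g n x) atTop) (lam b : ℝ≥0∞)
    (hb : ∀ n, volume {x | lam < g n x} ≤ b) : volume {x | lam < f x} ≤ b := by
  have hsub : {x | lam < f x} ⊆ ⋃ N : ℕ, ⋂ n : ℕ, ⋂ (_ : N ≤ n), {x | lam < g n x} := by
    intro x hx
    have h1 : lam < liminf (fun n => g n x) atTop := lt_of_lt_of_le hx (h x)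
    have h2 := eventually_lt_of_lt_liminf h1
    obtain ⟨N, hN⟩ := eventually_atTop.1 h2
    simp only [mem_iUnion, mem_iInter]
    exact ⟨N, fun n hn => hN n hn⟩
  refine (measure_mono hsub).trans ?_
  have hmono : Monotone fun N : ℕ => ⋂ n : ℕ, ⋂ (_ : N ≤ n), {x | lam < g n x} := by
    intro M N hMN x hx
    simp only [mem_iInter] at hx ⊢
    exact fun n hn => hx n (hMN.trans hn)
  rw [hmono.measure_iUnion]
  refine iSup_le fun N => ?_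
  refine (measure_mono ?_).trans (hb N)
  intro x hx
  simp only [mem_iInter] at hx
  exact hx N le_rfl

/-- weak type (1,1) of maximal truncations on `L¹` -/
theorem weak_L1 : ∃ W : ℝ≥0, ∀ f : ℝ → ℂ, Integrable f → ∀ lam : ℝ≥0, 0 < lam →
    (lam : ℝ≥0∞) * volume {x | (lam : ℝ≥0∞) < MT f x} ≤ W * ∫⁻ x, ‖f x‖ₑ := by
  obtain ⟨W, hW⟩ := weak_bdd
  refine ⟨W, fun f₀ hi₀ lam hlam => ?_⟩
  obtain ⟨f, hf, hff⟩ := hi₀.1.aemeasurable
  have hi : Integrable f := hi₀.congr hff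
  rw [MT_congr hff, lintegral_congr_ae (g := fun x => ‖f x‖ₑ) (by
    filter_upwards [hff] with x hx
    rw [hx])]
  have hlam' : (lam : ℝ≥0∞) ≠ 0 := by exact_mod_cast hlam.ne'
  have h1 : volume {x | (lam : ℝ≥0∞) < MT f x} ≤ (W * ∫⁻ x, ‖f x‖ₑ) / lam := by
    apply measure_liminf_le (MT_liminf hi (fun n => cut_int hf hi n) (cut_tendsto hf hi))
    intro n
    rw [ENNReal.le_div_iff_mul_le (Or.inl hlam') (Or.inl ENNReal.coe_ne_top), mul_comm]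
    refine (hW (cut f n) (cut_meas hf n) ⟨n, cut_bdd f n⟩ ⟨n, cut_supp f n⟩ lam hlam).trans ?_
    gcongr
    exact cut_le f n _
  rwa [ENNReal.le_div_iff_mul_le (Or.inl hlam') (Or.inl ENNReal.coe_ne_top), mul_comm] at h1

/-- the principal value exists almost everywhere for integrable functions -/
theorem pv_ae {f : ℝ → ℂ} (hi : Integrable f) : ∀ᵐ x, ∃ v, PV f x v := by
  obtain ⟨W, hW⟩ := weak_L1
  -- oscillation
  have hbad : ∀ lam : ℝ≥0, 0 < lam → ∀ᵐ x, ∃ v : ℂ, ∀ᶠ δ in 𝓝[>] (0:ℝ),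
      ‖trunc f δ x - v‖ₑ ≤ 2 * lam := by
    intro lam hlam
    have hlam' : (lam : ℝ≥0∞) ≠ 0 := by exact_mod_cast hlam.ne'
    rw [ae_iff]
    apply le_antisymm _ zero_le
    apply ENNReal.le_of_forall_pos_le_add
    intro ε hε _
    rw [zero_add]
    obtain ⟨g, hg1, hg2, hg3⟩ := MemLp.exist_eLpNorm_sub_le (p := 1) (by norm_num) le_rfl
      (memLp_one_iff_integrable.2 hi) (ε := ((lam * ε / (W + 1) : ℝ≥0) : ℝ)) (by positivity)
    rw [eLpNorm_one_eq_lintegral_enorm, ENNReal.ofReal_coe_nnreal] at hg3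
    set gS : 𝓢(ℝ, ℂ) := hg1.toSchwartzMap hg2 with hgS
    have hgi : Integrable g := gS.integrable
    have hsub : {x | ¬ ∃ v : ℂ, ∀ᶠ δ in 𝓝[>] (0:ℝ), ‖trunc f δ x - v‖ₑ ≤ 2 * lam} ⊆
        {x | (lam : ℝ≥0∞) < MT (fun y => f y - g y) x} := by
      intro x hx
      simp only [mem_ofPred_eq] at hx ⊢
      by_contra hc
      rw [not_lt] at hc
      apply hx
      obtain ⟨v, hv⟩ := schwartz_pv gS x
      refine ⟨v, ?_⟩
      have hv' : Tendsto (fun δ => trunc g δ x) (𝓝[>] (0:ℝ)) (𝓝 v) := hv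
      have hball := hv'.eventually (Metric.closedEBall_mem_nhds v
        (show (0:ℝ≥0∞) < lam from pos_iff_ne_zero.2 hlam'))
      filter_upwards [hball, self_mem_nhdsWithin] with δ hδ hδ0
      have e1 : trunc f δ x - v = trunc (fun y => f y - g y) δ x + (trunc g δ x - v) := by
        rw [trunc_sub hi hgi hδ0 x]; ring
      rw [e1, two_mul]
      refine (enorm_add_le _ _).trans (add_le_add ((le_MT _ x hδ0).trans hc) ?_)
      rw [← edist_eq_enorm_sub]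
      exact hδ
    have h1 := hW (fun y => f y - g y) (hi.sub hgi) lam hlam
    refine (measure_mono hsub).trans ?_
    have h2 : volume {x | (lam : ℝ≥0∞) < MT (fun y => f y - g y) x} ≤
        (W * ∫⁻ x, ‖f x - g x‖ₑ) / lam := by
      rwa [ENNReal.le_div_iff_mul_le (Or.inl hlam') (Or.inl ENNReal.coe_ne_top), mul_comm]
    refine h2.trans ?_
    have h3 : ∫⁻ x, ‖f x - g x‖ₑ ≤ ((lam * ε / (W + 1) : ℝ≥0) : ℝ≥0∞) := hg3
    calc (W * ∫⁻ x, ‖f x - g x‖ₑ) / lam ≤ (W * ((lam * ε / (W + 1) : ℝ≥0) : ℝ≥0∞)) / lam := by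
          gcongr
      _ = ((W * (lam * ε / (W + 1)) / lam : ℝ≥0) : ℝ≥0∞) := by
          rw [ENNReal.coe_div hlam.ne', ENNReal.coe_mul]
      _ ≤ ε := by
          rw [ENNReal.coe_le_coe, ← NNReal.coe_le_coe]
          push_cast
          have hl : (0:ℝ) < lam := by exact_mod_cast hlam
          have hw : (0:ℝ) ≤ W := W.coe_nonneg
          have he : (0:ℝ) ≤ ε := ε.coe_nonneg
          rw [div_le_iff₀ hl, ← mul_div_assoc, div_le_iff₀ (by linarith)]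
          nlinarith [mul_nonneg hl.le he]
  have hall : ∀ᵐ x, ∀ n : ℕ, ∃ v : ℂ, ∀ᶠ δ in 𝓝[>] (0:ℝ),
      ‖trunc f δ x - v‖ₑ ≤ 2 * (((1 / ((n:ℝ≥0) + 1) : ℝ≥0)) : ℝ≥0∞) :=
    ae_all_iff.2 fun n => hbad _ (by positivity)
  filter_upwards [hall] with x hx
  have hcau : Cauchy (map (fun δ => trunc f δ x) (𝓝[>] (0:ℝ))) := by
    rw [EMetric.cauchy_iff]
    refine ⟨(map_neBot (f := 𝓝[>] (0:ℝ))).ne, fun ε hε => ?_⟩
    obtain ⟨n, hn⟩ := ENNReal.exists_inv_nat_lt (show ε / 4 ≠ 0 from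
      (ENNReal.div_pos hε.ne' (by norm_num)).ne')
    obtain ⟨v, hv⟩ := hx n
    refine ⟨_, image_mem_map hv, ?_⟩
    have hlt : (((1 / ((n:ℝ≥0) + 1) : ℝ≥0)) : ℝ≥0∞) < ε / 4 := by
      refine lt_of_le_of_lt ?_ hn
      rw [ENNReal.coe_div (by positivity), ENNReal.coe_one, one_div]
      apply ENNReal.inv_le_inv.2
      push_cast
      exact le_self_add
    rintro _ ⟨δ, hδ, rfl⟩ _ ⟨δ', hδ', rfl⟩
    have h1 : ‖trunc f δ x - v‖ₑ ≤ 2 * (((1 / ((n:ℝ≥0) + 1) : ℝ≥0)) : ℝ≥0∞) := hδ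
    have h2 : ‖trunc f δ' x - v‖ₑ ≤ 2 * (((1 / ((n:ℝ≥0) + 1) : ℝ≥0)) : ℝ≥0∞) := hδ'
    rw [← edist_eq_enorm_sub] at h1 h2
    calc edist (trunc f δ x) (trunc f δ' x) ≤ edist (trunc f δ x) v + edist (trunc f δ' x) v :=
          edist_triangle_right _ _ _
      _ ≤ 2 * (((1 / ((n:ℝ≥0) + 1) : ℝ≥0)) : ℝ≥0∞) + 2 * (((1 / ((n:ℝ≥0) + 1) : ℝ≥0)) : ℝ≥0∞) :=
          add_le_add h1 h2
      _ = 4 * (((1 / ((n:ℝ≥0) + 1) : ℝ≥0)) : ℝ≥0∞) := by ring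
      _ < 4 * (ε / 4) := by
          apply ENNReal.mul_lt_mul_right (by norm_num) (by norm_num) hlt
      _ = ε := ENNReal.mul_div_cancel (by norm_num) (by norm_num)
  obtain ⟨v, hv⟩ := cauchy_iff_exists_le_nhds.1 hcau
  exact ⟨v, hv⟩

end Run7.h664
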