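import Pool.Agent.Run7.h664.S4

/-!
The operator `T1` is given by principal values on bounded integrable functions.
-/

set_option autoImplicit false

open MeasureTheory Filter Topology Set
open scoped ENNReal NNReal Real SchwartzMap ContDiff

namespace Run7.h664

lemma hilb_sub {f g : ℝ → ℂ} (hf : Integrable f) (hg : Integrable g) :
    hilb (fun y => f y - g y) =ᵐ[volume] fun x => hilb f x - hilb g x := by
  filter_upwards [pv_ae hf, pv_ae hg] with x h1 h2
  obtain ⟨u, hu⟩ := h1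
  obtain ⟨v, hv⟩ := h2
  rw [hu.eq, hv.eq]
  exact (PV.sub hf hg hu hv).eq

lemma hilb_eLp {f : ℝ → ℂ} (hf : Measurable f) (hi : Integrable f) {M : ℝ} (hM : ∀ x, ‖f x‖ ≤ M) :
    eLpNorm (hilb f) 2 volume ≤ eLpNorm f 2 volume :=
  eLp_two_le (hilb_l2 hf hi hM (pv_ae hi))

lemma bdd_mem {f : ℝ → ℂ} (hi : Integrable f) {M : ℝ} (hM : ∀ x, ‖f x‖ ≤ M) :
    MemLp f 2 volume := by
  rw [memLp_two_iff_integrable_sq_norm hi.1]
  refine (hi.norm.const_mul M).mono' (hi.1.norm.pow 2) (Eventually.of_forall fun x => ?_)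
  rw [norm_pow, norm_norm, sq]
  exact mul_le_mul_of_nonneg_right (hM x) (norm_nonneg _)

lemma hilb_mem {f : ℝ → ℂ} (hf : Measurable f) (hi : Integrable f) {M : ℝ} (hM : ∀ x, ‖f x‖ ≤ M) :
    MemLp (hilb f) 2 volume :=
  ⟨hilb_aesm hi.1 (pv_ae hi), (hilb_eLp hf hi hM).trans_lt (bdd_mem hi hM).2⟩

lemma T0_eq {f : ℝ → ℂ} (hf : Measurable f) (hi : Integrable f) {M : ℝ} (hM : ∀ x, ‖f x‖ ≤ M)
    (hf2 : MemLp f 2 volume) : T0 (hf2.toLp f) = (hilb_mem hf hi hM).toLp (hilb f) := by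
  rw [← sub_eq_zero, ← norm_le_zero_iff]
  apply le_of_forall_pos_le_add
  intro ε hε
  rw [zero_add]
  set c : ℝ := ε / (‖T0‖ + 1) with hc
  have hc0 : 0 < c := by positivity
  obtain ⟨g, hg1, hg2, hg3⟩ := MemLp.exist_eLpNorm_sub_le (p := 2) (by norm_num) (by norm_num) hf2 hc0
  set gS : 𝓢(ℝ, ℂ) := hg1.toSchwartzMap hg2 with hgS
  have hgi : Integrable g := gS.integrable
  have hgm : Measurable g := gS.continuous.measurable
  obtain ⟨M', hM'⟩ := schwartz_bdd gS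
  have e0 : (gS : ℝ → ℂ) = g := rfl
  have hd : ‖hf2.toLp f - gS.toLp 2 volume‖ ≤ c := by
    have e1 : hf2.toLp f - gS.toLp 2 volume = (hf2.sub (gS.memLp 2 volume)).toLp (f - g) := rfl
    rw [e1, Lp.norm_toLp]
    exact ENNReal.toReal_le_of_le_ofReal hc0.le hg3
  have h1 : ‖T0 (hf2.toLp f) - T0 (gS.toLp 2 volume)‖ ≤ ‖T0‖ * c := by
    rw [← map_sub]
    exact (T0.le_opNorm _).trans (mul_le_mul_of_nonneg_left hd (norm_nonneg _))
  have h2 : ‖T0 (gS.toLp 2 volume) - (hilb_mem hf hi hM).toLp (hilb f)‖ ≤ c := by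
    rw [T0_apply, ← MemLp.toLp_sub, Lp.norm_toLp]
    apply ENNReal.toReal_le_of_le_ofReal hc0.le
    have e2 : eLpNorm (hilb gS - hilb f) 2 volume = eLpNorm (hilb (fun y => f y - g y)) 2 volume := by
      rw [eLpNorm_sub_comm]
      apply eLpNorm_congr_ae
      filter_upwards [hilb_sub hi hgi] with x hx
      rw [hx, Pi.sub_apply]
      rfl
    rw [e2]
    refine (hilb_eLp (hf.sub hgm) (hi.sub hgi) (M := M + M') (fun x => ?_)).trans hg3
    exact (norm_sub_le _ _).trans (add_le_add (hM x) (hM' x))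
  calc ‖T0 (hf2.toLp f) - (hilb_mem hf hi hM).toLp (hilb f)‖
      ≤ ‖T0 (hf2.toLp f) - T0 (gS.toLp 2 volume)‖ +
        ‖T0 (gS.toLp 2 volume) - (hilb_mem hf hi hM).toLp (hilb f)‖ := by
        have := norm_add_le (T0 (hf2.toLp f) - T0 (gS.toLp 2 volume))
          (T0 (gS.toLp 2 volume) - (hilb_mem hf hi hM).toLp (hilb f))
        rwa [sub_add_sub_cancel] at this
    _ ≤ ‖T0‖ * c + c := add_le_add h1 h2
    _ = ε := by
        rw [hc]
        have : ‖T0‖ + 1 ≠ 0 := by positivity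
        field_simp

open Pool.Agent.H433R3.Sep in
lemma TT_eq' {f : ℝ → ℂ} (hf : Measurable f) (hi : Integrable f) {M : ℝ} (hM : ∀ x, ‖f x‖ ≤ M) :
    TT T1 (fun X : Fin 1 → ℝ => f (X 0)) =ᵐ[volume] fun X => hilb f (X 0) := by
  have hf2 := bdd_mem hi hM
  have hF : MemLp (fun X : Fin 1 → ℝ => f (X 0)) 2 volume := hf2.comp_measurePreserving ee_mp
  rw [TT_eq hF]
  have h1 : (Lp.compMeasurePreservingₗᵢ ℂ ee.symm ee_mp').toContinuousLinearMap (hF.toLp _) =
      hf2.toLp f := by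
    have e1 : (Lp.compMeasurePreservingₗᵢ ℂ ee.symm ee_mp').toContinuousLinearMap (hF.toLp _) =
      (hF.comp_measurePreserving ee_mp').toLp ((fun X : Fin 1 → ℝ => f (X 0)) ∘ ee.symm) := rfl
    rw [e1]
    apply MemLp.toLp_congr
    exact Eventually.of_forall fun x => rfl
  have h2 : T1 (hF.toLp _) =
      ((hilb_mem hf hi hM).comp_measurePreserving ee_mp).toLp (hilb f ∘ ee) := by
    unfold T1
    rw [ContinuousLinearMap.comp_apply, ContinuousLinearMap.comp_apply, h1, T0_eq hf hi hM]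
    rfl
  rw [h2]
  exact MemLp.coeFn_toLp _

end Run7.h664
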