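import Pool.Agent.Run7.h664.S5
import Pool.Agent.H433R3.Ml11

/-!
The weighted bound for `A_p` weights.
-/

set_option autoImplicit false

open MeasureTheory Filter Topology Set
open scoped ENNReal NNReal Real

namespace Run7.h664

section ap

variable {p : ℝ} {W : ℝ → ℝ≥0}

lemma IsAp.pos_ae (hp : 1 < p) (h : IsAp p W) : ∀ᵐ x, W x ≠ 0 := by
  obtain ⟨hW, C, hC⟩ := h
  by_contra hcon
  have hE : volume {x | W x = 0} ≠ 0 := by
    intro h0
    apply hcon
    rw [ae_iff]
    simpa using h0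
  have hEm : MeasurableSet {x | W x = 0} := hW.meas (measurableSet_singleton 0)
  have hmono : Monotone fun n : ℕ => {x | W x = 0} ∩ Icc (-(n:ℝ)) n := by
    intro m n hmn
    have h : (m:ℝ) ≤ n := by exact_mod_cast hmn
    exact inter_subset_inter_right _ (Icc_subset_Icc (by linarith) h)
  have hU : (⋃ n : ℕ, ({x | W x = 0} ∩ Icc (-(n:ℝ)) n)) = {x | W x = 0} := by
    rw [← inter_iUnion]
    apply inter_eq_left.2
    intro y _
    obtain ⟨n, hn⟩ := exists_nat_gt |y|
    rw [mem_iUnion]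
    have := abs_lt.1 hn
    exact ⟨n, this.1.le, this.2.le⟩
  have hex : ∃ n : ℕ, volume ({x | W x = 0} ∩ Icc (-(n:ℝ)) n) ≠ 0 := by
    by_contra hc
    push Not at hc
    apply hE
    rw [← hU]
    exact measure_iUnion_null hc
  obtain ⟨n, hn⟩ := hex
  have hall : ∀ m : ℕ, n ≤ m → ∫⁻ x in Icc (-(m:ℝ)) m, (W x : ℝ≥0∞) = 0 := by
    intro m hnm
    have hm0 : 0 < m := by
      rcases Nat.eq_zero_or_pos m with h0 | h0
      · exfalso
        have hn0 : n = 0 := by omega
        rw [hn0] at hn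
        apply hn
        refine measure_mono_null inter_subset_right ?_
        simp
      · exact h0
    have hmR : (0:ℝ) < m := by exact_mod_cast hm0
    have hinf : ∫⁻ x in Icc (-(m:ℝ)) m, (W x : ℝ≥0∞) ^ (-(1 / (p - 1))) = ∞ := by
      rw [eq_top_iff]
      calc (∞ : ℝ≥0∞) = ∞ * volume ({x | W x = 0} ∩ Icc (-(m:ℝ)) m) := by
            rw [ENNReal.top_mul]
            intro h0
            exact hn (measure_mono_null (hmono hnm) h0)
        _ = ∫⁻ x in {x | W x = 0} ∩ Icc (-(m:ℝ)) m, ∞ := by rw [setLIntegral_const]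
        _ ≤ ∫⁻ x in {x | W x = 0} ∩ Icc (-(m:ℝ)) m, (W x : ℝ≥0∞) ^ (-(1 / (p - 1))) := by
            apply setLIntegral_mono' (hEm.inter measurableSet_Icc)
            intro x hx
            have h0 : W x = 0 := hx.1
            rw [h0, ENNReal.coe_zero, ENNReal.zero_rpow_of_neg]
            have : 0 < 1 / (p - 1) := by
              apply one_div_pos.2; linarith
            linarith
        _ ≤ _ := lintegral_mono_set inter_subset_right
    have h1 := hC (-(m:ℝ)) m (by linarith)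
    rw [hinf, ENNReal.top_div_of_ne_top ENNReal.ofReal_ne_top,
      ENNReal.top_rpow_of_pos (by linarith)] at h1
    by_contra hne
    rw [ENNReal.mul_top (ENNReal.div_ne_zero.2 ⟨hne, ENNReal.ofReal_ne_top⟩)] at h1
    exact absurd h1 (by simp)
  apply hW.ne_zero
  have h2 : ∀ m : ℕ, ∀ᵐ x, x ∈ Icc (-((m + n : ℕ):ℝ)) ((m + n : ℕ):ℝ) → W x = 0 := by
    intro m
    have h3 := hall (m + n) (by omega)
    rw [setLIntegral_eq_zero_iff measurableSet_Icc hW.meas.coe_nnreal_ennreal] at h3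
    filter_upwards [h3] with x hx hxm
    exact_mod_cast hx hxm
  filter_upwards [ae_all_iff.2 h2] with x hx
  obtain ⟨m, hm⟩ := exists_nat_gt |x|
  apply hx m
  have := abs_lt.1 hm
  have h4 : (0:ℝ) ≤ n := by positivity
  push_cast
  constructor <;> linarith

lemma IsAp.sig_fin (hp : 1 < p) (h : IsAp p W) {a b : ℝ} (hab : a < b) :
    ∫⁻ x in Icc a b, (W x : ℝ≥0∞) ^ (-(1 / (p - 1))) < ∞ := by
  have hpos := h.pos_ae hp
  obtain ⟨hW, C, hC⟩ := h
  have h1 := hC a b hab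
  rw [lt_top_iff_ne_top]
  intro hinf
  rw [hinf, ENNReal.top_div_of_ne_top ENNReal.ofReal_ne_top,
      ENNReal.top_rpow_of_pos (by linarith)] at h1
  have hne : ∫⁻ x in Icc a b, (W x : ℝ≥0∞) ≠ 0 := by
    intro h0
    rw [setLIntegral_eq_zero_iff measurableSet_Icc hW.meas.coe_nnreal_ennreal] at h0
    have h2 : ∀ᵐ x, x ∉ Icc a b := by
      filter_upwards [h0, hpos] with x hx1 hx2 hx3
      exact hx2 (by exact_mod_cast hx1 hx3)
    have h3 : volume (Icc a b) = 0 := by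
      rw [ae_iff] at h2
      exact measure_mono_null (fun x (hx : x ∈ Icc a b) => not_not.2 hx) h2
    rw [Real.volume_Icc, ENNReal.ofReal_eq_zero] at h3
    linarith
  rw [ENNReal.mul_top (ENNReal.div_ne_zero.2 ⟨hne, ENNReal.ofReal_ne_top⟩)] at h1
  exact absurd h1 (by simp)

/-- a positive representative -/
noncomputable def ww (W : ℝ → ℝ≥0) (x : ℝ) : ℝ := if W x = 0 then 1 else (W x : ℝ)

lemma ww_pos (W : ℝ → ℝ≥0) (x : ℝ) : 0 < ww W x := by
  unfold ww
  split_ifs with h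
  · exact one_pos
  · exact NNReal.coe_pos.2 (pos_iff_ne_zero.2 h)

lemma ww_meas (hW : Measurable W) : Measurable (ww W) :=
  Measurable.ite (hW (measurableSet_singleton 0)) measurable_const hW.coe_nnreal_real

lemma ww_eq {x : ℝ} (h : W x ≠ 0) : ww W x = W x := by
  unfold ww
  rw [if_neg h]

lemma ww_int (hp : 1 < p) (h : IsAp p W) (a b : ℝ) : IntegrableOn (ww W) (Icc a b) := by
  have h1 := h.1.loc.integrableOn_isCompact (isCompact_Icc (a := a) (b := b))
  refine h1.congr_fun_ae (ae_restrict_of_ae ?_)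
  filter_upwards [h.pos_ae hp] with x hx
  exact (ww_eq hx).symm

lemma ofReal_ww (hp : 1 < p) {q : ℝ} (hpq : p.HolderConjugate q) {x : ℝ} (h : W x ≠ 0) :
    ENNReal.ofReal (ww W x ^ (1 - q)) = (W x : ℝ≥0∞) ^ (-(1 / (p - 1))) := by
  have hq : 1 - q = -(1 / (p - 1)) := by
    have := hpq.conjugate_eq
    rw [this]
    have : p - 1 ≠ 0 := by linarith
    field_simp
    ring
  rw [hq, ww_eq h]
  have h0 : (0:ℝ) < W x := NNReal.coe_pos.2 (pos_iff_ne_zero.2 h)
  rw [← ENNReal.ofReal_rpow_of_pos h0, ENNReal.ofReal_coe_nnreal]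

lemma ww_dual_int (hp : 1 < p) {q : ℝ} (hpq : p.HolderConjugate q) (h : IsAp p W) {a b : ℝ}
    (hab : a < b) : IntegrableOn (fun x => ww W x ^ (1 - q)) (Icc a b) := by
  refine ⟨((ww_meas h.1.meas).pow_const _).aestronglyMeasurable, ?_⟩
  unfold HasFiniteIntegral
  refine lt_of_eq_of_lt ?_ (h.sig_fin hp hab)
  apply lintegral_congr_ae
  apply ae_restrict_of_ae
  filter_upwards [h.pos_ae hp] with x hx
  rw [Real.enorm_of_nonneg (Real.rpow_nonneg (ww_pos W x).le _), ofReal_ww hp hpq hx]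

/-- the `A_p` inequality for averages over half open intervals -/
lemma ww_ap (hp : 1 < p) {q : ℝ} (hpq : p.HolderConjugate q) (h : IsAp p W) :
    ∃ C : ℝ≥0, ∀ a l : ℝ, 0 < l → (l⁻¹ * ∫ x in Ico a (a + l), ww W x) *
      (l⁻¹ * ∫ x in Ico a (a + l), ww W x ^ (1 - q)) ^ (p - 1) ≤ C := by
  obtain ⟨C, hC⟩ := h.2
  refine ⟨C, fun a l hl => ?_⟩
  have hab : a < a + l := by linarith
  have h1 := hC a (a + l) hab
  set A := ∫ x in Ico a (a + l), ww W x with hA
  set B := ∫ x in Ico a (a + l), ww W x ^ (1 - q) with hB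
  have hA0 : 0 ≤ A := integral_nonneg fun x => (ww_pos W x).le
  have hB0 : 0 ≤ B := integral_nonneg fun x => Real.rpow_nonneg (ww_pos W x).le _
  have e1 : ∫⁻ x in Icc a (a + l), (W x : ℝ≥0∞) = ENNReal.ofReal A := by
    rw [hA, ofReal_integral_eq_lintegral_ofReal ((ww_int hp h a (a + l)).mono_set Ico_subset_Icc_self)
      (Eventually.of_forall fun x => (ww_pos W x).le), setLIntegral_congr Ico_ae_eq_Icc]
    apply lintegral_congr_ae
    apply ae_restrict_of_ae
    filter_upwards [h.pos_ae hp] with x hx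
    rw [ww_eq hx, ENNReal.ofReal_coe_nnreal]
  have e2 : ∫⁻ x in Icc a (a + l), (W x : ℝ≥0∞) ^ (-(1 / (p - 1))) = ENNReal.ofReal B := by
    rw [hB, ofReal_integral_eq_lintegral_ofReal
      ((ww_dual_int hp hpq h hab).mono_set Ico_subset_Icc_self)
      (Eventually.of_forall fun x => Real.rpow_nonneg (ww_pos W x).le _),
      setLIntegral_congr Ico_ae_eq_Icc]
    apply lintegral_congr_ae
    apply ae_restrict_of_ae
    filter_upwards [h.pos_ae hp] with x hx
    exact (ofReal_ww hp hpq hx).symm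
  rw [e1, e2, add_sub_cancel_left, ← ENNReal.ofReal_div_of_pos hl, ← ENNReal.ofReal_div_of_pos hl,
    ENNReal.ofReal_rpow_of_nonneg (by positivity) (by linarith),
    ← ENNReal.ofReal_mul (by positivity), ← ENNReal.ofReal_coe_nnreal (p := C)] at h1
  have h2 := (ENNReal.ofReal_le_ofReal_iff C.coe_nonneg).1 h1
  rw [inv_mul_eq_div, inv_mul_eq_div]
  exact h2

end ap

open Pool.Agent.H433R3.Sep in
lemma cube_eq (c : Fin 1 → ℝ) (l : ℝ) : cube c l = ee ⁻¹' Ico (c 0) (c 0 + l) := by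
  ext X
  rw [mem_preimage, ee_apply, mem_Ico]
  constructor
  · intro h
    exact h 0
  · intro h i
    rw [Subsingleton.elim i 0]
    exact h

open Pool.Agent.H433R3.Sep in
lemma vol_cube (c : Fin 1 → ℝ) {l : ℝ} (hl : 0 < l) : (volume (cube c l)).toReal = l := by
  rw [cube_eq, ee_mp.measure_preimage_equiv, Real.volume_Ico, add_sub_cancel_left,
    ENNReal.toReal_ofReal hl.le]

open Pool.Agent.H433R3.Sep in
lemma int_cube (v : ℝ → ℝ) (c : Fin 1 → ℝ) (l : ℝ) :
    ∫ X in cube c l, v (X 0) = ∫ x in Ico (c 0) (c 0 + l), v x := by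
  rw [cube_eq]
  exact ee_mp.setIntegral_preimage_emb ee.measurableEmbedding v (Ico (c 0) (c 0 + l))

open Pool.Agent.H433R3.Sep in
lemma intOn_cube {v : ℝ → ℝ} {c : Fin 1 → ℝ} {l : ℝ} (h : IntegrableOn v (Ico (c 0) (c 0 + l))) :
    IntegrableOn (fun X : Fin 1 → ℝ => v (X 0)) (cube c l) := by
  rw [cube_eq]
  exact (ee_mp.integrableOn_comp_preimage ee.measurableEmbedding).2 h

open Pool.Agent.H433R3 in
lemma AV_cube (v : ℝ → ℝ) (c : Fin 1 → ℝ) {l : ℝ} (hl : 0 < l) :
    Ml.AV (fun X : Fin 1 → ℝ => v (X 0)) (Sep.cube c l) = l⁻¹ * ∫ x in Ico (c 0) (c 0 + l), v x := by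
  unfold Ml.AV
  rw [vol_cube c hl, int_cube]

open Pool.Agent.H433R3 in
/-- The weighted bound for bounded functions with bounded support. -/
theorem ap_bound {p : ℝ} (hp : 1 < p) {W : ℝ → ℝ≥0} (hW : IsAp p W) :
    ∃ C : ℝ≥0, ∀ f : ℝ → ℂ, Measurable f → (∃ M : ℝ, ∀ x, ‖f x‖ ≤ M) →
      (∃ R : ℝ, ∀ x, R < |x| → f x = 0) →
      ∫⁻ x, ‖hilb f x‖ₑ ^ p * W x ≤ C * ∫⁻ x, ‖f x‖ₑ ^ p * W x := by
  have hp0 : 0 < p := by linarith
  set q : ℝ := p / (p - 1) with hq
  have hpq : p.HolderConjugate q := Real.HolderConjugate.conjExponent hp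
  have hq1 : 1 < q := hpq.symm.lt
  have hq0 := hpq.symm.pos
  have hp' : 1 / p < 1 := by rw [div_lt_one hp0]; exact hp
  have hq' : 1 / q < 1 := by rw [div_lt_one hq0]; exact hq1
  obtain ⟨C, hC⟩ := Ml.czoGen one_pos T1_czo hpq hp' hq'
  obtain ⟨N, hN⟩ := ww_ap hp hpq hW
  set w : (Fin 1 → ℝ) → ℝ := fun X => ww W (X 0) with hw
  have hsg : Ml.sg q w = fun X : Fin 1 → ℝ => (fun x => ww W x ^ (1 - q)) (X 0) := rfl
  have hWD : Ml.WData q w := by
    refine ⟨(ww_meas hW.1.meas).comp (measurable_pi_apply 0), fun X => ww_pos W _, ?_, ?_⟩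
    · intro c l hl
      exact intOn_cube ((ww_int hp hW _ _).mono_set Ico_subset_Icc_self)
    · intro c l hl
      rw [hsg]
      exact intOn_cube (v := fun x => ww W x ^ (1 - q))
        ((ww_dual_int hp hpq hW (by linarith)).mono_set Ico_subset_Icc_self)
  have hA0 : ∀ a l : ℝ, 0 < l → 0 ≤ l⁻¹ * ∫ x in Ico a (a + l), ww W x := fun a l hl =>
    mul_nonneg (inv_nonneg.2 hl.le) (integral_nonneg fun x => (ww_pos W x).le)
  have hB0 : ∀ a l : ℝ, 0 < l → 0 ≤ l⁻¹ * ∫ x in Ico a (a + l), ww W x ^ (1 - q) := fun a l hl =>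
    mul_nonneg (inv_nonneg.2 hl.le) (integral_nonneg fun x => Real.rpow_nonneg (ww_pos W x).le _)
  have hone : Ml.OneSup p 1 N w (Ml.sg q w) := by
    intro c l hl
    rw [hsg, hw, AV_cube _ c hl, AV_cube (fun x => ww W x ^ (1 - q)) c hl, sub_self, Real.rpow_zero,
      mul_one, Real.rpow_one]
    exact hN _ _ hl
  have hone' : Ml.OneSup q 1 ((N : ℝ) ^ (q - 1)) (Ml.sg q w) w := by
    intro c l hl
    rw [hsg, hw, AV_cube _ c hl, AV_cube (fun x => ww W x ^ (1 - q)) c hl, sub_self, Real.rpow_zero,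
      mul_one, Real.rpow_one]
    have h1 := hN (c 0) l hl
    have h2 := Real.rpow_le_rpow (mul_nonneg (hA0 _ _ hl) (Real.rpow_nonneg (hB0 _ _ hl) _)) h1
      (show 0 ≤ q - 1 by linarith)
    rw [Real.mul_rpow (hA0 _ _ hl) (Real.rpow_nonneg (hB0 _ _ hl) _),
      ← Real.rpow_mul (hB0 _ _ hl)] at h2
    have e : (p - 1) * (q - 1) = 1 := by
      rw [hq]
      have : p - 1 ≠ 0 := by linarith
      field_simp
      ring
    rw [e, Real.rpow_one] at h2
    rw [mul_comm]
    exact h2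
  set D : ℝ≥0∞ := C * ENNReal.ofReal ((N + (N : ℝ) ^ (q - 1)) ^ p) with hD
  have hDt : D ≠ ∞ := ENNReal.mul_ne_top ENNReal.coe_ne_top ENNReal.ofReal_ne_top
  refine ⟨D.toNNReal, fun f hf hM hR => ?_⟩
  rw [ENNReal.coe_toNNReal hDt]
  obtain ⟨M, hM⟩ := hM
  obtain ⟨R, hR⟩ := hR
  have hM0 : 0 ≤ M := (norm_nonneg _).trans (hM 0)
  have hfI : ∀ x, f x = (Icc (-R) R).indicator f x := by
    intro x
    by_cases hx : x ∈ Icc (-R) R
    · rw [indicator_of_mem hx]
    · rw [indicator_of_notMem hx]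
      apply hR
      by_contra hc
      exact hx (abs_le.1 (not_lt.1 hc))
  have hi : Integrable f := by
    rw [show f = (Icc (-R) R).indicator f from funext hfI]
    rw [integrable_indicator_iff measurableSet_Icc]
    apply Integrable.of_bound (C := M)
    · exact hf.aestronglyMeasurable
    · exact Eventually.of_forall hM
  have hf2 := bdd_mem hi hM
  -- integrals
  have hwE : ∀ᵐ x, ENNReal.ofReal (ww W x) = (W x : ℝ≥0∞) := by
    filter_upwards [hW.pos_ae hp] with x hx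
    rw [ww_eq hx, ENNReal.ofReal_coe_nnreal]
  have hconv : ∀ g : ℝ → ℂ, AEStronglyMeasurable g volume →
      ∫⁻ X, ‖g (X 0)‖ₑ ^ p ∂(Ml.WM w) = ∫⁻ x, ‖g x‖ₑ ^ p * W x := by
    intro g hg
    unfold Ml.WM
    have hgm : AEMeasurable (fun X : Fin 1 → ℝ => ‖g (X 0)‖ₑ ^ p) volume :=
      ((hg.comp_measurePreserving ee_mp).enorm).pow_const p
    have hwm : AEMeasurable (fun X : Fin 1 → ℝ => ENNReal.ofReal (w X)) volume :=
      (hWD.meas.ennreal_ofReal).aemeasurable
    rw [lintegral_withDensity_eq_lintegral_mul₀ hwm hgm]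
    have h1 := ee_mp.lintegral_comp_emb ee.measurableEmbedding
      (fun x => ENNReal.ofReal (ww W x) * ‖g x‖ₑ ^ p)
    refine Eq.trans ?_ (h1.trans ?_)
    · rfl
    · apply lintegral_congr_ae
      filter_upwards [hwE] with x hx
      rw [hx, mul_comm]
  have hfin : ∫⁻ x, ‖f x‖ₑ ^ p * W x ≠ ∞ := by
    have h1 : ∫⁻ x, ‖f x‖ₑ ^ p * W x ≤ ∫⁻ x in Icc (-R) R, ENNReal.ofReal M ^ p * W x := by
      rw [← lintegral_indicator measurableSet_Icc]
      apply lintegral_mono
      intro x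
      by_cases hx : x ∈ Icc (-R) R
      · rw [indicator_of_mem hx]
        have h2 : ‖f x‖ₑ ≤ ENNReal.ofReal M := by
          rw [← ofReal_norm]
          exact ENNReal.ofReal_le_ofReal (hM x)
        exact mul_le_mul' (ENNReal.rpow_le_rpow h2 hp0.le) le_rfl
      · rw [indicator_of_notMem hx]
        have : f x = 0 := by rw [hfI, indicator_of_notMem hx]
        simp only [this, enorm_zero, ENNReal.zero_rpow_of_pos hp0, zero_mul, le_refl]
    refine (h1.trans_lt ?_).ne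
    have hMt : ENNReal.ofReal M ^ p ≠ ∞ := ENNReal.rpow_ne_top_of_nonneg hp0.le ENNReal.ofReal_ne_top
    rw [lintegral_const_mul' _ _ hMt]
    exact ENNReal.mul_lt_top hMt.lt_top (hW.1.fin_Icc _ _)
  have hF2 : MemLp (fun X : Fin 1 → ℝ => f (X 0)) 2 volume := hf2.comp_measurePreserving ee_mp
  have h1 := (hC w hWD N N.coe_nonneg hone (fun X : Fin 1 → ℝ => f (X 0)) hF2 (by
    rw [hconv f hf.aestronglyMeasurable]; exact hfin)).2 ((N : ℝ) ^ (q - 1)) (by positivity) hone'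
  rw [hconv f hf.aestronglyMeasurable] at h1
  have hac : Ml.WM w ≪ volume := withDensity_absolutelyContinuous _ _
  have h2 : ∫⁻ Y, ‖Sep.TT T1 (fun X : Fin 1 → ℝ => f (X 0)) Y‖ₑ ^ p ∂(Ml.WM w) =
      ∫⁻ x, ‖hilb f x‖ₑ ^ p * W x := by
    rw [← hconv (hilb f) (hilb_aesm hi.1 (pv_ae hi))]
    apply lintegral_congr_ae
    filter_upwards [hac.ae_le (TT_eq' hf hi hM)] with X hX
    rw [hX]
  rw [h2] at h1
  exact h1

end Run7.h664
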