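import Pool.Agent.Run7.h664.S6

/-!
Sufficiency: the three classes of weights are admissible.
-/

set_option autoImplicit false

open MeasureTheory Filter Topology Set
open scoped ENNReal NNReal Real

namespace Run7.h664

/-- bounded measurable functions with bounded support -/
structure BC (f : ℝ → ℂ) : Prop where
  meas : Measurable f
  bdd : ∃ M : ℝ, ∀ x, ‖f x‖ ≤ M
  supp : ∃ R : ℝ, ∀ x, R < |x| → f x = 0

lemma BC.int {f : ℝ → ℂ} (h : BC f) : Integrable f := by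
  obtain ⟨M, hM⟩ := h.bdd
  obtain ⟨R, hR⟩ := h.supp
  have hfI : f = (Icc (-R) R).indicator f := by
    funext x
    by_cases hx : x ∈ Icc (-R) R
    · rw [indicator_of_mem hx]
    · rw [indicator_of_notMem hx]
      apply hR
      by_contra hc
      exact hx (abs_le.1 (not_lt.1 hc))
  rw [hfI, integrable_indicator_iff measurableSet_Icc]
  apply Integrable.of_bound (C := M)
  · exact h.meas.aestronglyMeasurable
  · exact Eventually.of_forall hM

lemma BC.cut {f : ℝ → ℂ} (hf : Measurable f) (n : ℕ) : BC (cut f n) :=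
  ⟨cut_meas hf n, ⟨_, cut_bdd f n⟩, ⟨_, cut_supp f n⟩⟩

lemma BC.sub {f g : ℝ → ℂ} (hf : BC f) (hg : BC g) : BC (fun x => f x - g x) := by
  obtain ⟨M, hM⟩ := hf.bdd
  obtain ⟨R, hR⟩ := hf.supp
  obtain ⟨M', hM'⟩ := hg.bdd
  obtain ⟨R', hR'⟩ := hg.supp
  refine ⟨hf.meas.sub hg.meas, ⟨M + M', fun x => (norm_sub_le _ _).trans (add_le_add (hM x) (hM' x))⟩,
    ⟨max R R', fun x hx => ?_⟩⟩
  rw [hR x ((le_max_left _ _).trans_lt hx), hR' x ((le_max_right _ _).trans_lt hx), sub_zero]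

lemma BC.mul {f : ℝ → ℂ} (hf : BC f) (a : ℝ) : BC (fun x => ((x - a : ℝ) : ℂ) * f x) := by
  obtain ⟨M, hM⟩ := hf.bdd
  obtain ⟨R, hR⟩ := hf.supp
  have hM0 : 0 ≤ M := (norm_nonneg _).trans (hM 0)
  refine ⟨?_, ⟨(|R| + |a|) * M, fun x => ?_⟩, ⟨R, fun x hx => by rw [hR x hx, mul_zero]⟩⟩
  · have := hf.meas
    fun_prop
  · by_cases hx : R < |x|
    · rw [hR x hx, mul_zero, norm_zero]
      positivity
    · rw [norm_mul, Complex.norm_real, Real.norm_eq_abs]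
      have h1 : |x| ≤ |R| := (not_lt.1 hx).trans (le_abs_self R)
      have h2 := abs_sub x a
      exact mul_le_mul (h2.trans (by linarith)) (hM x) (norm_nonneg _) (by positivity)

/-- indicator of `[0,1]` -/
noncomputable def one01 : ℝ → ℂ := (Icc (0:ℝ) 1).indicator (fun _ => 1)

lemma one01_le (x : ℝ) : ‖one01 x‖ ≤ 1 := by
  unfold one01
  by_cases hx : x ∈ Icc (0:ℝ) 1
  · rw [indicator_of_mem hx, norm_one]
  · rw [indicator_of_notMem hx, norm_zero]; norm_num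

lemma one01_bc (c : ℂ) : BC (fun x => c * one01 x) := by
  refine ⟨(measurable_const.indicator measurableSet_Icc).const_mul c, ⟨‖c‖, fun x => ?_⟩,
    ⟨1, fun x hx => ?_⟩⟩
  · rw [norm_mul]
    exact mul_le_of_le_one_right (norm_nonneg _) (one01_le x)
  · unfold one01
    rw [indicator_of_notMem, mul_zero]
    intro h
    rw [abs_of_nonneg h.1] at hx
    exact absurd h.2 (not_le.2 hx)

lemma one01_integral : ∫ x, one01 x = 1 := by
  unfold one01
  rw [integral_indicator measurableSet_Icc, setIntegral_const]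
  simp [Measure.real]

lemma one01_int : Integrable one01 := by
  have := (one01_bc 1).int
  simpa using this

lemma hilb_le_MT {g : ℝ → ℂ} {x : ℝ} (h : ∃ v, PV g x v) : ‖hilb g x‖ₑ ≤ MT g x := by
  obtain ⟨v, hv⟩ := h
  have h1 : Tendsto (fun δ => trunc g δ x) (𝓝[>] (0:ℝ)) (𝓝 (hilb g x)) := hv.self
  refine le_of_tendsto h1.enorm ?_
  filter_upwards [self_mem_nhdsWithin] with δ hδ
  exact le_MT g x hδ

/-- convergence in measure from convergence in `L¹` -/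
lemma hilb_tim {f : ℝ → ℂ} (hi : Integrable f) {g : ℕ → ℝ → ℂ} (hg : ∀ n, Integrable (g n))
    (h : Tendsto (fun n => ∫⁻ x, ‖f x - g n x‖ₑ) atTop (𝓝 0)) :
    TendstoInMeasure volume (fun n => hilb (g n)) atTop (hilb f) := by
  obtain ⟨W, hW⟩ := weak_L1
  intro ε hε
  rcases eq_or_ne ε ∞ with rfl | hεt
  · have : ∀ n, volume {x | ∞ ≤ edist (hilb (g n) x) (hilb f x)} = 0 := by
      intro n
      have : {x | ∞ ≤ edist (hilb (g n) x) (hilb f x)} = ∅ := by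
        ext x
        simp only [mem_ofPred_eq, mem_empty_iff_false, iff_false, not_le]
        exact edist_lt_top _ _
      rw [this, measure_empty]
    simp only [this]
    exact tendsto_const_nhds
  · set lam : ℝ≥0 := (ε / 2).toNNReal with hlam
    have hl : (lam : ℝ≥0∞) = ε / 2 :=
      ENNReal.coe_toNNReal (ENNReal.div_lt_top hεt (by norm_num)).ne
    have hl0 : (lam : ℝ≥0∞) ≠ 0 := by rw [hl]; exact (ENNReal.div_pos hε.ne' (by norm_num)).ne'
    have hl0' : 0 < lam := pos_iff_ne_zero.2 (by exact_mod_cast hl0)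
    have hle : (lam : ℝ≥0∞) < ε := by
      rw [hl]
      exact ENNReal.half_lt_self hε.ne' hεt
    have hb : ∀ n, volume {x | ε ≤ edist (hilb (g n) x) (hilb f x)} ≤
        (W * ∫⁻ x, ‖f x - g n x‖ₑ) / lam := by
      intro n
      rw [ENNReal.le_div_iff_mul_le (Or.inl hl0) (Or.inl ENNReal.coe_ne_top), mul_comm]
      refine le_trans ?_ (hW (fun x => f x - g n x) (hi.sub (hg n)) lam hl0')
      gcongr 1
      apply measure_mono_ae
      filter_upwards [hilb_sub hi (hg n), pv_ae (hi.sub (hg n))] with x hx1 hx2 hx3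
      have h1 : ε ≤ edist (hilb (g n) x) (hilb f x) := hx3
      show (lam : ℝ≥0∞) < MT (fun x => f x - g n x) x
      have h2 := hilb_le_MT hx2
      have h3 : hilb (f - g n) x = hilb f x - hilb (g n) x := hx1
      rw [h3, ← edist_eq_enorm_sub, edist_comm] at h2
      exact hle.trans_le (h1.trans h2)
    have ht : Tendsto (fun n => (W * ∫⁻ x, ‖f x - g n x‖ₑ) / lam) atTop (𝓝 0) := by
      have h1 := ENNReal.Tendsto.const_mul (a := (W : ℝ≥0∞)) h (Or.inr ENNReal.coe_ne_top)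
      rw [mul_zero] at h1
      have h2 := ENNReal.Tendsto.div_const h1 (Or.inr hl0)
      rwa [ENNReal.zero_div] at h2
    exact tendsto_of_tendsto_of_tendsto_of_le_of_le tendsto_const_nhds ht (fun n => bot_le) hb

/-- It is enough to consider bounded functions with bounded support. -/
theorem admissible_of_bc {p : ℝ} (hp : 1 < p) {U : ℝ → ℝ≥0} (hU : IsWeight U) {C : ℝ≥0}
    (h : ∀ f, BC f → ∫ x, f x = 0 →
      ∫⁻ x, ‖hilb f x‖ₑ ^ p * U x ≤ C * ∫⁻ x, ‖f x‖ₑ ^ p * U x) : Admissible p U := by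
  have hp0 : 0 < p := by linarith
  set D : ℝ≥0∞ := C * 2 ^ (p - 1) with hD
  have hDt : D ≠ ∞ :=
    ENNReal.mul_ne_top ENNReal.coe_ne_top (ENNReal.rpow_ne_top_of_nonneg (by linarith) (by norm_num))
  refine ⟨D.toNNReal + 1, fun f₀ hi₀ h0₀ => ?_⟩
  obtain ⟨f, hf, hff⟩ := hi₀.1.aemeasurable
  have hi : Integrable f := hi₀.congr hff
  have h0 : ∫ x, f x = 0 := by rw [← integral_congr_ae hff]; exact h0₀
  have e0 : ∫⁻ x, ‖f₀ x‖ₑ ^ p * U x = ∫⁻ x, ‖f x‖ₑ ^ p * U x := by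
    apply lintegral_congr_ae
    filter_upwards [hff] with x hx
    rw [hx]
  rw [hilb_congr hff, e0]
  set X := ∫⁻ x, ‖f x‖ₑ ^ p * U x with hX
  have hle : D * X ≤ ((D.toNNReal + 1 : ℝ≥0) : ℝ≥0∞) * X := by
    gcongr
    rw [ENNReal.coe_add, ENNReal.coe_toNNReal hDt]
    exact le_self_add
  refine le_trans ?_ hle
  -- approximations
  set c : ℕ → ℂ := fun n => ∫ x, cut f n x with hc
  set g : ℕ → ℝ → ℂ := fun n x => cut f n x - c n * one01 x with hg
  have hgBC : ∀ n, BC (g n) := fun n => (BC.cut hf n).sub (one01_bc (c n))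
  have hg0 : ∀ n, ∫ x, g n x = 0 := by
    intro n
    rw [hg]
    simp only
    rw [integral_sub (cut_int hf hi n) (one01_int.const_mul _), integral_const_mul, one01_integral,
      mul_one, sub_self]
  have hct := cut_tendsto hf hi
  have hcb : ∀ n, ‖c n‖ₑ ≤ ∫⁻ x, ‖f x - cut f n x‖ₑ := by
    intro n
    have e1 : c n = -∫ x, (f x - cut f n x) := by
      rw [integral_sub hi (cut_int hf hi n), h0, zero_sub, neg_neg]
    rw [e1, enorm_neg]
    exact enorm_integral_le_lintegral_enorm _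
  have hc0 : Tendsto (fun n => ‖c n‖ₑ) atTop (𝓝 0) :=
    tendsto_of_tendsto_of_tendsto_of_le_of_le tendsto_const_nhds hct (fun n => bot_le) hcb
  have hgl : Tendsto (fun n => ∫⁻ x, ‖f x - g n x‖ₑ) atTop (𝓝 0) := by
    have h1 : ∀ n, ∫⁻ x, ‖f x - g n x‖ₑ ≤ (∫⁻ x, ‖f x - cut f n x‖ₑ) +
        ‖c n‖ₑ * ∫⁻ x, ‖one01 x‖ₑ := by
      intro n
      have hm : Measurable fun x => ‖f x - cut f n x‖ₑ := (hf.sub (cut_meas hf n)).enorm
      rw [← lintegral_const_mul' _ _ enorm_ne_top, ← lintegral_add_left hm]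
      apply lintegral_mono
      intro x
      have e1 : f x - g n x = (f x - cut f n x) + c n * one01 x := by rw [hg]; ring
      show ‖f x - g n x‖ₑ ≤ _
      rw [e1]
      refine (enorm_add_le _ _).trans ?_
      rw [enorm_mul]
    have h2 : Tendsto (fun n => (∫⁻ x, ‖f x - cut f n x‖ₑ) + ‖c n‖ₑ * ∫⁻ x, ‖one01 x‖ₑ) atTop
        (𝓝 (0 + 0 * ∫⁻ x, ‖one01 x‖ₑ)) :=
      hct.add (ENNReal.Tendsto.mul_const hc0 (Or.inr one01_int.2.ne))
    rw [zero_mul, add_zero] at h2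
    exact tendsto_of_tendsto_of_tendsto_of_le_of_le tendsto_const_nhds h2 (fun n => bot_le) h1
  obtain ⟨ns, hns, hae⟩ := (hilb_tim hi (fun n => (hgBC n).int) hgl).exists_seq_tendsto_ae
  -- bounds
  set u := ∫⁻ x, ‖one01 x‖ₑ ^ p * U x with hu
  have hut : u ≠ ∞ := by
    have h1 : u ≤ ∫⁻ x in Icc (0:ℝ) 1, (U x : ℝ≥0∞) := by
      rw [hu, ← lintegral_indicator measurableSet_Icc]
      apply lintegral_mono
      intro x
      unfold one01
      by_cases hx : x ∈ Icc (0:ℝ) 1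
      · simp only [indicator_of_mem hx, enorm_one, ENNReal.one_rpow, one_mul, le_refl]
      · simp only [indicator_of_notMem hx, enorm_zero, ENNReal.zero_rpow_of_pos hp0, zero_mul, le_refl]
    exact (h1.trans_lt (hU.fin_Icc 0 1)).ne
  have hbn : ∀ n, ∫⁻ x, ‖hilb (g n) x‖ₑ ^ p * U x ≤ C * (2 ^ (p - 1) * (X + ‖c n‖ₑ ^ p * u)) := by
    intro n
    refine (h (g n) (hgBC n) (hg0 n)).trans ?_
    gcongr
    have hm1 : Measurable fun x => ‖f x‖ₑ ^ p * (U x : ℝ≥0∞) :=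
      (hf.enorm.pow_const _).mul hU.meas.coe_nnreal_ennreal
    have hom : Measurable one01 := measurable_const.indicator measurableSet_Icc
    have hm2 : Measurable fun x => ‖one01 x‖ₑ ^ p * (U x : ℝ≥0∞) :=
      (hom.enorm.pow_const _).mul hU.meas.coe_nnreal_ennreal
    rw [hX, hu, ← lintegral_const_mul _ hm2, ← lintegral_add_left hm1,
      ← lintegral_const_mul' _ _ (ENNReal.rpow_ne_top_of_nonneg (by linarith) (by norm_num))]
    apply lintegral_mono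
    intro x
    show ‖g n x‖ₑ ^ p * U x ≤ _
    have h1 : ‖g n x‖ₑ ≤ ‖f x‖ₑ + ‖c n‖ₑ * ‖one01 x‖ₑ := by
      rw [hg]
      simp only
      refine enorm_sub_le.trans ?_
      rw [enorm_mul]
      exact add_le_add (cut_le f n x) le_rfl
    calc ‖g n x‖ₑ ^ p * (U x : ℝ≥0∞) ≤ (‖f x‖ₑ + ‖c n‖ₑ * ‖one01 x‖ₑ) ^ p * U x := by gcongr
      _ ≤ (2 ^ (p - 1) * (‖f x‖ₑ ^ p + (‖c n‖ₑ * ‖one01 x‖ₑ) ^ p)) * U x := by
          gcongr
          exact ENNReal.rpow_add_le_mul_rpow_add_rpow _ _ hp.le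
      _ = _ := by
          rw [ENNReal.mul_rpow_of_nonneg _ _ hp0.le]
          ring
  have hlimc : Tendsto (fun n => (C : ℝ≥0∞) * (2 ^ (p - 1) * (X + ‖c n‖ₑ ^ p * u))) atTop
      (𝓝 (C * (2 ^ (p - 1) * (X + 0 * u)))) := by
    apply ENNReal.Tendsto.const_mul _ (Or.inr ENNReal.coe_ne_top)
    apply ENNReal.Tendsto.const_mul _
      (Or.inr (ENNReal.rpow_ne_top_of_nonneg (by linarith) (by norm_num)))
    apply Tendsto.add tendsto_const_nhds
    apply ENNReal.Tendsto.mul_const _ (Or.inr hut)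
    have h1 := (ENNReal.continuous_rpow_const (y := p)).tendsto (0 : ℝ≥0∞)
    rw [ENNReal.zero_rpow_of_pos hp0] at h1
    exact h1.comp hc0
  rw [zero_mul, add_zero] at hlimc
  have hmeas : ∀ n, AEMeasurable (fun x => ‖hilb (g n) x‖ₑ ^ p * (U x : ℝ≥0∞)) volume := fun n =>
    ((hilb_aesm (hgBC n).int.1 (pv_ae (hgBC n).int)).enorm.pow_const p).mul
      hU.meas.coe_nnreal_ennreal.aemeasurable
  calc ∫⁻ x, ‖hilb f x‖ₑ ^ p * U x
      = ∫⁻ x, liminf (fun k => ‖hilb (g (ns k)) x‖ₑ ^ p * U x) atTop := by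
        apply lintegral_congr_ae
        filter_upwards [hae] with x hx
        symm
        apply Tendsto.liminf_eq
        apply ENNReal.Tendsto.mul_const _ (Or.inr ENNReal.coe_ne_top)
        exact ((ENNReal.continuous_rpow_const (y := p)).tendsto _).comp hx.enorm
    _ ≤ liminf (fun k => ∫⁻ x, ‖hilb (g (ns k)) x‖ₑ ^ p * U x) atTop :=
        lintegral_liminf_le' fun k => hmeas (ns k)
    _ ≤ liminf (fun k => (C : ℝ≥0∞) * (2 ^ (p - 1) * (X + ‖c (ns k)‖ₑ ^ p * u))) atTop :=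
        liminf_le_liminf (Eventually.of_forall fun k => hbn (ns k))
    _ = C * (2 ^ (p - 1) * X) := (hlimc.comp hns.tendsto_atTop).liminf_eq
    _ = D * X := by rw [hD]; ring

lemma trunc_mul {f : ℝ → ℂ} (hf : BC f) (h0 : ∫ x, f x = 0) (a x : ℝ) {v : ℂ} (hv : PV f x v) :
    PV (fun y => ((y - a : ℝ) : ℂ) * f y) x (((x - a : ℝ) : ℂ) * v) := by
  have hi := hf.int
  have hlim : Tendsto (fun δ : ℝ => ∫ y in {y : ℝ | δ < |y - x|}, f y) (𝓝[>] (0:ℝ)) (𝓝 0) := by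
    have h1 : Tendsto (fun δ : ℝ => ∫ y, ({y : ℝ | δ < |y - x|}).indicator f y) (𝓝[>] (0:ℝ))
        (𝓝 (∫ y, f y)) := by
      apply tendsto_integral_filter_of_dominated_convergence (fun y => ‖f y‖)
      · exact Eventually.of_forall fun δ => (hf.meas.indicator (far_meas δ x)).aestronglyMeasurable
      · exact Eventually.of_forall fun δ => Eventually.of_forall fun y => norm_indicator_le_norm_self _ _
      · exact hi.norm
      · filter_upwards [Measure.ae_ne volume x] with y hy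
        have hne : 0 < |y - x| := abs_pos.mpr (sub_ne_zero.mpr hy)
        have h1 : ∀ᶠ δ : ℝ in 𝓝[>] 0, δ < |y - x| :=
          mem_nhdsWithin_of_mem_nhds (Iio_mem_nhds hne)
        refine tendsto_const_nhds.congr' ?_
        filter_upwards [h1] with δ hδ
        rw [indicator_of_mem]
        exact hδ
    rw [h0] at h1
    refine h1.congr fun δ => ?_
    rw [integral_indicator (far_meas δ x)]
  have hv' : Tendsto (fun δ => trunc f δ x) (𝓝[>] (0:ℝ)) (𝓝 v) := hv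
  have h2 := (hv'.const_mul ((x - a : ℝ) : ℂ)).sub (hlim.const_mul (1 / (π : ℂ)))
  rw [mul_zero, sub_zero] at h2
  refine h2.congr' ?_
  filter_upwards [self_mem_nhdsWithin] with δ hδ
  have hδ0 : 0 < δ := hδ
  unfold trunc
  rw [← mul_assoc, mul_comm ((x - a : ℝ) : ℂ), mul_assoc, ← mul_sub]
  congr 1
  rw [← integral_const_mul, ← integral_sub ((ker_int hi hδ0 x).const_mul _) hi.integrableOn]
  apply setIntegral_congr_fun (far_meas δ x)
  intro y hy
  have hy' : δ < |y - x| := hy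
  have hne : (x : ℂ) - (y : ℂ) ≠ 0 := by
    rw [← Complex.ofReal_sub]
    intro h
    have h3 : x - y = 0 := by exact_mod_cast h
    rw [abs_sub_comm, h3, abs_zero] at hy'
    linarith
  simp only
  push_cast
  field_simp
  ring

lemma mul_bound {p : ℝ} {W : ℝ → ℝ≥0} {C : ℝ≥0} (hp : 0 < p)
    (hW : ∀ f, BC f → ∫⁻ x, ‖hilb f x‖ₑ ^ p * W x ≤ C * ∫⁻ x, ‖f x‖ₑ ^ p * W x) (a : ℝ)
    {f : ℝ → ℂ} (hf : BC f) (h0 : ∫ x, f x = 0) :
    ∫⁻ x, ‖hilb f x‖ₑ ^ p * (‖x - a‖ₑ ^ p * W x) ≤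
      C * ∫⁻ x, ‖f x‖ₑ ^ p * (‖x - a‖ₑ ^ p * W x) := by
  have h1 := hW _ (hf.mul a)
  have e1 : ∫⁻ x, ‖hilb (fun y => ((y - a : ℝ) : ℂ) * f y) x‖ₑ ^ p * W x =
      ∫⁻ x, ‖hilb f x‖ₑ ^ p * (‖x - a‖ₑ ^ p * W x) := by
    apply lintegral_congr_ae
    filter_upwards [pv_ae hf.int] with x hx
    obtain ⟨v, hv⟩ := hx
    rw [(trunc_mul hf h0 a x hv).eq, hv.eq, enorm_mul, ENNReal.mul_rpow_of_nonneg _ _ hp.le,
      ← ofReal_norm, Complex.norm_real, ofReal_norm]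
    ring
  have e2 : ∫⁻ x, ‖((x - a : ℝ) : ℂ) * f x‖ₑ ^ p * W x =
      ∫⁻ x, ‖f x‖ₑ ^ p * (‖x - a‖ₑ ^ p * W x) := by
    apply lintegral_congr
    intro x
    rw [enorm_mul, ENNReal.mul_rpow_of_nonneg _ _ hp.le, ← ofReal_norm, Complex.norm_real,
      ofReal_norm]
    ring
  rwa [e1, e2] at h1

lemma ap_bc {p : ℝ} (hp : 1 < p) {W : ℝ → ℝ≥0} (hW : IsAp p W) : ∃ C : ℝ≥0, ∀ f, BC f →
    ∫⁻ x, ‖hilb f x‖ₑ ^ p * W x ≤ C * ∫⁻ x, ‖f x‖ₑ ^ p * W x := by
  obtain ⟨C, hC⟩ := ap_bound hp hW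
  exact ⟨C, fun f hf => hC f hf.meas hf.bdd hf.supp⟩

/-- Sufficiency. -/
theorem sufficiency {p : ℝ} (hp : 1 < p) {U : ℝ → ℝ≥0} (hU : IsWeight U)
    (h : IsAp p U ∨ (∃ a : ℝ, IsAp p (wdiv p a U)) ∨ IsAp p (wone p U)) : Admissible p U := by
  have hp0 : 0 < p := by linarith
  rcases h with h | ⟨a, h⟩ | h
  · obtain ⟨C, hC⟩ := ap_bc hp h
    exact admissible_of_bc hp hU fun f hf _ => hC f hf
  · obtain ⟨C, hC⟩ := ap_bc hp h
    refine admissible_of_bc hp hU (C := C) fun f hf h0 => ?_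
    have h1 := mul_bound hp0 hC a hf h0
    have e : ∀ g : ℝ → ℂ, ∫⁻ x, ‖g x‖ₑ ^ p * (‖x - a‖ₑ ^ p * wdiv p a U x) =
        ∫⁻ x, ‖g x‖ₑ ^ p * U x := by
      intro g
      apply lintegral_congr_ae
      filter_upwards [Measure.ae_ne volume a] with x hx
      rw [wdiv_mul U hp0 hx]
    rwa [e, e] at h1
  · obtain ⟨C, hC⟩ := ap_bc hp h
    refine admissible_of_bc hp hU (C := 2 ^ (p - 1) * (2 * C)) fun f hf h0 => ?_
    have h1 := mul_bound hp0 hC 0 hf h0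
    have h2 := hC f hf
    simp_rw [sub_zero] at h1
    -- comparison of the weights
    have hx : ∀ x : ℝ, (U x : ℝ≥0∞) ≤ 2 ^ (p - 1) * (wone p U x + ‖x‖ₑ ^ p * wone p U x) := by
      intro x
      have hk : ENNReal.ofReal (kr x) * (1 + ‖x‖ₑ) = 1 := by
        have e1 : (1 : ℝ≥0∞) + ‖x‖ₑ = ENNReal.ofReal (1 + |x|) := by
          rw [ENNReal.ofReal_add zero_le_one (abs_nonneg x), ENNReal.ofReal_one,
            Real.enorm_eq_ofReal_abs]
        rw [e1, ← ENNReal.ofReal_mul (kr_pos x).le]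
        unfold kr
        rw [inv_mul_cancel₀ (by positivity), ENNReal.ofReal_one]
      have e2 : (U x : ℝ≥0∞) = (1 + ‖x‖ₑ) ^ p * wone p U x := by
        rw [wone_eq hp0, ← mul_assoc, ← ENNReal.mul_rpow_of_nonneg _ _ hp0.le, mul_comm (1 + ‖x‖ₑ),
          hk, ENNReal.one_rpow, one_mul]
      calc (U x : ℝ≥0∞) = (1 + ‖x‖ₑ) ^ p * wone p U x := e2
        _ ≤ (2 ^ (p - 1) * (1 ^ p + ‖x‖ₑ ^ p)) * wone p U x := by
            gcongr
            exact ENNReal.rpow_add_le_mul_rpow_add_rpow _ _ hp.le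
        _ = _ := by rw [ENNReal.one_rpow]; ring
    have hx1 : ∀ x : ℝ, (wone p U x : ℝ≥0∞) ≤ U x := wone_le hp0 U
    have hx2 : ∀ x : ℝ, ‖x‖ₑ ^ p * (wone p U x : ℝ≥0∞) ≤ U x := by
      intro x
      rw [wone_eq hp0, ← mul_assoc, ← ENNReal.mul_rpow_of_nonneg _ _ hp0.le]
      calc (‖x‖ₑ * ENNReal.ofReal (kr x)) ^ p * (U x : ℝ≥0∞) ≤ 1 * U x := by
            gcongr
            apply ENNReal.rpow_le_one _ hp0.le
            rw [Real.enorm_eq_ofReal_abs, ← ENNReal.ofReal_mul (abs_nonneg _), ENNReal.ofReal_le_one]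
            exact x_kr x
        _ = U x := one_mul _
    have hm : AEMeasurable (fun x => ‖hilb f x‖ₑ ^ p * (wone p U x : ℝ≥0∞)) volume :=
      ((hilb_aesm hf.int.1 (pv_ae hf.int)).enorm.pow_const p).mul
        (wone_meas hU.meas).coe_nnreal_ennreal.aemeasurable
    have h2t : (2 : ℝ≥0∞) ^ (p - 1) ≠ ∞ := ENNReal.rpow_ne_top_of_nonneg (by linarith) (by norm_num)
    calc ∫⁻ x, ‖hilb f x‖ₑ ^ p * U x
        ≤ ∫⁻ x, 2 ^ (p - 1) * (‖hilb f x‖ₑ ^ p * wone p U x +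
            ‖hilb f x‖ₑ ^ p * (‖x‖ₑ ^ p * wone p U x)) := by
          apply lintegral_mono
          intro x
          calc ‖hilb f x‖ₑ ^ p * (U x : ℝ≥0∞) ≤ ‖hilb f x‖ₑ ^ p *
                (2 ^ (p - 1) * (wone p U x + ‖x‖ₑ ^ p * wone p U x)) := by
                gcongr
                exact hx x
            _ = _ := by ring
      _ = 2 ^ (p - 1) * ((∫⁻ x, ‖hilb f x‖ₑ ^ p * wone p U x) +
            ∫⁻ x, ‖hilb f x‖ₑ ^ p * (‖x‖ₑ ^ p * wone p U x)) := by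
          rw [lintegral_const_mul' _ _ h2t, lintegral_add_left' hm]
      _ ≤ 2 ^ (p - 1) * ((C * ∫⁻ x, ‖f x‖ₑ ^ p * wone p U x) +
            C * ∫⁻ x, ‖f x‖ₑ ^ p * (‖x‖ₑ ^ p * wone p U x)) := by gcongr
      _ ≤ 2 ^ (p - 1) * ((C * ∫⁻ x, ‖f x‖ₑ ^ p * U x) + C * ∫⁻ x, ‖f x‖ₑ ^ p * U x) := by
          have t1 : ∫⁻ x, ‖f x‖ₑ ^ p * wone p U x ≤ ∫⁻ x, ‖f x‖ₑ ^ p * U x :=
            lintegral_mono fun x => mul_le_mul' le_rfl (hx1 x)
          have t2 : ∫⁻ x, ‖f x‖ₑ ^ p * (‖x‖ₑ ^ p * wone p U x) ≤ ∫⁻ x, ‖f x‖ₑ ^ p * U x :=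
            lintegral_mono fun x => mul_le_mul' le_rfl (hx2 x)
          exact mul_le_mul' le_rfl (add_le_add (mul_le_mul' le_rfl t1) (mul_le_mul' le_rfl t2))
      _ = ((2 ^ (p - 1) * (2 * C) : ℝ≥0) : ℝ≥0∞) * ∫⁻ x, ‖f x‖ₑ ^ p * U x := by
          rw [ENNReal.coe_mul, ENNReal.coe_mul, ENNReal.coe_rpow_of_nonneg _ (by linarith)]
          push_cast
          ring

/-- The characterisation. -/
theorem main {p : ℝ} (hp : 1 < p) {U : ℝ → ℝ≥0} (hU : IsWeight U) :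
    Admissible p U ↔ IsAp p U ∨ (∃ a : ℝ, IsAp p (wdiv p a U)) ∨ IsAp p (wone p U) :=
  ⟨necessity hp hU, sufficiency hp hU⟩

end Run7.h664
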